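import Mathlib

/-!
# Matroid subdivisions, indecomposable matroids, projective geometries
-/

namespace Pool.Agent.MP_da28a5_co

open scoped LinearAlgebra.Projectivization

/-- The incidence vector `e_B` of a set `B`. -/
noncomputable def vec {α : Type} (B : Set α) : α → ℝ := B.indicator 1

/-- The matroid polytope `P_M`: the convex hull of the incidence vectors of the bases. -/
def basePolytope {α : Type} (M : Matroid α) : Set (α → ℝ) :=
  convexHull ℝ {x | ∃ B, M.IsBase B ∧ x = vec B}

/-- `S` is (the set of nonempty cells of) a matroid subdivision of `P_M`: a finite set of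
polytopes with union `P_M`, closed under taking nonempty faces, in which any two cells meet in a
(possibly empty) face of both, and each of whose cells is the matroid polytope of a matroid on the
same ground set with vertices among the vertices of `P_M`. Faces are exposed subsets. -/
structure IsMatroidSubdivision {α : Type} (M : Matroid α) (S : Set (Set (α → ℝ))) : Prop where
  finite : S.Finite
  sUnion_eq : ⋃₀ S = basePolytope M
  cell : ∀ C ∈ S, ∃ N : Matroid α, N.E = M.E ∧ (∀ B, N.IsBase B → M.IsBase B) ∧
    C = basePolytope N
  face_mem : ∀ C ∈ S, ∀ F : Set (α → ℝ), IsExposed ℝ C F → F.Nonempty → F ∈ S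
  inter_face : ∀ C ∈ S, ∀ D ∈ S, IsExposed ℝ C (C ∩ D) ∧ IsExposed ℝ D (C ∩ D)

/-- The trivial subdivision of `P_M`: all nonempty faces of `P_M`; its only maximal cell
is `P_M`. -/
def trivialSubdivision {α : Type} (M : Matroid α) : Set (Set (α → ℝ)) :=
  {F | IsExposed ℝ (basePolytope M) F ∧ F.Nonempty}

/-- `M` is indecomposable: `P_M` admits no matroid subdivision other than the trivial one. -/
def IsIndecomposable {α : Type} (M : Matroid α) : Prop :=
  ∀ S : Set (Set (α → ℝ)), IsMatroidSubdivision M S → S = trivialSubdivision M

section PG

variable (K V : Type) [Field K] [AddCommGroup V] [Module K V] [Finite (ℙ K V)]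

/-- The augmentation property for linearly independent families of points. -/
lemma linearIndepOn_augment {I J : Set (ℙ K V)}
    (hI : LinearIndepOn K Projectivization.rep I) (hJ : LinearIndepOn K Projectivization.rep J)
    (hcard : I.ncard < J.ncard) :
    ∃ e ∈ J, e ∉ I ∧ LinearIndepOn K Projectivization.rep (insert e I) := by
  by_contra hcon
  push Not at hcon
  have hspan : ∀ e ∈ J, Projectivization.rep e ∈
      Submodule.span K (Projectivization.rep '' I) := by
    intro e he
    by_cases heI : e ∈ I
    · exact Submodule.subset_span ⟨e, heI, rfl⟩
    · by_contra hns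
      exact hcon e he heI (hI.insert hns)
  have hle : Submodule.span K (Projectivization.rep '' J) ≤
      Submodule.span K (Projectivization.rep '' I) := by
    rw [Submodule.span_le]
    rintro _ ⟨e, he, rfl⟩
    exact hspan e he
  have hIf : I.Finite := I.toFinite
  have hJf : J.Finite := J.toFinite
  have hIi : (Projectivization.rep '' I : Set V).Finite := hIf.image _
  haveI : Module.Finite K (Submodule.span K (Projectivization.rep '' I : Set V)) :=
    Module.Finite.span_of_finite K hIi
  have h1 := Submodule.finrank_mono hle
  have e1 : Module.finrank K (Submodule.span K (Projectivization.rep '' J : Set V)) = J.ncard := by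
    haveI := hJf.fintype
    have h2 : LinearIndependent K (fun x : J => Projectivization.rep (x : ℙ K V)) := hJ
    have h3 := finrank_span_eq_card h2
    rw [← Set.image_eq_range] at h3
    rw [h3, Set.ncard_eq_toFinset_card', Set.toFinset_card]
  have e2 : Module.finrank K (Submodule.span K (Projectivization.rep '' I : Set V)) = I.ncard := by
    haveI := hIf.fintype
    have h2 : LinearIndependent K (fun x : I => Projectivization.rep (x : ℙ K V)) := hI
    have h3 := finrank_span_eq_card h2
    rw [← Set.image_eq_range] at h3
    rw [h3, Set.ncard_eq_toFinset_card', Set.toFinset_card]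
  omega

/-- The projective geometry of `V` as a matroid on the points (one-dimensional subspaces) of `V`:
a set of points is independent exactly when representative vectors are linearly independent. -/
noncomputable def PG : Matroid (ℙ K V) :=
  (IndepMatroid.ofFinite (E := Set.univ) Set.finite_univ
    (fun I => LinearIndepOn K Projectivization.rep I)
    (linearIndepOn_empty K _)
    (fun _ _ hJ hIJ => hJ.mono hIJ)
    (fun _ _ hI hJ hcard => linearIndepOn_augment K V hI hJ hcard)
    (fun _ _ => Set.subset_univ _)).matroid

lemma PG_indep_iff (I : Set (ℙ K V)) :
    (PG K V).Indep I ↔ LinearIndepOn K Projectivization.rep I := Iff.rfl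

end PG

end Pool.Agent.MP_da28a5_co
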