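import Mathlib
import Pool.Agent.Lib.MP_da28a5_co.Defs

/-!
# Minimal cells of a matroid subdivision
-/

namespace Pool.Agent.MP_da28a5_co

open Matrix

variable {α : Type}

lemma vec_of_mem {B : Set α} {i : α} (h : i ∈ B) : vec B i = 1 := by simp [vec, h]

lemma vec_of_notMem {B : Set α} {i : α} (h : i ∉ B) : vec B i = 0 := by simp [vec, h]

lemma vec_nonneg (B : Set α) (i : α) : 0 ≤ vec B i := by
  by_cases h : i ∈ B
  · rw [vec_of_mem h]; exact zero_le_one
  · rw [vec_of_notMem h]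

lemma vec_le_one (B : Set α) (i : α) : vec B i ≤ 1 := by
  by_cases h : i ∈ B
  · rw [vec_of_mem h]
  · rw [vec_of_notMem h]; exact zero_le_one

lemma mem_of_vec_pos {B : Set α} {i : α} (h : 0 < vec B i) : i ∈ B := by
  by_contra h'
  rw [vec_of_notMem h'] at h
  exact lt_irrefl _ h

lemma mem_of_vec_eq_one {B : Set α} {i : α} (h : vec B i = 1) : i ∈ B :=
  mem_of_vec_pos (by rw [h]; exact zero_lt_one)

lemma notMem_of_vec_eq_zero {B : Set α} {i : α} (h : vec B i = 0) : i ∉ B := by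
  intro h'
  rw [vec_of_mem h'] at h
  exact one_ne_zero h

lemma vec_mem {N : Matroid α} {B : Set α} (h : N.IsBase B) : vec B ∈ basePolytope N :=
  subset_convexHull _ _ ⟨B, h, rfl⟩

variable [Fintype α]

lemma dot_le {N : Matroid α} {w : α → ℝ} {c : ℝ} (h : ∀ B, N.IsBase B → w ⬝ᵥ vec B ≤ c) {y : α → ℝ}
    (hy : y ∈ basePolytope N) : w ⬝ᵥ y ≤ c := by
  have hconv : Convex ℝ {y : α → ℝ | w ⬝ᵥ y ≤ c} := by
    intro a ha b hb s t hs ht hst
    simp only [Set.mem_ofPred_eq] at ha hb ⊢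
    rw [dotProduct_add, dotProduct_smul, dotProduct_smul, smul_eq_mul, smul_eq_mul]
    have e1 := mul_le_mul_of_nonneg_left ha hs
    have e2 := mul_le_mul_of_nonneg_left hb ht
    have e3 : s * c + t * c = c := by rw [← add_mul, hst, one_mul]
    linarith
  have hsub : {x | ∃ B, N.IsBase B ∧ x = vec B} ⊆ {y : α → ℝ | w ⬝ᵥ y ≤ c} := by
    rintro _ ⟨B, hB, rfl⟩
    exact h B hB
  exact convexHull_min hsub hconv hy

/-- `e_B` is in `P_N` only if `B` is a base of `N`. -/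
lemma isBase_of_vec_mem {N : Matroid α} {B : Set α} (h : vec B ∈ basePolytope N) : N.IsBase B := by
  classical
  by_contra hB
  let w : α → ℝ := fun i => if i ∈ B then 1 else -1
  have key : ∀ B', N.IsBase B' → w ⬝ᵥ vec B' ≤ w ⬝ᵥ vec B - 1 := by
    intro B' hB'
    have hne : B' ≠ B := by rintro rfl; exact hB hB'
    have hterm : ∀ i, 0 ≤ w i * vec B i - w i * vec B' i := by
      intro i
      by_cases hi : i ∈ B
      · rw [vec_of_mem hi]
        simp only [w, if_pos hi]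
        have := vec_le_one B' i
        linarith
      · rw [vec_of_notMem hi]
        simp only [w, if_neg hi]
        have := vec_nonneg B' i
        linarith
    obtain ⟨j, hj⟩ : ∃ j, 1 ≤ w j * vec B j - w j * vec B' j := by
      by_contra hcon
      push Not at hcon
      apply hne
      ext i
      have hi := hcon i
      by_cases h1 : i ∈ B <;> by_cases h2 : i ∈ B'
      · simp [h1, h2]
      · rw [vec_of_mem h1, vec_of_notMem h2] at hi
        simp [w, h1] at hi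
      · rw [vec_of_mem h2, vec_of_notMem h1] at hi
        simp [w, h1] at hi
      · simp [h1, h2]
    have hsum : 1 ≤ ∑ i, (w i * vec B i - w i * vec B' i) :=
      le_trans hj (Finset.single_le_sum (fun i _ => hterm i) (Finset.mem_univ j))
    rw [Finset.sum_sub_distrib] at hsum
    simp only [dotProduct]
    linarith
  have := dot_le key h
  linarith

lemma vec_mem_iff {N : Matroid α} {B : Set α} : vec B ∈ basePolytope N ↔ N.IsBase B :=
  ⟨isBase_of_vec_mem, vec_mem⟩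

/-- A point of `P_N` at which a valid inequality is tight is a convex combination of the tight
bases. -/
lemma mem_tight {N : Matroid α} {w : α → ℝ} {c : ℝ} (h : ∀ B, N.IsBase B → w ⬝ᵥ vec B ≤ c)
    {y : α → ℝ} (hy : y ∈ basePolytope N) (hc : w ⬝ᵥ y = c) :
    y ∈ convexHull ℝ {x | ∃ B, (N.IsBase B ∧ w ⬝ᵥ vec B = c) ∧ x = vec B} := by
  classical
  obtain ⟨ι, _, l, z, hl0, hl1, hz, hsum⟩ := mem_convexHull_iff_exists_fintype.mp hy
  choose B hB hzB using hz
  have hzc : ∀ i, w ⬝ᵥ z i ≤ c := fun i => by rw [hzB i]; exact h _ (hB i)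
  have hdot : w ⬝ᵥ y = ∑ i, l i * (w ⬝ᵥ z i) := by
    rw [← hsum, dotProduct_sum]
    apply Finset.sum_congr rfl
    intro i _
    rw [dotProduct_smul, smul_eq_mul]
  have hzero : ∑ i, l i * (c - w ⬝ᵥ z i) = 0 := by
    have : ∑ i, l i * (c - w ⬝ᵥ z i) = (∑ i, l i) * c - ∑ i, l i * (w ⬝ᵥ z i) := by
      rw [Finset.sum_mul, ← Finset.sum_sub_distrib]
      apply Finset.sum_congr rfl
      intro i _; ring
    rw [this, hl1, ← hdot, hc]; ring
  have heach : ∀ i, l i * (c - w ⬝ᵥ z i) = 0 := by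
    intro i
    have := (Finset.sum_eq_zero_iff_of_nonneg (fun i _ => mul_nonneg (hl0 i)
      (sub_nonneg.mpr (hzc i)))).mp hzero i (Finset.mem_univ i)
    exact this
  obtain ⟨i0, hi0⟩ : ∃ i, l i ≠ 0 := by
    by_contra hcon
    push Not at hcon
    simp [hcon] at hl1
  have htight : ∀ i, l i ≠ 0 → w ⬝ᵥ vec (B i) = c := by
    intro i hi
    rcases mul_eq_zero.mp (heach i) with h1 | h1
    · exact absurd h1 hi
    · rw [← hzB i]; linarith
  refine mem_convexHull_of_exists_fintype l (fun i => if l i = 0 then z i0 else z i) hl0 hl1 ?_ ?_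
  · intro i
    by_cases hi : l i = 0
    · simp only [hi, if_true]
      exact ⟨B i0, ⟨hB i0, htight i0 hi0⟩, hzB i0⟩
    · simp only [hi, if_false]
      exact ⟨B i, ⟨hB i, htight i hi⟩, hzB i⟩
  · rw [← hsum]
    apply Finset.sum_congr rfl
    intro i _
    by_cases hi : l i = 0
    · simp [hi]
    · simp [hi]

lemma exists_base_of_mem {N : Matroid α} {w : α → ℝ} {c : ℝ}
    (h : ∀ B, N.IsBase B → w ⬝ᵥ vec B ≤ c)
    {y : α → ℝ} (hy : y ∈ basePolytope N) (hc : w ⬝ᵥ y = c) :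
    ∃ B, N.IsBase B ∧ w ⬝ᵥ vec B = c := by
  have h1 := mem_tight h hy hc
  have h2 : (convexHull ℝ {x | ∃ B, (N.IsBase B ∧ w ⬝ᵥ vec B = c) ∧ x = vec B}).Nonempty :=
    ⟨y, h1⟩
  rw [convexHull_nonempty_iff] at h2
  obtain ⟨_, B, hB, rfl⟩ := h2
  exact ⟨B, hB⟩

variable {M : Matroid α} {S : Set (Set (α → ℝ))}

lemma cell_isBase (hS : IsMatroidSubdivision M S) {N : Matroid α} (hN : basePolytope N ∈ S)
    {B : Set α} (hB : N.IsBase B) : M.IsBase B := by
  obtain ⟨N', -, h1, h2⟩ := hS.cell _ hN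
  apply h1
  rw [← vec_mem_iff, ← h2]
  exact vec_mem hB

lemma exists_cell (hS : IsMatroidSubdivision M S) {x : α → ℝ} (hx : x ∈ basePolytope M) :
    ∃ N : Matroid α, basePolytope N ∈ S ∧ x ∈ basePolytope N := by
  rw [← hS.sUnion_eq] at hx
  obtain ⟨C, hC, hxC⟩ := hx
  obtain ⟨N, -, -, rfl⟩ := hS.cell C hC
  exact ⟨N, hC, hxC⟩

/-- continuous linear functional of a weight vector -/
noncomputable def fnl (w : α → ℝ) : StrongDual ℝ (α → ℝ) :=
  LinearMap.toContinuousLinearMap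
    { toFun := fun y => w ⬝ᵥ y
      map_add' := fun a b => dotProduct_add w a b
      map_smul' := fun a b => dotProduct_smul a w b }

@[simp] lemma fnl_apply (w y : α → ℝ) : fnl w y = w ⬝ᵥ y := rfl

/-- The face of a cell cut out by a valid inequality. -/
lemma exists_face (hS : IsMatroidSubdivision M S) {N : Matroid α} (hN : basePolytope N ∈ S)
    {w : α → ℝ} {c : ℝ} (h : ∀ B, N.IsBase B → w ⬝ᵥ vec B ≤ c)
    (hex : ∃ B, N.IsBase B ∧ w ⬝ᵥ vec B = c) :
    ∃ N' : Matroid α, basePolytope N' ∈ S ∧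
      (∀ B, N'.IsBase B ↔ N.IsBase B ∧ w ⬝ᵥ vec B = c) ∧
      basePolytope N' = {y | y ∈ basePolytope N ∧ w ⬝ᵥ y = c} := by
  obtain ⟨B0, hB0, hB0c⟩ := hex
  set F : Set (α → ℝ) := {y | y ∈ basePolytope N ∧ w ⬝ᵥ y = c} with hF
  have hexp : IsExposed ℝ (basePolytope N) F := by
    intro _
    refine ⟨fnl w, ?_⟩
    ext y
    simp only [hF, Set.mem_ofPred_eq, fnl_apply]
    constructor
    · rintro ⟨hy, hyc⟩
      refine ⟨hy, fun z hz => ?_⟩
      rw [hyc]
      exact dot_le h hz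
    · rintro ⟨hy, hmax⟩
      refine ⟨hy, le_antisymm (dot_le h hy) ?_⟩
      have := hmax (vec B0) (vec_mem hB0)
      rw [hB0c] at this
      exact this
  have hne : F.Nonempty := ⟨vec B0, vec_mem hB0, hB0c⟩
  have hFS := hS.face_mem _ hN F hexp hne
  obtain ⟨N', -, -, hN'⟩ := hS.cell F hFS
  refine ⟨N', hN' ▸ hFS, ?_, hN'.symm⟩
  intro B
  rw [← vec_mem_iff, ← hN']
  simp only [hF, Set.mem_ofPred_eq, vec_mem_iff]

lemma exists_weight_of_fnl (l : StrongDual ℝ (α → ℝ)) : ∃ w : α → ℝ, ∀ y, l y = w ⬝ᵥ y := by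
  classical
  refine ⟨fun i => l (Pi.single i 1), fun y => ?_⟩
  have : y = ∑ i, y i • (Pi.single i (1 : ℝ) : α → ℝ) := by
    ext j
    simp [Finset.sum_apply, Pi.single_apply]
  conv_lhs => rw [this]
  rw [map_sum]
  simp only [map_smul, smul_eq_mul, dotProduct]
  apply Finset.sum_congr rfl
  intro i _
  ring

/-- Two cells meeting in a point: the intersection is a face. -/
lemma exists_common (hS : IsMatroidSubdivision M S) {N N' : Matroid α}
    (hN : basePolytope N ∈ S) (hN' : basePolytope N' ∈ S) {x : α → ℝ} (hx : x ∈ basePolytope N)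
    (hx' : x ∈ basePolytope N') :
    ∃ w : α → ℝ, (∀ B, N.IsBase B → w ⬝ᵥ vec B ≤ w ⬝ᵥ x) ∧
      ∀ B, N.IsBase B → w ⬝ᵥ vec B = w ⬝ᵥ x → N'.IsBase B := by
  obtain ⟨l, hl⟩ := (hS.inter_face _ hN _ hN').1 ⟨x, hx, hx'⟩
  obtain ⟨w, hw⟩ := exists_weight_of_fnl l
  have hxmem : x ∈ basePolytope N ∩ basePolytope N' := ⟨hx, hx'⟩
  rw [hl] at hxmem
  refine ⟨w, ?_, ?_⟩
  · intro B hB
    have := hxmem.2 (vec B) (vec_mem hB)
    rwa [hw, hw] at this
  · intro B hB hBx
    have : vec B ∈ basePolytope N ∩ basePolytope N' := by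
      rw [hl]
      refine ⟨vec_mem hB, fun y hy => ?_⟩
      rw [hw (vec B), hBx, ← hw x]
      exact hxmem.2 y hy
    exact isBase_of_vec_mem this.2

/-- `N` is (the matroid of) the minimal cell containing `x`: the point `x` is in the relative
interior of the cell. -/
structure IsMin (S : Set (Set (α → ℝ))) (x : α → ℝ) (N : Matroid α) : Prop where
  cell : basePolytope N ∈ S
  mem : x ∈ basePolytope N
  ri : ∀ w : α → ℝ, (∀ B, N.IsBase B → w ⬝ᵥ vec B ≤ w ⬝ᵥ x) →
    ∀ B, N.IsBase B → w ⬝ᵥ vec B = w ⬝ᵥ x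

lemma exists_isMin (hS : IsMatroidSubdivision M S) {x : α → ℝ} (hx : x ∈ basePolytope M) :
    ∃ N, IsMin S x N := by
  classical
  have hex : ∃ n : ℕ, ∃ N : Matroid α, basePolytope N ∈ S ∧ x ∈ basePolytope N ∧
      {B | N.IsBase B}.ncard = n := by
    obtain ⟨N, h1, h2⟩ := exists_cell hS hx
    exact ⟨_, N, h1, h2, rfl⟩
  obtain ⟨N, h1, h2, h3⟩ := Nat.find_spec hex
  refine ⟨N, h1, h2, ?_⟩
  intro w hw
  obtain ⟨N', hN'S, hN'b, hN'p⟩ := exists_face hS h1 hw (exists_base_of_mem hw h2 rfl)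
  have hxN' : x ∈ basePolytope N' := by
    rw [hN'p]; exact ⟨h2, rfl⟩
  have hsub : {B | N'.IsBase B} ⊆ {B | N.IsBase B} := fun B hB => ((hN'b B).mp hB).1
  have hle : {B | N.IsBase B}.ncard ≤ {B | N'.IsBase B}.ncard := by
    rw [h3]
    exact Nat.find_min' hex ⟨N', hN'S, hxN', rfl⟩
  have heq := Set.eq_of_subset_of_ncard_le hsub hle (Set.toFinite _)
  intro B hB
  have : B ∈ {B | N'.IsBase B} := by rw [heq]; exact hB
  exact ((hN'b B).mp this).2

lemma IsMin.le (hS : IsMatroidSubdivision M S) {x : α → ℝ} {N N' : Matroid α} (h : IsMin S x N)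
    (hN' : basePolytope N' ∈ S) (hx : x ∈ basePolytope N') {B : Set α} (hB : N.IsBase B) :
    N'.IsBase B := by
  obtain ⟨w, hw1, hw2⟩ := exists_common hS h.cell hN' h.mem hx
  exact hw2 B hB (h.ri w hw1 B hB)

lemma IsMin.iff (hS : IsMatroidSubdivision M S) {x : α → ℝ} {N N' : Matroid α} (h : IsMin S x N)
    (h' : IsMin S x N') (B : Set α) : N.IsBase B ↔ N'.IsBase B :=
  ⟨fun hB => h.le hS h'.cell h'.mem hB, fun hB => h'.le hS h.cell h.mem hB⟩

lemma IsMin.isBase (hS : IsMatroidSubdivision M S) {x : α → ℝ} {N : Matroid α} (h : IsMin S x N)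
    {B : Set α} (hB : N.IsBase B) : M.IsBase B := cell_isBase hS h.cell hB

end Pool.Agent.MP_da28a5_co
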