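import Mathlib
import Pool.Agent.Lib.MP_da28a5_co.Cells

/-!
# Octahedral faces
-/

namespace Pool.Agent.MP_da28a5_co

open Matrix

variable {α : Type}

/-- `I` together with any two of `a, b, c, d` is a base: an octahedral face of `P_M`. -/
structure Oct (M : Matroid α) (I : Set α) (a b c d : α) : Prop where
  ab : M.IsBase (I ∪ {a, b})
  ac : M.IsBase (I ∪ {a, c})
  ad : M.IsBase (I ∪ {a, d})
  bc : M.IsBase (I ∪ {b, c})
  bd : M.IsBase (I ∪ {b, d})
  cd : M.IsBase (I ∪ {c, d})
  nab : a ≠ b
  nac : a ≠ c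
  nad : a ≠ d
  nbc : b ≠ c
  nbd : b ≠ d
  ncd : c ≠ d
  aI : a ∉ I
  bI : b ∉ I
  cI : c ∉ I
  dI : d ∉ I

section perm

variable {M : Matroid α} {I : Set α} {a b c d : α}

lemma Oct.swap12 (O : Oct M I a b c d) : Oct M I b a c d where
  ab := by rw [Set.pair_comm]; exact O.ab
  ac := O.bc
  ad := O.bd
  bc := O.ac
  bd := O.ad
  cd := O.cd
  nab := O.nab.symm
  nac := O.nbc
  nad := O.nbd
  nbc := O.nac
  nbd := O.nad
  ncd := O.ncd
  aI := O.bI
  bI := O.aI
  cI := O.cI
  dI := O.dI

lemma Oct.swap23 (O : Oct M I a b c d) : Oct M I a c b d where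
  ab := O.ac
  ac := O.ab
  ad := O.ad
  bc := by rw [Set.pair_comm]; exact O.bc
  bd := O.cd
  cd := O.bd
  nab := O.nac
  nac := O.nab
  nad := O.nad
  nbc := O.nbc.symm
  nbd := O.ncd
  ncd := O.nbd
  aI := O.aI
  bI := O.cI
  cI := O.bI
  dI := O.dI

lemma Oct.swap34 (O : Oct M I a b c d) : Oct M I a b d c where
  ab := O.ab
  ac := O.ad
  ad := O.ac
  bc := O.bd
  bd := O.bc
  cd := by rw [Set.pair_comm]; exact O.cd
  nab := O.nab
  nac := O.nad
  nad := O.nac
  nbc := O.nbd
  nbd := O.nbc
  ncd := O.ncd.symm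
  aI := O.aI
  bI := O.bI
  cI := O.dI
  dI := O.cI

/-- the centre of the octahedron -/
noncomputable def xo (I : Set α) (a b c d : α) : α → ℝ := vec I + (1 / 2 : ℝ) • vec {a, b, c, d}

lemma xo_swap12 (I : Set α) (a b c d : α) : xo I b a c d = xo I a b c d := by
  have : ({b, a, c, d} : Set α) = {a, b, c, d} := by ext; simp; tauto
  simp only [xo, this]

lemma xo_swap23 (I : Set α) (a b c d : α) : xo I a c b d = xo I a b c d := by
  have : ({a, c, b, d} : Set α) = {a, b, c, d} := by ext; simp; tauto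
  simp only [xo, this]

lemma xo_swap34 (I : Set α) (a b c d : α) : xo I a b d c = xo I a b c d := by
  have : ({a, b, d, c} : Set α) = {a, b, c, d} := by ext; simp; tauto
  simp only [xo, this]

lemma xo_swapPairs (I : Set α) (a b c d : α) : xo I c d a b = xo I a b c d := by
  have : ({c, d, a, b} : Set α) = {a, b, c, d} := by ext; simp; tauto
  simp only [xo, this]

lemma Oct.swapPairs (O : Oct M I a b c d) : Oct M I c d a b :=
  O.swap23.swap12.swap34.swap23

lemma xo_mem {i : α} (h1 : i ∈ I) (h2 : i ∉ ({a, b, c, d} : Set α)) : xo I a b c d i = 1 := by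
  simp [xo, vec_of_mem h1, vec_of_notMem h2]

lemma xo_half {i : α} (h1 : i ∉ I) (h2 : i ∈ ({a, b, c, d} : Set α)) :
    xo I a b c d i = 1 / 2 := by
  simp [xo, vec_of_mem h2, vec_of_notMem h1]

lemma xo_zero {i : α} (h1 : i ∉ I) (h2 : i ∉ ({a, b, c, d} : Set α)) : xo I a b c d i = 0 := by
  simp [xo, vec_of_notMem h2, vec_of_notMem h1]

lemma vec_add_pair (O : Oct M I a b c d) :
    vec (I ∪ {a, b}) + vec (I ∪ {c, d}) = (2 : ℝ) • xo I a b c d := by
  funext i
  simp only [Pi.add_apply, Pi.smul_apply, smul_eq_mul]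
  by_cases h1 : i ∈ I
  · have h2 : i ∉ ({a, b, c, d} : Set α) := by
      rintro (rfl | rfl | rfl | rfl)
      · exact O.aI h1
      · exact O.bI h1
      · exact O.cI h1
      · exact O.dI h1
    rw [xo_mem h1 h2, vec_of_mem (Set.mem_union_left _ h1), vec_of_mem (Set.mem_union_left _ h1)]
    norm_num
  · by_cases h3 : i ∈ ({a, b} : Set α)
    · have h4 : i ∉ ({c, d} : Set α) := by
        rintro (rfl | rfl) <;> rcases h3 with h3 | h3
        · exact O.nac h3.symm
        · exact O.nbc h3.symm
        · exact O.nad h3.symm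
        · exact O.nbd h3.symm
      have h5 : i ∈ ({a, b, c, d} : Set α) := by
        rcases h3 with h3 | h3
        · exact Or.inl h3
        · exact Or.inr (Or.inl h3)
      rw [xo_half h1 h5, vec_of_mem (Set.mem_union_right _ h3),
        vec_of_notMem (by rintro (h | h); exacts [h1 h, h4 h])]
      norm_num
    · by_cases h4 : i ∈ ({c, d} : Set α)
      · have h5 : i ∈ ({a, b, c, d} : Set α) := Or.inr (Or.inr h4)
        rw [xo_half h1 h5, vec_of_mem (Set.mem_union_right _ h4),
          vec_of_notMem (by rintro (h | h); exacts [h1 h, h3 h])]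
        norm_num
      · have h5 : i ∉ ({a, b, c, d} : Set α) := by
          rintro (h | h | h)
          · exact h3 (Or.inl h)
          · exact h3 (Or.inr h)
          · exact h4 h
        rw [xo_zero h1 h5, vec_of_notMem (by rintro (h | h); exacts [h1 h, h3 h]),
          vec_of_notMem (by rintro (h | h); exacts [h1 h, h4 h])]
        norm_num

lemma xo_mem_of_pair (O : Oct M I a b c d) {N : Matroid α} (h1 : N.IsBase (I ∪ {a, b}))
    (h2 : N.IsBase (I ∪ {c, d})) : xo I a b c d ∈ basePolytope N := by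
  have h := vec_add_pair O
  have h3 : xo I a b c d = (1 / 2 : ℝ) • vec (I ∪ {a, b}) + (1 / 2 : ℝ) • vec (I ∪ {c, d}) := by
    rw [← smul_add, h, smul_smul]; norm_num
  rw [h3]
  exact (convex_convexHull ℝ _) (vec_mem h1) (vec_mem h2) (by norm_num) (by norm_num) (by norm_num)

lemma xo_mem_M (O : Oct M I a b c d) : xo I a b c d ∈ basePolytope M :=
  xo_mem_of_pair O O.ab O.cd

/-- Classification of the bases in an octahedral face. -/
lemma six (O : Oct M I a b c d) {B : Set α} (hB : M.IsBase B) (h1 : I ⊆ B)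
    (h2 : B ⊆ I ∪ {a, b, c, d}) :
    B = I ∪ {a, b} ∨ B = I ∪ {c, d} ∨ B = I ∪ {a, c} ∨ B = I ∪ {b, d} ∨ B = I ∪ {a, d} ∨
      B = I ∪ {b, c} := by
  have up : ∀ p q, M.IsBase (I ∪ {p, q}) → p ∈ B → q ∈ B → B = I ∪ {p, q} := by
    intro p q hpq hp hq
    refine (hpq.eq_of_subset_isBase hB ?_).symm
    rintro x (hx | rfl | rfl)
    · exact h1 hx
    · exact hp
    · exact hq
  have down : ∀ p q, M.IsBase (I ∪ {p, q}) → B ⊆ I ∪ {p, q} → q ∈ B := by
    intro p q hpq hsub
    rw [hB.eq_of_subset_isBase hpq hsub]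
    exact Or.inr (Or.inr rfl)
  by_cases ha : a ∈ B
  · by_cases hb : b ∈ B
    · exact Or.inl (up a b O.ab ha hb)
    by_cases hc : c ∈ B
    · exact Or.inr (Or.inr (Or.inl (up a c O.ac ha hc)))
    by_cases hd : d ∈ B
    · exact Or.inr (Or.inr (Or.inr (Or.inr (Or.inl (up a d O.ad ha hd)))))
    exfalso
    apply hb
    apply down a b O.ab
    intro x hx
    rcases h2 hx with h | rfl | rfl | rfl | rfl
    · exact Or.inl h
    · exact Or.inr (Or.inl rfl)
    · exact absurd hx hb
    · exact absurd hx hc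
    · exact absurd hx hd
  · by_cases hb : b ∈ B
    · by_cases hc : c ∈ B
      · exact Or.inr (Or.inr (Or.inr (Or.inr (Or.inr (up b c O.bc hb hc)))))
      by_cases hd : d ∈ B
      · exact Or.inr (Or.inr (Or.inr (Or.inl (up b d O.bd hb hd))))
      exfalso
      apply ha
      apply down b a O.swap12.ab
      intro x hx
      rcases h2 hx with h | rfl | rfl | rfl | rfl
      · exact Or.inl h
      · exact absurd hx ha
      · exact Or.inr (Or.inl rfl)
      · exact absurd hx hc
      · exact absurd hx hd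
    · by_cases hc : c ∈ B
      · by_cases hd : d ∈ B
        · exact Or.inr (Or.inl (up c d O.cd hc hd))
        exfalso
        apply hd
        apply down c d O.cd
        intro x hx
        rcases h2 hx with h | rfl | rfl | rfl | rfl
        · exact Or.inl h
        · exact absurd hx ha
        · exact absurd hx hb
        · exact Or.inr (Or.inl rfl)
        · exact absurd hx hd
      · exfalso
        apply hc
        apply down d c O.swap34.cd
        intro x hx
        rcases h2 hx with h | rfl | rfl | rfl | rfl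
        · exact Or.inl h
        · exact absurd hx ha
        · exact absurd hx hb
        · exact absurd hx hc
        · exact Or.inr (Or.inl rfl)

/-- rank two exchange -/
lemma L2 {N : Matroid α} {p t s w : α} (h1 : N.IsBase (I ∪ {p, t})) (h2 : N.IsBase (I ∪ {s, w}))
    (h3 : ¬ N.IsBase (I ∪ {p, s})) (hw : w ∉ I) (hws : w ≠ s) : N.IsBase (I ∪ {s, t}) := by
  by_cases hwt : w = t
  · subst hwt; exact h2
  have hwp : w ≠ p := by
    rintro rfl
    apply h3
    rw [Set.pair_comm]
    exact h2
  have hwB : w ∈ (I ∪ {s, w}) \ (I ∪ {p, t}) := by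
    refine ⟨Or.inr (Or.inr rfl), ?_⟩
    rintro (h | h | h)
    · exact hw h
    · exact hwp h
    · exact hwt h
  obtain ⟨f, ⟨hf1, hf2⟩, hf3⟩ := h2.exchange h1 hwB
  have heq : insert f ((I ∪ {s, w}) \ {w}) = I ∪ {s, f} := by
    ext x
    simp only [Set.mem_insert_iff, Set.mem_sdiff, Set.mem_union, Set.mem_singleton_iff]
    constructor
    · rintro (h | ⟨h | h | h, h'⟩)
      · exact Or.inr (Or.inr h)
      · exact Or.inl h
      · exact Or.inr (Or.inl h)
      · exact absurd h h'
    · rintro (h | h | h)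
      · refine Or.inr ⟨Or.inl h, ?_⟩
        rintro rfl; exact hw h
      · refine Or.inr ⟨Or.inr (Or.inl h), ?_⟩
        rintro rfl; exact hws h
      · exact Or.inl h
  rw [heq] at hf3
  rcases hf1 with h | h | h
  · exact absurd (Or.inl h) hf2
  · subst h
    exfalso
    apply h3
    rw [Set.pair_comm]
    exact hf3
  · rw [h] at hf3
    exact hf3

end perm

variable [Fintype α] {M : Matroid α} {S : Set (Set (α → ℝ))}

/-- the relative interior property for the indicator of a finite set -/
lemma IsMin.ri_set {x : α → ℝ} {N : Matroid α} (h : IsMin S x N) (T : Finset α)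
    (hT : ∀ B, N.IsBase B → ∑ i ∈ T, vec B i ≤ ∑ i ∈ T, x i) :
    ∀ B, N.IsBase B → ∑ i ∈ T, vec B i = ∑ i ∈ T, x i := by
  classical
  have hdot : ∀ y : α → ℝ, (fun i => if i ∈ T then (1 : ℝ) else 0) ⬝ᵥ y = ∑ i ∈ T, y i := by
    intro y
    simp [dotProduct, Finset.sum_ite_mem]
  intro B hB
  have := h.ri (fun i => if i ∈ T then (1 : ℝ) else 0) (by
    intro B' hB'
    rw [hdot, hdot]
    exact hT B' hB') B hB
  rwa [hdot, hdot] at this

lemma IsMin.ri_neg {x : α → ℝ} {N : Matroid α} (h : IsMin S x N) (i : α)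
    (hT : ∀ B, N.IsBase B → x i ≤ vec B i) :
    ∀ B, N.IsBase B → vec B i = x i := by
  classical
  intro B hB
  have := h.ri (-(Pi.single i (1 : ℝ))) (by
    intro B' hB'
    rw [neg_dotProduct, neg_dotProduct, single_one_dotProduct, single_one_dotProduct]
    exact neg_le_neg (hT B' hB')) B hB
  rw [neg_dotProduct, neg_dotProduct, single_one_dotProduct, single_one_dotProduct] at this
  exact neg_injective this

lemma IsMin.mem_of_one {x : α → ℝ} {N : Matroid α} (h : IsMin S x N) {i : α} (hi : x i = 1)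
    {B : Set α} (hB : N.IsBase B) : i ∈ B := by
  have := h.ri_set {i} (by
    intro B' _
    simp only [Finset.sum_singleton]
    rw [hi]
    exact vec_le_one B' i) B hB
  simp only [Finset.sum_singleton] at this
  exact mem_of_vec_eq_one (this.trans hi)

lemma IsMin.notMem_of_zero {x : α → ℝ} {N : Matroid α} (h : IsMin S x N) {i : α} (hi : x i = 0)
    {B : Set α} (hB : N.IsBase B) : i ∉ B := by
  have := h.ri_neg i (by
    intro B' _
    rw [hi]
    exact vec_nonneg B' i) B hB
  exact notMem_of_vec_eq_zero (this.trans hi)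

/-- an element with positive coordinate is in some base -/
lemma exists_base_pos {x : α → ℝ} {N : Matroid α} (h : x ∈ basePolytope N) {i : α}
    (hi : 0 < x i) : ∃ B, N.IsBase B ∧ i ∈ B := by
  classical
  by_contra hcon
  push Not at hcon
  have := dot_le (N := N) (w := Pi.single i (1 : ℝ)) (c := 0) (by
    intro B hB
    rw [single_one_dotProduct, vec_of_notMem (hcon B hB)]) h
  rw [single_one_dotProduct] at this
  exact absurd hi (not_lt.mpr this)

/-- A cell which is symmetric around `x` is the minimal cell of `x`. -/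
lemma isMin_of_balanced {x : α → ℝ} {N : Matroid α} (hN : basePolytope N ∈ S)
    (hbal : ∀ B, N.IsBase B → ∃ B', N.IsBase B' ∧ vec B + vec B' = (2 : ℝ) • x) :
    IsMin S x N := by
  refine ⟨hN, ?_, ?_⟩
  · obtain ⟨B, hB⟩ := N.exists_isBase
    obtain ⟨B', hB', h⟩ := hbal B hB
    have h3 : x = (1 / 2 : ℝ) • vec B + (1 / 2 : ℝ) • vec B' := by
      rw [← smul_add, h, smul_smul]; norm_num
    rw [h3]
    exact (convex_convexHull ℝ _) (vec_mem hB) (vec_mem hB') (by norm_num) (by norm_num)
      (by norm_num)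
  · intro w hw B hB
    obtain ⟨B', hB', h⟩ := hbal B hB
    have h1 := hw B hB
    have h2 := hw B' hB'
    have h3 : w ⬝ᵥ vec B + w ⬝ᵥ vec B' = 2 * (w ⬝ᵥ x) := by
      rw [← dotProduct_add, h, dotProduct_smul, smul_eq_mul]
    linarith

section octa

variable {I : Set α} {a b c d : α}

lemma oct_sub (O : Oct M I a b c d) {N : Matroid α} (h : IsMin S (xo I a b c d) N) {B : Set α}
    (hB : N.IsBase B) : I ⊆ B ∧ B ⊆ I ∪ {a, b, c, d} := by
  constructor
  · intro i hi
    apply h.mem_of_one _ hB
    apply xo_mem hi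
    rintro (rfl | rfl | rfl | rfl)
    · exact O.aI hi
    · exact O.bI hi
    · exact O.cI hi
    · exact O.dI hi
  · intro i hi
    by_contra hcon
    refine h.notMem_of_zero ?_ hB hi
    apply xo_zero
    · intro h'; exact hcon (Or.inl h')
    · intro h'; exact hcon (Or.inr h')

lemma oct_six (hS : IsMatroidSubdivision M S) (O : Oct M I a b c d) {N : Matroid α}
    (h : IsMin S (xo I a b c d) N) {B : Set α} (hB : N.IsBase B) :
    B = I ∪ {a, b} ∨ B = I ∪ {c, d} ∨ B = I ∪ {a, c} ∨ B = I ∪ {b, d} ∨ B = I ∪ {a, d} ∨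
      B = I ∪ {b, c} :=
  six O (h.isBase hS hB) (oct_sub O h hB).1 (oct_sub O h hB).2

lemma oct_comp (hS : IsMatroidSubdivision M S) (O : Oct M I a b c d) {N : Matroid α}
    (h : IsMin S (xo I a b c d) N) (hcd : N.IsBase (I ∪ {c, d})) : N.IsBase (I ∪ {a, b}) := by
  classical
  by_contra hab
  have h1 : xo I a b c d a = 1 / 2 := xo_half O.aI (by simp)
  have h2 : xo I a b c d b = 1 / 2 := xo_half O.bI (by simp)
  have := h.ri_set {a, b} (by
    intro B hB
    rw [Finset.sum_pair O.nab, Finset.sum_pair O.nab, h1, h2]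
    by_cases ha : a ∈ B
    · by_cases hb : b ∈ B
      · exfalso
        apply hab
        have : I ∪ {a, b} = B := by
          apply O.ab.eq_of_subset_isBase (h.isBase hS hB)
          rintro x (hx | rfl | rfl)
          · exact (oct_sub O h hB).1 hx
          · exact ha
          · exact hb
        rw [this]; exact hB
      · rw [vec_of_notMem hb]
        have := vec_le_one B a
        linarith
    · rw [vec_of_notMem ha]
      have := vec_le_one B b
      linarith) _ hcd
  rw [Finset.sum_pair O.nab, Finset.sum_pair O.nab, h1, h2] at this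
  rw [vec_of_notMem, vec_of_notMem] at this
  · norm_num at this
  · rintro (h' | h' | h')
    · exact O.bI h'
    · exact O.nbc h'
    · exact O.nbd h'
  · rintro (h' | h' | h')
    · exact O.aI h'
    · exact O.nac h'
    · exact O.nad h'

lemma oct_comp' (hS : IsMatroidSubdivision M S) (O : Oct M I a b c d) {N : Matroid α}
    (h : IsMin S (xo I a b c d) N) : N.IsBase (I ∪ {a, b}) ↔ N.IsBase (I ∪ {c, d}) := by
  constructor
  · intro hab
    exact oct_comp hS O.swapPairs (by rw [xo_swapPairs]; exact h) hab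
  · exact oct_comp hS O h

/-- if `ab` is there then `ac` or `ad` is there -/
lemma oct_two (hS : IsMatroidSubdivision M S) (O : Oct M I a b c d) {N : Matroid α}
    (h : IsMin S (xo I a b c d) N) (hab : N.IsBase (I ∪ {a, b})) :
    N.IsBase (I ∪ {a, c}) ∨ N.IsBase (I ∪ {a, d}) := by
  have hcd := (oct_comp' hS O h).mp hab
  by_cases hac : N.IsBase (I ∪ {a, c})
  · exact Or.inl hac
  · right
    have h1 : ¬ N.IsBase (I ∪ {c, a}) := by rw [Set.pair_comm]; exact hac
    exact L2 hcd hab h1 O.bI O.nab.symm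

/-- The octahedron is split with `ab` opposite to `cd`. -/
def Split (S : Set (Set (α → ℝ))) (I : Set α) (a b c d : α) : Prop :=
  ∃ N, IsMin S (xo I a b c d) N ∧ ¬ N.IsBase (I ∪ {a, b})

lemma Split.not (hS : IsMatroidSubdivision M S) (h : Split S I a b c d) {N : Matroid α}
    (hN : IsMin S (xo I a b c d) N) : ¬ N.IsBase (I ∪ {a, b}) := by
  obtain ⟨N', h1, h2⟩ := h
  rwa [hN.iff hS h1]

lemma Split.swap12 (h : Split S I a b c d) : Split S I b a c d := by
  obtain ⟨N', h1, h2⟩ := h
  refine ⟨N', by rw [xo_swap12]; exact h1, ?_⟩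
  rwa [Set.pair_comm]

lemma Split.swap34 (h : Split S I a b c d) : Split S I a b d c := by
  obtain ⟨N', h1, h2⟩ := h
  exact ⟨N', by rw [xo_swap34]; exact h1, h2⟩

lemma Split.swapPairs (hS : IsMatroidSubdivision M S) (O : Oct M I a b c d)
    (h : Split S I a b c d) : Split S I c d a b := by
  obtain ⟨N', h1, h2⟩ := h
  refine ⟨N', by rw [xo_swapPairs]; exact h1, ?_⟩
  rwa [← oct_comp' hS O h1]

lemma Split.excl (hS : IsMatroidSubdivision M S) (O : Oct M I a b c d)
    (h : Split S I a b c d) : ¬ Split S I a c b d := by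
  intro h'
  obtain ⟨N, hN, hab⟩ := h
  have hac := h'.not hS (N := N) (by rw [xo_swap23]; exact hN)
  have hcd : ¬ N.IsBase (I ∪ {c, d}) := by rwa [← oct_comp' hS O hN]
  have hN' : IsMin S (xo I a c b d) N := by rw [xo_swap23]; exact hN
  have hbd : ¬ N.IsBase (I ∪ {b, d}) := by rwa [← oct_comp' hS O.swap23 hN']
  have hN'' : IsMin S (xo I a d b c) N := by
    have : xo I a d b c = xo I a b c d := by
      rw [xo_swap23, xo_swap34]
    rw [this]; exact hN
  have O'' : Oct M I a d b c := O.swap34.swap23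
  obtain ⟨B, hB⟩ := N.exists_isBase
  have had : N.IsBase (I ∪ {a, d}) := by
    rcases oct_six hS O hN hB with rfl | rfl | rfl | rfl | rfl | rfl
    · exact absurd hB hab
    · exact absurd hB hcd
    · exact absurd hB hac
    · exact absurd hB hbd
    · exact hB
    · exact (oct_comp' hS O'' hN'').mpr hB
  rcases oct_two hS O'' hN'' had with h1 | h1
  · exact hab h1
  · exact hac h1

/-- if the octahedron is split with `ab` opposite to `cd` then the other four bases occur -/
lemma Split.other (hS : IsMatroidSubdivision M S) (O : Oct M I a b c d)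
    (h : Split S I a b c d) {N : Matroid α} (hN : IsMin S (xo I a b c d) N) :
    N.IsBase (I ∪ {a, c}) := by
  by_contra hac
  apply h.excl hS O
  exact ⟨N, by rw [xo_swap23]; exact hN, hac⟩

end octa

end Pool.Agent.MP_da28a5_co
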