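import Mathlib
import Pool.Agent.Lib.MP_da28a5_co.Octa

/-!
# Replacing an element by a parallel one
-/

namespace Pool.Agent.MP_da28a5_co

open Matrix

variable {α : Type} [Fintype α] {M : Matroid α} {S : Set (Set (α → ℝ))}
variable {I : Set α} {a a' b c d : α}

omit [Fintype α] in
lemma base_up {B : Set α} {p q : α} (hB : M.IsBase B) (hIB : I ⊆ B) (hpq : M.IsBase (I ∪ {p, q}))
    (hp : p ∈ B) (hq : q ∈ B) : B = I ∪ {p, q} := by
  refine (hpq.eq_of_subset_isBase hB ?_).symm
  rintro x (hx | rfl | rfl)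
  · exact hIB hx
  · exact hp
  · exact hq

/-- the point in the middle of two octahedron centres -/
noncomputable def zpt (I : Set α) (a a' b c d : α) : α → ℝ :=
  (1 / 2 : ℝ) • (xo I a b c d + xo I a' b c d)

omit [Fintype α] in
lemma zpt_swap (I : Set α) (a a' b c d : α) : zpt I a a' b c d = zpt I a' a b c d := by
  simp only [zpt, add_comm]

/-- the setting: `a ∥ a'` in `M / I` -/
structure Par (M : Matroid α) (I : Set α) (a a' b c d : α) : Prop where
  O : Oct M I a b c d
  O' : Oct M I a' b c d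
  ne : a ≠ a'
  par : ¬ M.IsBase (I ∪ {a, a'})

omit [Fintype α] in
lemma Par.swap (P : Par M I a a' b c d) : Par M I a' a b c d :=
  ⟨P.O', P.O, P.ne.symm, by rw [Set.pair_comm]; exact P.par⟩

omit [Fintype α] in
lemma Par.swap23 (P : Par M I a a' b c d) : Par M I a a' c b d :=
  ⟨P.O.swap23, P.O'.swap23, P.ne, P.par⟩

omit [Fintype α] in
lemma Par.swap34 (P : Par M I a a' b c d) : Par M I a a' b d c :=
  ⟨P.O.swap34, P.O'.swap34, P.ne, P.par⟩

omit [Fintype α] in
lemma zpt_swap23 (I : Set α) (a a' b c d : α) : zpt I a a' c b d = zpt I a a' b c d := by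
  simp only [zpt, xo_swap23]

omit [Fintype α] in
lemma zpt_swap34 (I : Set α) (a a' b c d : α) : zpt I a a' b d c = zpt I a a' b c d := by
  simp only [zpt, xo_swap34]

section coords

omit [Fintype α]

lemma zpt_I (P : Par M I a a' b c d) {i : α} (hi : i ∈ I) : zpt I a a' b c d i = 1 := by
  simp only [zpt, Pi.smul_apply, Pi.add_apply, smul_eq_mul]
  rw [xo_mem hi, xo_mem hi]
  · norm_num
  · rintro (rfl | rfl | rfl | rfl)
    · exact P.O'.aI hi
    · exact P.O.bI hi
    · exact P.O.cI hi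
    · exact P.O.dI hi
  · rintro (rfl | rfl | rfl | rfl)
    · exact P.O.aI hi
    · exact P.O.bI hi
    · exact P.O.cI hi
    · exact P.O.dI hi

lemma zpt_a (P : Par M I a a' b c d) : zpt I a a' b c d a = 1 / 4 := by
  simp only [zpt, Pi.smul_apply, Pi.add_apply, smul_eq_mul]
  rw [xo_half P.O.aI (by simp), xo_zero P.O.aI]
  · norm_num
  · rintro (h | h | h | h)
    · exact P.ne h
    · exact P.O.nab h
    · exact P.O.nac h
    · exact P.O.nad h

lemma zpt_a' (P : Par M I a a' b c d) : zpt I a a' b c d a' = 1 / 4 := by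
  rw [zpt_swap]; exact zpt_a P.swap

lemma zpt_b (P : Par M I a a' b c d) : zpt I a a' b c d b = 1 / 2 := by
  simp only [zpt, Pi.smul_apply, Pi.add_apply, smul_eq_mul]
  rw [xo_half P.O.bI (by simp), xo_half P.O.bI (by simp)]
  norm_num

lemma zpt_c (P : Par M I a a' b c d) : zpt I a a' b c d c = 1 / 2 := by
  rw [← zpt_swap23]; exact zpt_b P.swap23

lemma zpt_d (P : Par M I a a' b c d) : zpt I a a' b c d d = 1 / 2 := by
  rw [← zpt_swap34, ← zpt_swap23]; exact zpt_b P.swap34.swap23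

lemma zpt_out {i : α} (hi : i ∉ I) (h : i ∉ ({a, a', b, c, d} : Set α)) :
    zpt I a a' b c d i = 0 := by
  simp only [zpt, Pi.smul_apply, Pi.add_apply, smul_eq_mul]
  rw [xo_zero hi, xo_zero hi]
  · norm_num
  · rintro (h' | h' | h' | h') <;> exact h (by simp [h'])
  · rintro (h' | h' | h' | h') <;> exact h (by simp [h'])

lemma zpt_mem_M (P : Par M I a a' b c d) : zpt I a a' b c d ∈ basePolytope M := by
  rw [zpt, smul_add]
  exact (convex_convexHull ℝ _) (xo_mem_M P.O) (xo_mem_M P.O') (by norm_num) (by norm_num)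
    (by norm_num)

end coords

variable {N1 : Matroid α}

lemma par_sub (P : Par M I a a' b c d) (h : IsMin S (zpt I a a' b c d) N1) {B : Set α}
    (hB : N1.IsBase B) : I ⊆ B ∧ B ⊆ I ∪ {a, a', b, c, d} := by
  constructor
  · intro i hi
    exact h.mem_of_one (zpt_I P hi) hB
  · intro i hi
    by_contra hcon
    refine h.notMem_of_zero ?_ hB hi
    apply zpt_out
    · intro h'; exact hcon (Or.inl h')
    · intro h'; exact hcon (Or.inr h')

/-- no base contains both `a` and `a'` -/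
lemma par_not_both (hS : IsMatroidSubdivision M S) (P : Par M I a a' b c d)
    (h : IsMin S (zpt I a a' b c d) N1) {B : Set α} (hB : N1.IsBase B) : ¬ (a ∈ B ∧ a' ∈ B) := by
  rintro ⟨ha, ha'⟩
  have hMB := h.isBase hS hB
  obtain ⟨h1, h2⟩ := par_sub P h hB
  have key : ∀ s, M.IsBase (I ∪ {a, s}) → a' ≠ s → s ∉ B := by
    intro s hs hne hsB
    have := base_up hMB h1 hs ha hsB
    rw [this] at ha'
    rcases ha' with h' | h' | h'
    · exact P.O'.aI h'
    · exact P.ne h'.symm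
    · exact hne h'
  have hb := key b P.O.ab P.O'.nab
  have hc := key c P.O.ac P.O'.nac
  have hd := key d P.O.ad P.O'.nad
  apply P.par
  have : I ∪ {a, a'} = B := by
    apply Set.Subset.antisymm
    · rintro x (hx | rfl | rfl)
      · exact h1 hx
      · exact ha
      · exact ha'
    · intro x hx
      rcases h2 hx with h' | rfl | rfl | rfl | rfl | rfl
      · exact Or.inl h'
      · exact Or.inr (Or.inl rfl)
      · exact Or.inr (Or.inr rfl)
      · exact absurd hx hb
      · exact absurd hx hc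
      · exact absurd hx hd
  rw [this]; exact hMB

lemma par_six (hS : IsMatroidSubdivision M S) (P : Par M I a a' b c d)
    (h : IsMin S (zpt I a a' b c d) N1) {B : Set α} (hB : N1.IsBase B) (ha' : a' ∉ B) :
    B = I ∪ {a, b} ∨ B = I ∪ {c, d} ∨ B = I ∪ {a, c} ∨ B = I ∪ {b, d} ∨ B = I ∪ {a, d} ∨
      B = I ∪ {b, c} := by
  obtain ⟨h1, h2⟩ := par_sub P h hB
  apply six P.O (h.isBase hS hB) h1
  intro x hx
  rcases h2 hx with h' | rfl | rfl | rfl | rfl | rfl
  · exact Or.inl h'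
  · exact Or.inr (Or.inl rfl)
  · exact absurd hx ha'
  · exact Or.inr (Or.inr (Or.inl rfl))
  · exact Or.inr (Or.inr (Or.inr (Or.inl rfl)))
  · exact Or.inr (Or.inr (Or.inr (Or.inr rfl)))

lemma par_exists_w (hS : IsMatroidSubdivision M S) (P : Par M I a a' b c d)
    (h : IsMin S (zpt I a a' b c d) N1) :
    ∃ w, N1.IsBase (I ∪ {a, w}) ∧ w ∉ I ∧ w ≠ a := by
  obtain ⟨B, hB, haB⟩ := exists_base_pos h.mem (i := a) (by rw [zpt_a P]; norm_num)
  have ha' : a' ∉ B := fun h' => par_not_both hS P h hB ⟨haB, h'⟩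
  rcases par_six hS P h hB ha' with rfl | rfl | rfl | rfl | rfl | rfl
  · exact ⟨b, hB, P.O.bI, P.O.nab.symm⟩
  · rcases haB with h' | h' | h'
    · exact absurd h' P.O.aI
    · exact absurd h' P.O.nac
    · exact absurd h' P.O.nad
  · exact ⟨c, hB, P.O.cI, P.O.nac.symm⟩
  · rcases haB with h' | h' | h'
    · exact absurd h' P.O.aI
    · exact absurd h' P.O.nab
    · exact absurd h' P.O.nad
  · exact ⟨d, hB, P.O.dI, P.O.nad.symm⟩
  · rcases haB with h' | h' | h'
    · exact absurd h' P.O.aI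
    · exact absurd h' P.O.nab
    · exact absurd h' P.O.nac

lemma par_transfer (hS : IsMatroidSubdivision M S) (P : Par M I a a' b c d)
    (h : IsMin S (zpt I a a' b c d) N1) {s : α} (hs : N1.IsBase (I ∪ {a', s})) :
    N1.IsBase (I ∪ {a, s}) := by
  obtain ⟨w, hw, hwI, hwa⟩ := par_exists_w hS P h
  refine L2 hs hw ?_ hwI hwa
  intro h'
  rw [Set.pair_comm] at h'
  exact P.par (h.isBase hS h')

lemma par_transfer_iff (hS : IsMatroidSubdivision M S) (P : Par M I a a' b c d)
    (h : IsMin S (zpt I a a' b c d) N1) {s : α} :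
    N1.IsBase (I ∪ {a, s}) ↔ N1.IsBase (I ∪ {a', s}) :=
  ⟨fun hs => par_transfer hS P.swap (by rw [zpt_swap]; exact h) hs,
    fun hs => par_transfer hS P h hs⟩

omit [Fintype α] in
lemma vec_pair_zero {p q i : α} (h1 : i ∉ I) (h2 : i ≠ p) (h3 : i ≠ q) :
    vec (I ∪ {p, q}) i = 0 := by
  apply vec_of_notMem
  rintro (h | h | h)
  · exact h1 h
  · exact h2 h
  · exact h3 h

lemma par_comp1 (hS : IsMatroidSubdivision M S) (P : Par M I a a' b c d)
    (h : IsMin S (zpt I a a' b c d) N1) (hcd : N1.IsBase (I ∪ {c, d})) :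
    N1.IsBase (I ∪ {a, b}) := by
  classical
  by_contra hab
  have ha'b : ¬ N1.IsBase (I ∪ {a', b}) := fun h' => hab (par_transfer hS P h h')
  have hsum : ∀ x : α → ℝ, ∑ i ∈ ({a, a', b} : Finset α), x i = x a + (x a' + x b) := by
    intro x
    rw [Finset.sum_insert, Finset.sum_insert, Finset.sum_singleton]
    · simp [P.O'.nab]
    · simp [P.ne, P.O.nab]
  have hup : ∀ B, N1.IsBase B → ∀ p, M.IsBase (I ∪ {p, b}) → ¬ N1.IsBase (I ∪ {p, b}) → p ∈ B →
      b ∉ B := by
    intro B hB p hp hnp hpB hbB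
    apply hnp
    rw [← base_up (h.isBase hS hB) (par_sub P h hB).1 hp hpB hbB]
    exact hB
  have := h.ri_set {a, a', b} (by
    intro B hB
    rw [hsum, hsum, zpt_a P, zpt_a' P, zpt_b P]
    by_cases ha : a ∈ B
    · have h1 : a' ∉ B := fun h' => par_not_both hS P h hB ⟨ha, h'⟩
      have h2 : b ∉ B := hup B hB a P.O.ab hab ha
      rw [vec_of_notMem h1, vec_of_notMem h2]
      have := vec_le_one B a
      linarith
    · by_cases ha' : a' ∈ B
      · have h2 : b ∉ B := hup B hB a' P.O'.ab ha'b ha'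
        rw [vec_of_notMem ha, vec_of_notMem h2]
        have := vec_le_one B a'
        linarith
      · rw [vec_of_notMem ha, vec_of_notMem ha']
        have := vec_le_one B b
        linarith) _ hcd
  rw [hsum, hsum, zpt_a P, zpt_a' P, zpt_b P, vec_pair_zero P.O.aI P.O.nac P.O.nad,
    vec_pair_zero P.O'.aI P.O'.nac P.O'.nad, vec_pair_zero P.O.bI P.O.nbc P.O.nbd] at this
  norm_num at this

lemma par_comp2 (hS : IsMatroidSubdivision M S) (P : Par M I a a' b c d)
    (h : IsMin S (zpt I a a' b c d) N1) (hab : N1.IsBase (I ∪ {a, b})) :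
    N1.IsBase (I ∪ {c, d}) := by
  classical
  by_contra hcd
  have := h.ri_set {c, d} (by
    intro B hB
    rw [Finset.sum_pair P.O.ncd, Finset.sum_pair P.O.ncd, zpt_c P, zpt_d P]
    by_cases hc : c ∈ B
    · have hd : d ∉ B := by
        intro hd
        apply hcd
        rw [← base_up (h.isBase hS hB) (par_sub P h hB).1 P.O.cd hc hd]
        exact hB
      rw [vec_of_notMem hd]
      have := vec_le_one B c
      linarith
    · rw [vec_of_notMem hc]
      have := vec_le_one B d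
      linarith) _ hab
  rw [Finset.sum_pair P.O.ncd, Finset.sum_pair P.O.ncd, zpt_c P, zpt_d P,
    vec_pair_zero P.O.cI P.O.nac.symm P.O.nbc.symm,
    vec_pair_zero P.O.dI P.O.nad.symm P.O.nbd.symm] at this
  norm_num at this

lemma par_comp (hS : IsMatroidSubdivision M S) (P : Par M I a a' b c d)
    (h : IsMin S (zpt I a a' b c d) N1) :
    N1.IsBase (I ∪ {a, b}) ↔ N1.IsBase (I ∪ {c, d}) :=
  ⟨par_comp2 hS P h, par_comp1 hS P h⟩

/-- The restriction of the minimal cell of `zpt` to the octahedron. -/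
lemma par_restrict (hS : IsMatroidSubdivision M S) (P : Par M I a a' b c d)
    (h : IsMin S (zpt I a a' b c d) N1) {N : Matroid α} (hN : IsMin S (xo I a b c d) N) :
    N.IsBase (I ∪ {a, b}) ↔ N1.IsBase (I ∪ {a, b}) := by
  classical
  have hdot : ∀ y : α → ℝ, (-(Pi.single a' (1 : ℝ))) ⬝ᵥ y = - y a' := by
    intro y
    rw [neg_dotProduct, single_one_dotProduct]
  have hcomp_ac : N1.IsBase (I ∪ {a, c}) ↔ N1.IsBase (I ∪ {b, d}) :=
    par_comp hS P.swap23 (by rw [zpt_swap23]; exact h)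
  have hcomp_ad : N1.IsBase (I ∪ {a, d}) ↔ N1.IsBase (I ∪ {b, c}) :=
    par_comp hS P.swap34.swap23 (by rw [zpt_swap23, zpt_swap34]; exact h)
  have hcomp_ab := par_comp hS P h
  obtain ⟨w, hw, hwI, hwa⟩ := par_exists_w hS P h
  have hwa' : w ≠ a' := by
    rintro rfl
    exact P.par (h.isBase hS hw)
  obtain ⟨N2, hN2S, hN2, -⟩ := exists_face hS h.cell (w := -(Pi.single a' (1 : ℝ))) (c := 0) (by
    intro B _
    rw [hdot]
    have := vec_nonneg B a'
    linarith) ⟨I ∪ {a, w}, hw, by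
    rw [hdot, vec_pair_zero P.O'.aI P.ne.symm (Ne.symm hwa')]
    norm_num⟩
  have hN2' : ∀ B, N2.IsBase B ↔ N1.IsBase B ∧ a' ∉ B := by
    intro B
    rw [hN2, hdot]
    constructor
    · rintro ⟨h1, h2⟩
      exact ⟨h1, notMem_of_vec_eq_zero (neg_eq_zero.mp h2)⟩
    · rintro ⟨h1, h2⟩
      exact ⟨h1, by rw [vec_of_notMem h2]; norm_num⟩
  have hnot : ∀ p q : α, p ≠ a' → q ≠ a' → a' ∉ I ∪ {p, q} := by
    rintro p q hp hq (h' | h' | h')
    · exact P.O'.aI h'
    · exact hp h'.symm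
    · exact hq h'.symm
  have na := P.ne
  have nb : b ≠ a' := P.O'.nab.symm
  have nc : c ≠ a' := P.O'.nac.symm
  have nd : d ≠ a' := P.O'.nad.symm
  have hmin2 : IsMin S (xo I a b c d) N2 := by
    apply isMin_of_balanced hN2S
    intro B hB
    obtain ⟨hB1, hB2⟩ := (hN2' B).mp hB
    rcases par_six hS P h hB1 hB2 with rfl | rfl | rfl | rfl | rfl | rfl
    · exact ⟨I ∪ {c, d}, (hN2' _).mpr ⟨hcomp_ab.mp hB1, hnot c d nc nd⟩, vec_add_pair P.O⟩
    · exact ⟨I ∪ {a, b}, (hN2' _).mpr ⟨hcomp_ab.mpr hB1, hnot a b na nb⟩, by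
        rw [add_comm]; exact vec_add_pair P.O⟩
    · exact ⟨I ∪ {b, d}, (hN2' _).mpr ⟨hcomp_ac.mp hB1, hnot b d nb nd⟩, by
        rw [vec_add_pair P.O.swap23, xo_swap23]⟩
    · exact ⟨I ∪ {a, c}, (hN2' _).mpr ⟨hcomp_ac.mpr hB1, hnot a c na nc⟩, by
        rw [add_comm, vec_add_pair P.O.swap23, xo_swap23]⟩
    · exact ⟨I ∪ {b, c}, (hN2' _).mpr ⟨hcomp_ad.mp hB1, hnot b c nb nc⟩, by
        rw [vec_add_pair P.O.swap34.swap23, xo_swap23, xo_swap34]⟩
    · exact ⟨I ∪ {a, d}, (hN2' _).mpr ⟨hcomp_ad.mpr hB1, hnot a d na nd⟩, by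
        rw [add_comm, vec_add_pair P.O.swap34.swap23, xo_swap23, xo_swap34]⟩
  rw [hN.iff hS hmin2, hN2']
  constructor
  · exact fun h' => h'.1
  · exact fun h' => ⟨h', hnot a b na nb⟩

/-- **Parallel replacement.** -/
theorem Split.par (hS : IsMatroidSubdivision M S) (P : Par M I a a' b c d)
    (h : Split S I a b c d) : Split S I a' b c d := by
  obtain ⟨N, hN, hab⟩ := h
  obtain ⟨N1, hN1⟩ := exists_isMin hS (zpt_mem_M P)
  obtain ⟨N', hN'⟩ := exists_isMin hS (xo_mem_M P.O')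
  refine ⟨N', hN', ?_⟩
  rw [par_restrict hS P.swap (by rw [zpt_swap]; exact hN1) hN', ← par_transfer_iff hS P hN1,
    ← par_restrict hS P hN1 hN]
  exact hab

end Pool.Agent.MP_da28a5_co
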