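import Mathlib
import Pool.Agent.Lib.MP_da28a5_co.Par

/-!
# Moving the apex
-/

namespace Pool.Agent.MP_da28a5_co

open Matrix

variable {α : Type} {M : Matroid α}
variable {J : Set α} {x y a b c d : α}

/-- the setting: `a, b, c, d` are on a line of `M / J`, the points `x, y` are not on it -/
structure Mov (M : Matroid α) (J : Set α) (x y a b c d : α) : Prop where
  O : Oct M (insert x J) a b c d
  O' : Oct M (insert y J) a b c d
  ne : x ≠ y
  xJ : x ∉ J
  yJ : y ∉ J
  col : ∀ B, M.IsBase B → J ⊆ B → ∀ p q s, p ∈ ({a, b, c, d} : Set α) →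
    q ∈ ({a, b, c, d} : Set α) → s ∈ ({a, b, c, d} : Set α) → p ≠ q → p ≠ s → q ≠ s →
    p ∈ B → q ∈ B → s ∈ B → False

lemma Mov.swap (P : Mov M J x y a b c d) : Mov M J y x a b c d :=
  ⟨P.O', P.O, P.ne.symm, P.yJ, P.xJ, P.col⟩

lemma Mov.swap23 (P : Mov M J x y a b c d) : Mov M J x y a c b d := by
  refine ⟨P.O.swap23, P.O'.swap23, P.ne, P.xJ, P.yJ, ?_⟩
  have : ({a, c, b, d} : Set α) = {a, b, c, d} := by ext; simp; tauto
  rw [this]; exact P.col

lemma Mov.swap34 (P : Mov M J x y a b c d) : Mov M J x y a b d c := by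
  refine ⟨P.O.swap34, P.O'.swap34, P.ne, P.xJ, P.yJ, ?_⟩
  have : ({a, b, d, c} : Set α) = {a, b, c, d} := by ext; simp; tauto
  rw [this]; exact P.col

lemma Mov.swap12 (P : Mov M J x y a b c d) : Mov M J x y b a c d := by
  refine ⟨P.O.swap12, P.O'.swap12, P.ne, P.xJ, P.yJ, ?_⟩
  have : ({b, a, c, d} : Set α) = {a, b, c, d} := by ext; simp; tauto
  rw [this]; exact P.col

/-- the point in the middle of the two centres -/
noncomputable def ypt (J : Set α) (x y a b c d : α) : α → ℝ :=
  (1 / 2 : ℝ) • (xo (insert x J) a b c d + xo (insert y J) a b c d)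

lemma ypt_swap : ypt J x y a b c d = ypt J y x a b c d := by
  simp only [ypt, add_comm]

lemma ypt_swap23 : ypt J x y a c b d = ypt J x y a b c d := by simp only [ypt, xo_swap23]
lemma ypt_swap34 : ypt J x y a b d c = ypt J x y a b c d := by simp only [ypt, xo_swap34]
lemma ypt_swap12 : ypt J x y b a c d = ypt J x y a b c d := by simp only [ypt, xo_swap12]

lemma ypt_J (P : Mov M J x y a b c d) {i : α} (hi : i ∈ J) : ypt J x y a b c d i = 1 := by
  simp only [ypt, Pi.smul_apply, Pi.add_apply, smul_eq_mul]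
  rw [xo_mem (Set.mem_insert_of_mem x hi), xo_mem (Set.mem_insert_of_mem y hi)]
  · norm_num
  · rintro (rfl | rfl | rfl | rfl)
    · exact P.O.aI (Or.inr hi)
    · exact P.O.bI (Or.inr hi)
    · exact P.O.cI (Or.inr hi)
    · exact P.O.dI (Or.inr hi)
  · rintro (rfl | rfl | rfl | rfl)
    · exact P.O.aI (Or.inr hi)
    · exact P.O.bI (Or.inr hi)
    · exact P.O.cI (Or.inr hi)
    · exact P.O.dI (Or.inr hi)

lemma ypt_a (P : Mov M J x y a b c d) : ypt J x y a b c d a = 1 / 2 := by
  simp only [ypt, Pi.smul_apply, Pi.add_apply, smul_eq_mul]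
  rw [xo_half P.O.aI (by simp), xo_half P.O'.aI (by simp)]
  norm_num

lemma ypt_b (P : Mov M J x y a b c d) : ypt J x y a b c d b = 1 / 2 := by
  rw [← ypt_swap12]; exact ypt_a P.swap12

lemma ypt_c (P : Mov M J x y a b c d) : ypt J x y a b c d c = 1 / 2 := by
  rw [← ypt_swap23]; exact ypt_b P.swap23

lemma ypt_d (P : Mov M J x y a b c d) : ypt J x y a b c d d = 1 / 2 := by
  rw [← ypt_swap34]; exact ypt_c P.swap34

lemma mov_x_notin (P : Mov M J x y a b c d) : x ∉ ({a, b, c, d} : Set α) := by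
  rintro (h | h | h | h)
  · exact P.O.aI (Or.inl h.symm)
  · exact P.O.bI (Or.inl h.symm)
  · exact P.O.cI (Or.inl h.symm)
  · exact P.O.dI (Or.inl h.symm)

lemma ypt_x (P : Mov M J x y a b c d) : ypt J x y a b c d x = 1 / 2 := by
  simp only [ypt, Pi.smul_apply, Pi.add_apply, smul_eq_mul]
  rw [xo_mem (Set.mem_insert x J) (mov_x_notin P), xo_zero _ (mov_x_notin P)]
  · norm_num
  · rintro (h | h)
    · exact P.ne h
    · exact P.xJ h

lemma ypt_y (P : Mov M J x y a b c d) : ypt J x y a b c d y = 1 / 2 := by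
  rw [ypt_swap]; exact ypt_x P.swap

lemma ypt_out {i : α} (h1 : i ∉ J) (h2 : i ≠ x) (h3 : i ≠ y) (h4 : i ∉ ({a, b, c, d} : Set α)) :
    ypt J x y a b c d i = 0 := by
  simp only [ypt, Pi.smul_apply, Pi.add_apply, smul_eq_mul]
  rw [xo_zero _ h4, xo_zero _ h4]
  · norm_num
  · rintro (h | h)
    · exact h3 h
    · exact h1 h
  · rintro (h | h)
    · exact h2 h
    · exact h1 h

lemma ypt_mem_M (P : Mov M J x y a b c d) : ypt J x y a b c d ∈ basePolytope M := by
  rw [ypt, smul_add]
  exact (convex_convexHull ℝ _) (xo_mem_M P.O) (xo_mem_M P.O') (by norm_num) (by norm_num)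
    (by norm_num)

/-- all pairs of `a,b,c,d` give bases -/
lemma Oct.pair {I : Set α} (O : Oct M I a b c d) {p q : α} (hp : p ∈ ({a, b, c, d} : Set α))
    (hq : q ∈ ({a, b, c, d} : Set α)) (h : p ≠ q) : M.IsBase (I ∪ {p, q}) := by
  have hc : ∀ s t : α, ({s, t} : Set α) = {t, s} := Set.pair_comm
  rcases hp with rfl | rfl | rfl | rfl <;> rcases hq with rfl | rfl | rfl | rfl
  · exact absurd rfl h
  · exact O.ab
  · exact O.ac
  · exact O.ad
  · rw [hc]; exact O.ab
  · exact absurd rfl h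
  · exact O.bc
  · exact O.bd
  · rw [hc]; exact O.ac
  · rw [hc]; exact O.bc
  · exact absurd rfl h
  · exact O.cd
  · rw [hc]; exact O.ad
  · rw [hc]; exact O.bd
  · rw [hc]; exact O.cd
  · exact absurd rfl h

variable [Fintype α] {S : Set (Set (α → ℝ))} {N1 : Matroid α}

lemma mov_sub (P : Mov M J x y a b c d) (h : IsMin S (ypt J x y a b c d) N1) {B : Set α}
    (hB : N1.IsBase B) : J ⊆ B ∧ ∀ i ∈ B, i ∈ J ∨ i = x ∨ i = y ∨ i ∈ ({a, b, c, d} : Set α) := by
  constructor
  · intro i hi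
    exact h.mem_of_one (ypt_J P hi) hB
  · intro i hi
    by_contra hcon
    push Not at hcon
    refine h.notMem_of_zero ?_ hB hi
    exact ypt_out hcon.1 hcon.2.1 hcon.2.2.1 hcon.2.2.2

/-- exactly two of `a, b, c, d` are in each base -/
lemma mov_two (hS : IsMatroidSubdivision M S) (P : Mov M J x y a b c d)
    (h : IsMin S (ypt J x y a b c d) N1) {B : Set α} (hB : N1.IsBase B) :
    ∃ p q, p ∈ ({a, b, c, d} : Set α) ∧ q ∈ ({a, b, c, d} : Set α) ∧ p ≠ q ∧ p ∈ B ∧ q ∈ B := by
  classical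
  have hsum : ∀ v : α → ℝ, ∑ i ∈ ({a, b, c, d} : Finset α), v i = v a + (v b + (v c + v d)) := by
    intro v
    rw [Finset.sum_insert, Finset.sum_insert, Finset.sum_insert, Finset.sum_singleton]
    · simp [P.O.ncd]
    · simp [P.O.nbc, P.O.nbd]
    · simp [P.O.nab, P.O.nac, P.O.nad]
  have ma : a ∈ ({a, b, c, d} : Set α) := by simp
  have mb : b ∈ ({a, b, c, d} : Set α) := by simp
  have mc : c ∈ ({a, b, c, d} : Set α) := by simp
  have md : d ∈ ({a, b, c, d} : Set α) := by simp
  have hle : ∀ B, N1.IsBase B → vec B a + (vec B b + (vec B c + vec B d)) ≤ 2 := by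
    intro B hB
    have hcol := P.col B (h.isBase hS hB) (mov_sub P h hB).1
    have la := vec_le_one B a
    have lb := vec_le_one B b
    have lc := vec_le_one B c
    have ld := vec_le_one B d
    by_cases ha : a ∈ B
    · by_cases hb : b ∈ B
      · have hc : c ∉ B := fun hc => hcol a b c ma mb mc P.O.nab P.O.nac P.O.nbc ha hb hc
        have hd : d ∉ B := fun hd => hcol a b d ma mb md P.O.nab P.O.nad P.O.nbd ha hb hd
        rw [vec_of_notMem hc, vec_of_notMem hd]; linarith
      · by_cases hc : c ∈ B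
        · have hd : d ∉ B := fun hd => hcol a c d ma mc md P.O.nac P.O.nad P.O.ncd ha hc hd
          rw [vec_of_notMem hb, vec_of_notMem hd]; linarith
        · rw [vec_of_notMem hb, vec_of_notMem hc]; linarith
    · by_cases hb : b ∈ B
      · by_cases hc : c ∈ B
        · have hd : d ∉ B := fun hd => hcol b c d mb mc md P.O.nbc P.O.nbd P.O.ncd hb hc hd
          rw [vec_of_notMem ha, vec_of_notMem hd]; linarith
        · rw [vec_of_notMem ha, vec_of_notMem hc]; linarith
      · rw [vec_of_notMem ha, vec_of_notMem hb]; linarith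
  have := h.ri_set {a, b, c, d} (by
    intro B hB
    rw [hsum, hsum, ypt_a P, ypt_b P, ypt_c P, ypt_d P]
    have := hle B hB
    linarith) B hB
  rw [hsum, hsum, ypt_a P, ypt_b P, ypt_c P, ypt_d P] at this
  have la := vec_le_one B a
  have lb := vec_le_one B b
  have lc := vec_le_one B c
  have ld := vec_le_one B d
  by_cases ha : a ∈ B
  · by_cases hb : b ∈ B
    · exact ⟨a, b, ma, mb, P.O.nab, ha, hb⟩
    by_cases hc : c ∈ B
    · exact ⟨a, c, ma, mc, P.O.nac, ha, hc⟩
    by_cases hd : d ∈ B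
    · exact ⟨a, d, ma, md, P.O.nad, ha, hd⟩
    rw [vec_of_notMem hb, vec_of_notMem hc, vec_of_notMem hd] at this
    linarith
  · by_cases hb : b ∈ B
    · by_cases hc : c ∈ B
      · exact ⟨b, c, mb, mc, P.O.nbc, hb, hc⟩
      by_cases hd : d ∈ B
      · exact ⟨b, d, mb, md, P.O.nbd, hb, hd⟩
      rw [vec_of_notMem ha, vec_of_notMem hc, vec_of_notMem hd] at this
      linarith
    · by_cases hc : c ∈ B
      · by_cases hd : d ∈ B
        · exact ⟨c, d, mc, md, P.O.ncd, hc, hd⟩
        rw [vec_of_notMem ha, vec_of_notMem hb, vec_of_notMem hd] at this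
        linarith
      · rw [vec_of_notMem ha, vec_of_notMem hb, vec_of_notMem hc] at this
        linarith

/-- not both `x` and `y` -/
lemma mov_not_both (hS : IsMatroidSubdivision M S) (P : Mov M J x y a b c d)
    (h : IsMin S (ypt J x y a b c d) N1) {B : Set α} (hB : N1.IsBase B) : ¬ (x ∈ B ∧ y ∈ B) := by
  rintro ⟨hx, hy⟩
  obtain ⟨p, q, hp, hq, hpq, hpB, hqB⟩ := mov_two hS P h hB
  have h1 := P.O.pair hp hq hpq
  have h2 : insert x J ∪ {p, q} = B := by
    apply h1.eq_of_subset_isBase (h.isBase hS hB)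
    rintro i ((rfl | hi) | rfl | rfl)
    · exact hx
    · exact (mov_sub P h hB).1 hi
    · exact hpB
    · exact hqB
  rw [← h2] at hy
  have hy' := mov_x_notin P.swap
  rcases hy with (h' | h') | h' | h'
  · exact P.ne h'.symm
  · exact P.yJ h'
  · exact hy' (h' ▸ hp)
  · exact hy' (h' ▸ hq)

lemma mov_one_of (hS : IsMatroidSubdivision M S) (P : Mov M J x y a b c d)
    (h : IsMin S (ypt J x y a b c d) N1) {B : Set α} (hB : N1.IsBase B) (hy : y ∉ B) : x ∈ B := by
  by_contra hx
  obtain ⟨p, q, hp, hq, hpq, hpB, hqB⟩ := mov_two hS P h hB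
  have hMB := h.isBase hS hB
  have hJB := (mov_sub P h hB).1
  have h1 := P.O.pair hp hq hpq
  have h2 : B = insert x J ∪ {p, q} := by
    apply hMB.eq_of_subset_isBase h1
    intro i hi
    rcases (mov_sub P h hB).2 i hi with h' | h' | h' | h'
    · exact Or.inl (Or.inr h')
    · exact absurd (h' ▸ hi) hx
    · exact absurd (h' ▸ hi) hy
    · by_cases hip : i = p
      · exact Or.inr (Or.inl hip)
      by_cases hiq : i = q
      · exact Or.inr (Or.inr hiq)
      exact (P.col B hMB hJB p q i hp hq h' hpq (Ne.symm hip) (Ne.symm hiq) hpB hqB hi).elim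
  apply hx
  rw [h2]
  exact Or.inl (Or.inl rfl)

lemma mov_six (hS : IsMatroidSubdivision M S) (P : Mov M J x y a b c d)
    (h : IsMin S (ypt J x y a b c d) N1) {B : Set α} (hB : N1.IsBase B) (hy : y ∉ B) :
    B = insert x J ∪ {a, b} ∨ B = insert x J ∪ {c, d} ∨ B = insert x J ∪ {a, c} ∨
      B = insert x J ∪ {b, d} ∨ B = insert x J ∪ {a, d} ∨ B = insert x J ∪ {b, c} := by
  have hx := mov_one_of hS P h hB hy
  apply six P.O (h.isBase hS hB)
  · rintro i (rfl | hi)
    · exact hx
    · exact (mov_sub P h hB).1 hi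
  · intro i hi
    rcases (mov_sub P h hB).2 i hi with h' | h' | h' | h'
    · exact Or.inl (Or.inr h')
    · exact Or.inl (Or.inl h')
    · exact absurd (h' ▸ hi) hy
    · exact Or.inr h'

lemma mov_transfer (hS : IsMatroidSubdivision M S) (P : Mov M J x y a b c d)
    (h : IsMin S (ypt J x y a b c d) N1) (hab : N1.IsBase (insert x J ∪ {a, b})) :
    N1.IsBase (insert y J ∪ {a, b}) := by
  obtain ⟨B2, hB2, hyB2⟩ := exists_base_pos h.mem (i := y) (by rw [ypt_y P]; norm_num)
  have hxB2 : x ∉ B2 := fun h' => mov_not_both hS P h hB2 ⟨h', hyB2⟩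
  obtain ⟨f, ⟨hf1, hf2⟩, hf3⟩ := hab.exchange hB2 ⟨Or.inl (Or.inl rfl), hxB2⟩
  have hxa : x ≠ a := fun h' => mov_x_notin P (by simp [h'])
  have hxb : x ≠ b := fun h' => mov_x_notin P (by simp [h'])
  rcases (mov_sub P h hB2).2 f hf1 with h' | h' | h' | h'
  · exact absurd (Or.inl (Or.inr h')) hf2
  · exact absurd (Or.inl (Or.inl h')) hf2
  · subst h'
    have heq : insert f ((insert x J ∪ {a, b}) \ {x}) = insert f J ∪ {a, b} := by
      ext i
      simp only [Set.mem_insert_iff, Set.mem_sdiff, Set.mem_union, Set.mem_singleton_iff]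
      constructor
      · rintro (h' | ⟨(h' | h') | h' | h', h''⟩)
        · exact Or.inl (Or.inl h')
        · exact absurd h' h''
        · exact Or.inl (Or.inr h')
        · exact Or.inr (Or.inl h')
        · exact Or.inr (Or.inr h')
      · rintro ((h' | h') | h' | h')
        · exact Or.inl h'
        · refine Or.inr ⟨Or.inl (Or.inr h'), ?_⟩
          rintro rfl; exact P.xJ h'
        · refine Or.inr ⟨Or.inr (Or.inl h'), ?_⟩
          rintro rfl; exact hxa h'
        · refine Or.inr ⟨Or.inr (Or.inr h'), ?_⟩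
          rintro rfl; exact hxb h'
    rwa [heq] at hf3
  · exfalso
    have hfa : a ≠ f := by rintro rfl; exact hf2 (Or.inr (Or.inl rfl))
    have hfb : b ≠ f := by rintro rfl; exact hf2 (Or.inr (Or.inr rfl))
    refine P.col _ (h.isBase hS hf3) ?_ a b f (by simp) (by simp) h' P.O.nab hfa hfb ?_ ?_ ?_
    · intro i hi
      refine Or.inr ⟨Or.inl (Or.inr hi), ?_⟩
      rintro rfl; exact P.xJ hi
    · exact Or.inr ⟨Or.inr (Or.inl rfl), fun h'' => hxa h''.symm⟩
    · exact Or.inr ⟨Or.inr (Or.inr rfl), fun h'' => hxb h''.symm⟩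
    · exact Or.inl rfl

lemma mov_transfer_iff (hS : IsMatroidSubdivision M S) (P : Mov M J x y a b c d)
    (h : IsMin S (ypt J x y a b c d) N1) :
    N1.IsBase (insert x J ∪ {a, b}) ↔ N1.IsBase (insert y J ∪ {a, b}) :=
  ⟨mov_transfer hS P h, mov_transfer hS P.swap (by rw [ypt_swap]; exact h)⟩

lemma mov_comp1 (hS : IsMatroidSubdivision M S) (P : Mov M J x y a b c d)
    (h : IsMin S (ypt J x y a b c d) N1) (hcd : N1.IsBase (insert x J ∪ {c, d})) :
    N1.IsBase (insert x J ∪ {a, b}) := by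
  classical
  by_contra hab
  have hab' : ¬ N1.IsBase (insert y J ∪ {a, b}) := by rwa [← mov_transfer_iff hS P h]
  have := h.ri_set {a, b} (by
    intro B hB
    rw [Finset.sum_pair P.O.nab, Finset.sum_pair P.O.nab, ypt_a P, ypt_b P]
    by_cases ha : a ∈ B
    · by_cases hb : b ∈ B
      · exfalso
        have hMB := h.isBase hS hB
        have hJB := (mov_sub P h hB).1
        by_cases hy : y ∈ B
        · apply hab'
          have : insert y J ∪ {a, b} = B := by
            apply P.O'.ab.eq_of_subset_isBase hMB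
            rintro i ((rfl | hi) | rfl | rfl)
            · exact hy
            · exact hJB hi
            · exact ha
            · exact hb
          rw [this]; exact hB
        · have hx := mov_one_of hS P h hB hy
          apply hab
          have : insert x J ∪ {a, b} = B := by
            apply P.O.ab.eq_of_subset_isBase hMB
            rintro i ((rfl | hi) | rfl | rfl)
            · exact hx
            · exact hJB hi
            · exact ha
            · exact hb
          rw [this]; exact hB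
      · rw [vec_of_notMem hb]
        have := vec_le_one B a
        linarith
    · rw [vec_of_notMem ha]
      have := vec_le_one B b
      linarith) _ hcd
  rw [Finset.sum_pair P.O.nab, Finset.sum_pair P.O.nab, ypt_a P, ypt_b P,
    vec_pair_zero P.O.aI P.O.nac P.O.nad, vec_pair_zero P.O.bI P.O.nbc P.O.nbd] at this
  norm_num at this

omit [Fintype α] in
lemma Mov.swapPairs (P : Mov M J x y a b c d) : Mov M J x y c d a b :=
  P.swap23.swap12.swap34.swap23

omit [Fintype α] in
lemma ypt_swapPairs : ypt J x y c d a b = ypt J x y a b c d := by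
  simp only [ypt, xo_swapPairs]

lemma mov_comp (hS : IsMatroidSubdivision M S) (P : Mov M J x y a b c d)
    (h : IsMin S (ypt J x y a b c d) N1) :
    N1.IsBase (insert x J ∪ {a, b}) ↔ N1.IsBase (insert x J ∪ {c, d}) :=
  ⟨mov_comp1 hS P.swapPairs (by rw [ypt_swapPairs]; exact h), mov_comp1 hS P h⟩

/-- The restriction of the minimal cell of `ypt` to the octahedron. -/
lemma mov_restrict (hS : IsMatroidSubdivision M S) (P : Mov M J x y a b c d)
    (h : IsMin S (ypt J x y a b c d) N1) {N : Matroid α}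
    (hN : IsMin S (xo (insert x J) a b c d) N) :
    N.IsBase (insert x J ∪ {a, b}) ↔ N1.IsBase (insert x J ∪ {a, b}) := by
  classical
  have hdot : ∀ v : α → ℝ, (-(Pi.single y (1 : ℝ))) ⬝ᵥ v = - v y := by
    intro v
    rw [neg_dotProduct, single_one_dotProduct]
  have hcomp_ac : N1.IsBase (insert x J ∪ {a, c}) ↔ N1.IsBase (insert x J ∪ {b, d}) :=
    mov_comp hS P.swap23 (by rw [ypt_swap23]; exact h)
  have hcomp_ad : N1.IsBase (insert x J ∪ {a, d}) ↔ N1.IsBase (insert x J ∪ {b, c}) :=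
    mov_comp hS P.swap34.swap23 (by rw [ypt_swap23, ypt_swap34]; exact h)
  have hcomp_ab := mov_comp hS P h
  obtain ⟨B0, hB0, hxB0⟩ := exists_base_pos h.mem (i := x) (by rw [ypt_x P]; norm_num)
  have hyB0 : y ∉ B0 := fun h' => mov_not_both hS P h hB0 ⟨hxB0, h'⟩
  obtain ⟨N2, hN2S, hN2, -⟩ := exists_face hS h.cell (w := -(Pi.single y (1 : ℝ))) (c := 0) (by
    intro B _
    rw [hdot]
    have := vec_nonneg B y
    linarith) ⟨B0, hB0, by
    rw [hdot, vec_of_notMem hyB0]
    norm_num⟩
  have hN2' : ∀ B, N2.IsBase B ↔ N1.IsBase B ∧ y ∉ B := by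
    intro B
    rw [hN2, hdot]
    constructor
    · rintro ⟨h1, h2⟩
      exact ⟨h1, notMem_of_vec_eq_zero (neg_eq_zero.mp h2)⟩
    · rintro ⟨h1, h2⟩
      exact ⟨h1, by rw [vec_of_notMem h2]; norm_num⟩
  have hyn := mov_x_notin P.swap
  have hnot : ∀ p q : α, p ≠ y → q ≠ y → y ∉ insert x J ∪ {p, q} := by
    rintro p q hp hq ((h' | h') | h' | h')
    · exact P.ne h'.symm
    · exact P.yJ h'
    · exact hp h'.symm
    · exact hq h'.symm
  have na : a ≠ y := fun h' => hyn (by simp [h'])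
  have nb : b ≠ y := fun h' => hyn (by simp [h'])
  have nc : c ≠ y := fun h' => hyn (by simp [h'])
  have nd : d ≠ y := fun h' => hyn (by simp [h'])
  have hmin2 : IsMin S (xo (insert x J) a b c d) N2 := by
    apply isMin_of_balanced hN2S
    intro B hB
    obtain ⟨hB1, hB2⟩ := (hN2' B).mp hB
    rcases mov_six hS P h hB1 hB2 with rfl | rfl | rfl | rfl | rfl | rfl
    · exact ⟨insert x J ∪ {c, d}, (hN2' _).mpr ⟨hcomp_ab.mp hB1, hnot c d nc nd⟩,
        vec_add_pair P.O⟩
    · exact ⟨insert x J ∪ {a, b}, (hN2' _).mpr ⟨hcomp_ab.mpr hB1, hnot a b na nb⟩, by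
        rw [add_comm]; exact vec_add_pair P.O⟩
    · exact ⟨insert x J ∪ {b, d}, (hN2' _).mpr ⟨hcomp_ac.mp hB1, hnot b d nb nd⟩, by
        rw [vec_add_pair P.O.swap23, xo_swap23]⟩
    · exact ⟨insert x J ∪ {a, c}, (hN2' _).mpr ⟨hcomp_ac.mpr hB1, hnot a c na nc⟩, by
        rw [add_comm, vec_add_pair P.O.swap23, xo_swap23]⟩
    · exact ⟨insert x J ∪ {b, c}, (hN2' _).mpr ⟨hcomp_ad.mp hB1, hnot b c nb nc⟩, by
        rw [vec_add_pair P.O.swap34.swap23, xo_swap23, xo_swap34]⟩
    · exact ⟨insert x J ∪ {a, d}, (hN2' _).mpr ⟨hcomp_ad.mpr hB1, hnot a d na nd⟩, by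
        rw [add_comm, vec_add_pair P.O.swap34.swap23, xo_swap23, xo_swap34]⟩
  rw [hN.iff hS hmin2, hN2']
  constructor
  · exact fun h' => h'.1
  · exact fun h' => ⟨h', hnot a b na nb⟩

/-- **Moving the apex.** -/
theorem Split.mov (hS : IsMatroidSubdivision M S) (P : Mov M J x y a b c d)
    (h : Split S (insert x J) a b c d) : Split S (insert y J) a b c d := by
  obtain ⟨N, hN, hab⟩ := h
  obtain ⟨N1, hN1⟩ := exists_isMin hS (ypt_mem_M P)
  obtain ⟨N', hN'⟩ := exists_isMin hS (xo_mem_M P.O')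
  refine ⟨N', hN', ?_⟩
  rw [mov_restrict hS P.swap (by rw [ypt_swap]; exact hN1) hN', ← mov_transfer_iff hS P hN1,
    ← mov_restrict hS P hN1 hN]
  exact hab

end Pool.Agent.MP_da28a5_co
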