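import Mathlib
import Pool.Agent.Lib.MP_da28a5_co.Mov

/-!
# Parallel classes of a cell
-/

namespace Pool.Agent.MP_da28a5_co

open Matrix Filter

variable {α : Type} {M : Matroid α}
variable {I L : Set α} {a b c d : α}

/-- `L` is a set of points of `M / I` on a line, pairwise not parallel. -/
structure LineSet (M : Matroid α) (I L : Set α) : Prop where
  base : ∀ p q, p ∈ L → q ∈ L → p ≠ q → M.IsBase (I ∪ {p, q})
  disj : ∀ p ∈ L, p ∉ I

lemma LineSet.oct (hL : LineSet M I L) (ha : a ∈ L) (hb : b ∈ L) (hc : c ∈ L) (hd : d ∈ L)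
    (nab : a ≠ b) (nac : a ≠ c) (nad : a ≠ d) (nbc : b ≠ c) (nbd : b ≠ d) (ncd : c ≠ d) :
    Oct M I a b c d where
  ab := hL.base _ _ ha hb nab
  ac := hL.base _ _ ha hc nac
  ad := hL.base _ _ ha hd nad
  bc := hL.base _ _ hb hc nbc
  bd := hL.base _ _ hb hd nbd
  cd := hL.base _ _ hc hd ncd
  nab := nab
  nac := nac
  nad := nad
  nbc := nbc
  nbd := nbd
  ncd := ncd
  aI := hL.disj _ ha
  bI := hL.disj _ hb
  cI := hL.disj _ hc
  dI := hL.disj _ hd

variable [Fintype α] {S : Set (Set (α → ℝ))}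

omit [Fintype α] in
/-- A point of the face with all coordinates on `L` positive. -/
lemma exists_u (hL : LineSet M I L) [Finite α] (ha : a ∈ L) (hb : b ∈ L) (nab : a ≠ b) :
    ∃ u ∈ basePolytope M, (∀ i ∈ I, u i = 1) ∧ (∀ i ∈ L, 0 < u i) ∧
      (∀ i, i ∉ I → i ∉ L → u i = 0) := by
  classical
  have hfin : (L \ {a}).Finite := Set.toFinite _
  set T := hfin.toFinset with hT
  have hbT : b ∈ T := by
    rw [hT, Set.Finite.mem_toFinset]
    exact ⟨hb, nab.symm⟩
  have hcard : (0 : ℝ) < T.card := by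
    exact_mod_cast Finset.card_pos.mpr ⟨b, hbT⟩
  have hTmem : ∀ q, q ∈ T ↔ q ∈ L ∧ q ≠ a := by
    intro q
    rw [hT, Set.Finite.mem_toFinset]
    rfl
  refine ⟨∑ q ∈ T, (1 / (T.card : ℝ)) • vec (I ∪ {a, q}), ?_, ?_, ?_, ?_⟩
  · apply (convex_convexHull ℝ _).sum_mem
    · intro q _
      positivity
    · rw [Finset.sum_const, nsmul_eq_mul]
      field_simp
    · intro q hq
      exact vec_mem (hL.base a q ha ((hTmem q).mp hq).1 (Ne.symm ((hTmem q).mp hq).2))
  · intro i hi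
    simp only [Finset.sum_apply, Pi.smul_apply, smul_eq_mul]
    have : ∀ q ∈ T, 1 / (T.card : ℝ) * vec (I ∪ {a, q}) i = 1 / (T.card : ℝ) := by
      intro q _
      rw [vec_of_mem (Set.mem_union_left _ hi), mul_one]
    rw [Finset.sum_congr rfl this, Finset.sum_const, nsmul_eq_mul]
    field_simp
  · intro i hi
    simp only [Finset.sum_apply, Pi.smul_apply, smul_eq_mul]
    have hnn : ∀ q ∈ T, 0 ≤ 1 / (T.card : ℝ) * vec (I ∪ {a, q}) i := by
      intro q _
      have := vec_nonneg (I ∪ {a, q}) i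
      positivity
    by_cases hia : i = a
    · apply Finset.sum_pos' hnn
      refine ⟨b, hbT, ?_⟩
      rw [vec_of_mem (Set.mem_union_right I (show i ∈ ({a, b} : Set α) from Or.inl hia))]
      positivity
    · apply Finset.sum_pos' hnn
      refine ⟨i, (hTmem i).mpr ⟨hi, hia⟩, ?_⟩
      rw [vec_of_mem (Set.mem_union_right I (show i ∈ ({a, i} : Set α) from Or.inr rfl))]
      positivity
  · intro i hi hiL
    simp only [Finset.sum_apply, Pi.smul_apply, smul_eq_mul]
    apply Finset.sum_eq_zero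
    intro q hq
    rw [vec_of_notMem, mul_zero]
    rintro (h | h | h)
    · exact hi h
    · exact hiL (h ▸ ha)
    · exact hiL (h ▸ ((hTmem q).mp hq).1)

lemma isClosed_basePolytope (N : Matroid α) : IsClosed (basePolytope N) := by
  have hfin : {x : α → ℝ | ∃ B, N.IsBase B ∧ x = vec B}.Finite := by
    have : {x : α → ℝ | ∃ B, N.IsBase B ∧ x = vec B} = vec '' {B | N.IsBase B} := by
      ext x; constructor
      · rintro ⟨B, hB, rfl⟩; exact ⟨B, hB, rfl⟩
      · rintro ⟨B, hB, rfl⟩; exact ⟨B, hB, rfl⟩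
    rw [this]
    exact (Set.toFinite _).image _
  exact (hfin.isCompact_convexHull ℝ).isClosed

/-- A cell of the face which contains the centre and in which all elements of `L` are used. -/
lemma exists_big_cell (hS : IsMatroidSubdivision M S) (hL : LineSet M I L) (ha : a ∈ L)
    (hb : b ∈ L) (hc : c ∈ L) (hd : d ∈ L) (O : Oct M I a b c d) :
    ∃ N : Matroid α, basePolytope N ∈ S ∧ xo I a b c d ∈ basePolytope N ∧
      (∀ B, N.IsBase B → I ⊆ B ∧ B ⊆ I ∪ L) ∧ (∀ p ∈ L, ∃ B, N.IsBase B ∧ p ∈ B) := by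
  classical
  obtain ⟨u, hu, huI, huL, hu0⟩ := exists_u hL ha hb O.nab
  set x := xo I a b c d with hx
  have hxM : x ∈ basePolytope M := xo_mem_M O
  let ε : ℕ → ℝ := fun n => 1 / ((n : ℝ) + 1)
  have hε0 : ∀ n, 0 < ε n := fun n => by simp only [ε]; positivity
  have hε1 : ∀ n, ε n ≤ 1 := by
    intro n
    simp only [ε]
    rw [div_le_one (by positivity)]
    have : (0 : ℝ) ≤ n := Nat.cast_nonneg n
    linarith
  let z : ℕ → α → ℝ := fun n => (1 - ε n) • x + ε n • u
  have hzM : ∀ n, z n ∈ basePolytope M := by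
    intro n
    exact (convex_convexHull ℝ _) hxM hu (by have := hε1 n; linarith) (hε0 n).le (by ring)
  have hcell : ∀ n, ∃ C ∈ S, z n ∈ C := by
    intro n
    have := hzM n
    rw [← hS.sUnion_eq] at this
    exact this
  choose C hCS hzC using hcell
  haveI : Finite S := hS.finite
  obtain ⟨⟨D, hDS⟩, hD⟩ := Finite.exists_infinite_fiber (fun n => (⟨C n, hCS n⟩ : S))
  have hinf : {n | C n = D}.Infinite := by
    have h1 : ((fun n => (⟨C n, hCS n⟩ : S)) ⁻¹' {⟨D, hDS⟩}) = {n | C n = D} := by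
      ext n
      simp
    rw [← h1]
    exact Set.infinite_coe_iff.mp hD
  have hfreq : ∃ᶠ n in atTop, z n ∈ D := by
    have h2 : ∃ᶠ n in atTop, C n = D := Nat.frequently_atTop_iff_infinite.mpr hinf
    exact h2.mono (fun n hn => hn ▸ hzC n)
  obtain ⟨N, -, -, hDN⟩ := hS.cell D hDS
  have hclosed : IsClosed D := by rw [hDN]; exact isClosed_basePolytope N
  have htend : Tendsto z atTop (nhds x) := by
    have h1 : Tendsto ε atTop (nhds 0) := tendsto_one_div_add_atTop_nhds_zero_nat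
    have h2 : Tendsto (fun n => (1 - ε n) • x + ε n • u) atTop (nhds ((1 - 0 : ℝ) • x + (0 : ℝ) • u)) :=
      ((tendsto_const_nhds.sub h1).smul tendsto_const_nhds).add (h1.smul tendsto_const_nhds)
    simpa using h2
  have hxD : x ∈ D := hclosed.mem_of_frequently_of_tendsto hfreq htend
  obtain ⟨n, hn⟩ := hfreq.exists
  -- the face
  let w : α → ℝ := fun i => if i ∈ I then 1 else if i ∈ L then 0 else -1
  have hxL : ∀ i, i ∉ I → i ∉ L → x i = 0 := by
    intro i h1 h2
    rw [hx]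
    apply xo_zero h1
    rintro (h | h | h | h)
    · exact h2 (h ▸ ha)
    · exact h2 (h ▸ hb)
    · exact h2 (h ▸ hc)
    · exact h2 (h ▸ hd)
  have hxI : ∀ i, i ∈ I → x i = 1 := by
    intro i h1
    rw [hx]
    apply xo_mem h1
    rintro (h | h | h | h)
    · exact O.aI (h ▸ h1)
    · exact O.bI (h ▸ h1)
    · exact O.cI (h ▸ h1)
    · exact O.dI (h ▸ h1)
  have hterm : ∀ (B : Set α) (i : α), 0 ≤ w i * x i - w i * vec B i := by
    intro B i
    by_cases h1 : i ∈ I
    · simp only [w, h1, if_true, hxI i h1]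
      have := vec_le_one B i
      linarith
    · by_cases h2 : i ∈ L
      · simp [w, h1, h2]
      · simp only [w, h1, h2, if_false, hxL i h1 h2]
        have := vec_nonneg B i
        linarith
  have hwle : ∀ B, N.IsBase B → w ⬝ᵥ vec B ≤ w ⬝ᵥ x := by
    intro B _
    simp only [dotProduct]
    apply Finset.sum_le_sum
    intro i _
    have := hterm B i
    linarith
  have hwz : w ⬝ᵥ z n = w ⬝ᵥ x := by
    simp only [dotProduct]
    apply Finset.sum_congr rfl
    intro i _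
    by_cases h1 : i ∈ I
    · simp only [z, Pi.add_apply, Pi.smul_apply, smul_eq_mul, hxI i h1, huI i h1]
      ring
    · by_cases h2 : i ∈ L
      · simp [w, h1, h2]
      · simp only [z, Pi.add_apply, Pi.smul_apply, smul_eq_mul, hxL i h1 h2, hu0 i h1 h2]
        ring
  have hxN : x ∈ basePolytope N := by rw [← hDN]; exact hxD
  have hzN : z n ∈ basePolytope N := by rw [← hDN]; exact hn
  obtain ⟨N', hN'S, hN'B, hN'P⟩ := exists_face hS (N := N) (by rw [← hDN]; exact hDS) hwle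
    (exists_base_of_mem hwle hxN rfl)
  refine ⟨N', hN'S, ?_, ?_, ?_⟩
  · rw [hN'P]; exact ⟨hxN, rfl⟩
  · intro B hB
    have hBeq := ((hN'B B).mp hB).2
    have hzero : ∑ i, (w i * x i - w i * vec B i) = 0 := by
      rw [Finset.sum_sub_distrib]
      simp only [dotProduct] at hBeq
      linarith
    have heach : ∀ i, w i * x i - w i * vec B i = 0 := fun i =>
      (Finset.sum_eq_zero_iff_of_nonneg (fun i _ => hterm B i)).mp hzero i (Finset.mem_univ i)
    constructor
    · intro i hi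
      have := heach i
      simp only [w, hi, if_true, hxI i hi] at this
      apply mem_of_vec_eq_one
      linarith
    · intro i hi
      by_contra hcon
      have h1 : i ∉ I := fun h => hcon (Or.inl h)
      have h2 : i ∉ L := fun h => hcon (Or.inr h)
      have := heach i
      simp only [w, h1, h2, if_false, hxL i h1 h2, vec_of_mem hi] at this
      norm_num at this
  · intro p hp
    have hzN' : z n ∈ basePolytope N' := by rw [hN'P]; exact ⟨hzN, hwz⟩
    apply exists_base_pos hzN'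
    simp only [z, Pi.add_apply, Pi.smul_apply, smul_eq_mul]
    have h1 := mul_pos (hε0 n) (huL p hp)
    have h2 : 0 ≤ x p := by
      rw [hx]
      simp only [xo, Pi.add_apply, Pi.smul_apply, smul_eq_mul]
      have := vec_nonneg I p
      have := vec_nonneg {a, b, c, d} p
      linarith
    have h3 : 0 ≤ (1 - ε n) * x p := mul_nonneg (by have := hε1 n; linarith) h2
    linarith

lemma cls_core (hS : IsMatroidSubdivision M S) (hL : LineSet M I L) {N : Matroid α}
    (hN : basePolytope N ∈ S)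
    (hw : ∀ p ∈ L, ∃ w ∈ L, w ≠ p ∧ N.IsBase (I ∪ {p, w}))
    (ha : a ∈ L) (hb : b ∈ L) (hac : N.IsBase (I ∪ {a, c}))
    (had : N.IsBase (I ∪ {a, d})) (hab : ¬ N.IsBase (I ∪ {a, b})) (nac : a ≠ c) (nad : a ≠ d) :
    ∃ A : Set α, A ⊆ L ∧ (a ∈ A ∧ b ∈ A ∧ c ∉ A ∧ d ∉ A) ∧
      ∀ p p' s s', p ∈ A → p' ∈ A → s ∈ L → s ∉ A → s' ∈ L → s' ∉ A → p ≠ p' → s ≠ s' →
        Split S I p p' s s' := by
  -- the parallel class of `a`
  refine ⟨{p | p ∈ L ∧ (p = a ∨ ¬ N.IsBase (I ∪ {a, p}))}, fun p hp => hp.1,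
    ⟨⟨ha, Or.inl rfl⟩, ⟨hb, Or.inr hab⟩, ?_, ?_⟩, ?_⟩
  · rintro ⟨-, h | h⟩
    · exact nac h.symm
    · exact h hac
  · rintro ⟨-, h | h⟩
    · exact nad h.symm
    · exact h had
  -- elements of the class are pairwise parallel
  have hpp : ∀ p p', p ∈ L → (p = a ∨ ¬ N.IsBase (I ∪ {a, p})) → p' ∈ L →
      (p' = a ∨ ¬ N.IsBase (I ∪ {a, p'})) → p ≠ p' → ¬ N.IsBase (I ∪ {p, p'}) := by
    intro p p' hpL hp hp'L hp' hne hbase
    rcases hp with rfl | hp
    · rcases hp' with h | hp'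
      · exact hne h.symm
      · exact hp' hbase
    · rcases hp' with rfl | hp'
      · rw [Set.pair_comm] at hbase
        exact hp hbase
      · obtain ⟨w, hwL, hwa, hwb⟩ := hw a ha
        apply hp'
        exact L2 hbase hwb (by rw [Set.pair_comm]; exact hp) (hL.disj w hwL) hwa
  -- elements of the class are not parallel to elements outside
  have hps : ∀ p s, p ∈ L → (p = a ∨ ¬ N.IsBase (I ∪ {a, p})) → s ∈ L →
      ¬ (s = a ∨ ¬ N.IsBase (I ∪ {a, s})) → N.IsBase (I ∪ {p, s}) := by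
    intro p s hpL hp hsL hs
    push Not at hs
    rcases hp with rfl | hp
    · exact hs.2
    · obtain ⟨w, hwL, hwp, hwb⟩ := hw p hpL
      exact L2 hs.2 hwb hp (hL.disj w hwL) hwp
  intro p p' s s' hp hp' hsL hs hs'L hs' hpp' hss'
  have hs2 : ¬ (s = a ∨ ¬ N.IsBase (I ∪ {a, s})) := fun h => hs ⟨hsL, h⟩
  have hs2' : ¬ (s' = a ∨ ¬ N.IsBase (I ∪ {a, s'})) := fun h => hs' ⟨hs'L, h⟩
  have nps : p ≠ s := by rintro rfl; exact hs hp
  have nps' : p ≠ s' := by rintro rfl; exact hs' hp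
  have np's : p' ≠ s := by rintro rfl; exact hs hp'
  have np's' : p' ≠ s' := by rintro rfl; exact hs' hp'
  have O : Oct M I p p' s s' := hL.oct hp.1 hp'.1 hsL hs'L hpp' nps nps' np's np's' hss'
  obtain ⟨N0, hN0⟩ := exists_isMin hS (xo_mem_M O)
  refine ⟨N0, hN0, ?_⟩
  intro hbase
  apply hpp p p' hp.1 hp.2 hp'.1 hp'.2 hpp'
  refine hN0.le hS hN ?_ hbase
  rw [← xo_swap23]
  exact xo_mem_of_pair O.swap23 (hps p s hp.1 hp.2 hsL hs2) (hps p' s' hp'.1 hp'.2 hs'L hs2')

/-- **Classes.** -/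
theorem Split.cls (hS : IsMatroidSubdivision M S) (hL : LineSet M I L) (ha : a ∈ L)
    (hb : b ∈ L) (hc : c ∈ L) (hd : d ∈ L) (O : Oct M I a b c d) (h : Split S I a b c d) :
    ∃ A : Set α, A ⊆ L ∧ ((a ∈ A ∧ b ∈ A ∧ c ∉ A ∧ d ∉ A) ∨ (c ∈ A ∧ d ∈ A ∧ a ∉ A ∧ b ∉ A)) ∧
      ∀ p p' s s', p ∈ A → p' ∈ A → s ∈ L → s ∉ A → s' ∈ L → s' ∉ A → p ≠ p' → s ≠ s' →
        Split S I p p' s s' := by
  obtain ⟨N, hNS, hxN, hNsub, hNp⟩ := exists_big_cell hS hL ha hb hc hd O
  obtain ⟨N0, hN0, hab0⟩ := id h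
  have hcd0 : ¬ N0.IsBase (I ∪ {c, d}) := by rwa [← oct_comp' hS O hN0]
  have hac : N.IsBase (I ∪ {a, c}) := hN0.le hS hNS hxN (h.other hS O hN0)
  have had : N.IsBase (I ∪ {a, d}) := hN0.le hS hNS hxN
    (h.swap34.other hS O.swap34 (by rw [xo_swap34]; exact hN0))
  have hbc : N.IsBase (I ∪ {b, c}) := hN0.le hS hNS hxN
    (h.swap12.other hS O.swap12 (by rw [xo_swap12]; exact hN0))
  have hbd : N.IsBase (I ∪ {b, d}) := hN0.le hS hNS hxN
    (h.swap12.swap34.other hS O.swap12.swap34 (by rw [xo_swap34, xo_swap12]; exact hN0))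
  have hw : ∀ p ∈ L, ∃ w ∈ L, w ≠ p ∧ N.IsBase (I ∪ {p, w}) := by
    intro p hp
    obtain ⟨B, hB, hpB⟩ := hNp p hp
    obtain ⟨h1, h2⟩ := hNsub B hB
    have hMB := cell_isBase hS hNS hB
    obtain ⟨q, hq, hqp⟩ : ∃ q ∈ L, q ≠ p := by
      by_cases hpa : p = a
      · exact ⟨b, hb, fun h => O.nab (hpa ▸ h.symm)⟩
      · exact ⟨a, ha, fun h => hpa h.symm⟩
    by_contra hcon
    push Not at hcon
    have hnone : ∀ w ∈ L, w ≠ p → w ∉ B := by
      intro w hwL hwp hwB
      apply hcon w hwL hwp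
      rw [← base_up hMB h1 (hL.base p w hp hwL (Ne.symm hwp)) hpB hwB]
      exact hB
    have hsub : B ⊆ I ∪ {p, q} := by
      intro i hi
      rcases h2 hi with h' | h'
      · exact Or.inl h'
      · by_cases hip : i = p
        · exact Or.inr (Or.inl hip)
        · exact absurd hi (hnone i h' hip)
    have heq := hMB.eq_of_subset_isBase (hL.base p q hp hq (Ne.symm hqp)) hsub
    apply hnone q hq hqp
    rw [heq]
    exact Or.inr (Or.inr rfl)
  -- not both `ab` and `cd`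
  have hnot : ¬ (N.IsBase (I ∪ {a, b}) ∧ N.IsBase (I ∪ {c, d})) := by
    rintro ⟨h1, h2⟩
    obtain ⟨w, hw1, hw2⟩ := exists_common hS hNS hN0.cell hxN hN0.mem
    have e1 := hw1 _ h1
    have e2 := hw1 _ h2
    have e3 : w ⬝ᵥ vec (I ∪ {a, b}) + w ⬝ᵥ vec (I ∪ {c, d}) = 2 * (w ⬝ᵥ xo I a b c d) := by
      rw [← dotProduct_add, vec_add_pair O, dotProduct_smul, smul_eq_mul]
    exact hab0 (hw2 _ h1 (by linarith))
  by_cases hab : N.IsBase (I ∪ {a, b})
  · have hcd : ¬ N.IsBase (I ∪ {c, d}) := fun h' => hnot ⟨hab, h'⟩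
    have hca : N.IsBase (I ∪ {c, a}) := by rw [Set.pair_comm]; exact hac
    have hcb : N.IsBase (I ∪ {c, b}) := by rw [Set.pair_comm]; exact hbc
    obtain ⟨A, h1, ⟨h2, h3, h4, h5⟩, h6⟩ :=
      cls_core hS hL hNS hw hc hd hca hcb hcd O.nac.symm O.nbc.symm
    exact ⟨A, h1, Or.inr ⟨h2, h3, h4, h5⟩, h6⟩
  · obtain ⟨A, h1, h2, h6⟩ := cls_core hS hL hNS hw ha hb hac had hab O.nac O.nad
    exact ⟨A, h1, Or.inl h2, h6⟩

end Pool.Agent.MP_da28a5_co
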