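import Mathlib
import Pool.Agent.Lib.MP_da28a5_co.Octa

/-!
# If no octahedral face is split then the subdivision is trivial
-/

namespace Pool.Agent.MP_da28a5_co

open Matrix

variable {α : Type}

/-- pivoting: replace `p` by `q` -/
def piv (B : Set α) (p q : α) : Set α := insert q (B \ {p})

/-- adjacency in the exchange graph -/
def adj (N : Matroid α) (B : Set α) (p q : α) : Prop :=
  (p ∈ B ∧ q ∉ B ∧ N.IsBase (piv B p q)) ∨ (q ∈ B ∧ p ∉ B ∧ N.IsBase (piv B q p))

lemma adj.symm {N : Matroid α} {B : Set α} {p q : α} (h : adj N B p q) : adj N B q p := by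
  rcases h with h | h
  · exact Or.inr h
  · exact Or.inl h

/-- a set closed under adjacency -/
def Clo (N : Matroid α) (B : Set α) (T : Set α) : Prop := ∀ p q, adj N B p q → p ∈ T → q ∈ T

lemma Clo.compl {N : Matroid α} {B T : Set α} (h : Clo N B T) : Clo N B Tᶜ := by
  intro p q hpq hp hq
  exact hp (h q p hpq.symm hq)

section finite

variable [Finite α]

lemma count_le {N : Matroid α} {B T : Set α} (hB : N.IsBase B) (hT : Clo N B T) :
    ∀ n : ℕ, ∀ B', N.IsBase B' → (B' \ B).ncard = n → (B' ∩ T).ncard ≤ (B ∩ T).ncard := by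
  intro n
  induction n using Nat.strong_induction_on with
  | _ n ih =>
    intro B' hB' hn
    by_contra hcon
    push Not at hcon
    have hsub : ∀ f, f ∈ B' → f ∉ B → f ∈ T := by
      intro f hf hfB
      by_contra hfT
      obtain ⟨g, ⟨hg, hgB'⟩, hbase⟩ := hB'.exchange hB ⟨hf, hfB⟩
      have h1 : ((insert g (B' \ {f})) \ B).ncard < n := by
        rw [← hn]
        apply Set.ncard_lt_ncard _ (Set.toFinite _)
        constructor
        · rintro x ⟨hx | hx, hxB⟩
          · subst hx; exact absurd hg hxB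
          · exact ⟨hx.1, hxB⟩
        · intro hss
          have := hss ⟨hf, hfB⟩
          rcases this.1 with h | h
          · subst h; exact hfB hg
          · exact h.2 rfl
      have h2 := ih _ h1 _ hbase rfl
      have h3 : (B' ∩ T).ncard ≤ ((insert g (B' \ {f})) ∩ T).ncard := by
        apply Set.ncard_le_ncard _ (Set.toFinite _)
        rintro x ⟨hx, hxT⟩
        refine ⟨Or.inr ⟨hx, ?_⟩, hxT⟩
        rintro rfl
        exact hfT hxT
      omega
    obtain ⟨g, hg, hgB', hgT⟩ : ∃ g, g ∈ B ∧ g ∉ B' ∧ g ∉ T := by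
      by_contra hall
      push Not at hall
      have e1 : (B' ∩ T).ncard + (B' ∩ Tᶜ).ncard = B'.ncard := by
        rw [← Set.ncard_union_eq _ (Set.toFinite _) (Set.toFinite _)]
        · rw [← Set.inter_union_distrib_left, Set.union_compl_self, Set.inter_univ]
        · rw [Set.disjoint_left]
          rintro x ⟨-, h1⟩ ⟨-, h2⟩
          exact h2 h1
      have e2 : (B ∩ T).ncard + (B ∩ Tᶜ).ncard = B.ncard := by
        rw [← Set.ncard_union_eq _ (Set.toFinite _) (Set.toFinite _)]
        · rw [← Set.inter_union_distrib_left, Set.union_compl_self, Set.inter_univ]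
        · rw [Set.disjoint_left]
          rintro x ⟨-, h1⟩ ⟨-, h2⟩
          exact h2 h1
      have e3 : (B ∩ Tᶜ).ncard ≤ (B' ∩ Tᶜ).ncard := by
        apply Set.ncard_le_ncard _ (Set.toFinite _)
        rintro x ⟨hx, hxT⟩
        refine ⟨?_, hxT⟩
        by_contra hxB'
        exact hxT (hall x hx hxB')
      have e4 : B.ncard = B'.ncard := hB.ncard_eq_ncard_of_isBase hB'
      omega
    obtain ⟨f, ⟨hf, hfB⟩, hbase⟩ := hB.exchange hB' ⟨hg, hgB'⟩
    exact hgT (hT f g (Or.inr ⟨hg, hfB, hbase⟩) (hsub f hf hfB))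

lemma count_eq {N : Matroid α} {B T : Set α} (hB : N.IsBase B) (hT : Clo N B T) {B' : Set α}
    (hB' : N.IsBase B') : (B' ∩ T).ncard = (B ∩ T).ncard := by
  have h1 := count_le hB hT _ B' hB' rfl
  have h2 := count_le hB hT.compl _ B' hB' rfl
  have e1 : (B' ∩ T).ncard + (B' ∩ Tᶜ).ncard = B'.ncard := by
    rw [← Set.ncard_union_eq _ (Set.toFinite _) (Set.toFinite _)]
    · rw [← Set.inter_union_distrib_left, Set.union_compl_self, Set.inter_univ]
    · rw [Set.disjoint_left]
      rintro x ⟨-, h1⟩ ⟨-, h2⟩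
      exact h2 h1
  have e2 : (B ∩ T).ncard + (B ∩ Tᶜ).ncard = B.ncard := by
    rw [← Set.ncard_union_eq _ (Set.toFinite _) (Set.toFinite _)]
    · rw [← Set.inter_union_distrib_left, Set.union_compl_self, Set.inter_univ]
    · rw [Set.disjoint_left]
      rintro x ⟨-, h1⟩ ⟨-, h2⟩
      exact h2 h1
  have e4 : B.ncard = B'.ncard := hB.ncard_eq_ncard_of_isBase hB'
  omega

end finite

/-- walks of length `n` to `e` in the exchange graph -/
def Wk (N : Matroid α) (B : Set α) (e : α) : ℕ → α → Prop
  | 0, x => x = e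
  | n + 1, x => ∃ y, adj N B x y ∧ Wk N B e n y

lemma clo_walk (N : Matroid α) (B : Set α) (e : α) : Clo N B {x | ∃ n, Wk N B e n x} := by
  rintro p q hpq ⟨n, hn⟩
  exact ⟨n + 1, p, hpq.symm, hn⟩

/-- pivots in terms of pairs -/
lemma piv_eq {B : Set α} {b b' e : α} (hb : b ∈ B) (hb' : b' ∈ B) (hne : b ≠ b') :
    piv B b e = (B \ {b, b'}) ∪ {b', e} := by
  ext x
  simp only [piv, Set.mem_insert_iff, Set.mem_sdiff, Set.mem_union, Set.mem_singleton_iff]
  constructor
  · rintro (h | ⟨h1, h2⟩)
    · exact Or.inr (Or.inr h)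
    · by_cases hx : x = b'
      · exact Or.inr (Or.inl hx)
      · exact Or.inl ⟨h1, by rintro (h | h); exacts [h2 h, hx h]⟩
  · rintro (⟨h1, h2⟩ | h | h)
    · exact Or.inr ⟨h1, fun h => h2 (Or.inl h)⟩
    · subst h
      exact Or.inr ⟨hb', Ne.symm hne⟩
    · exact Or.inl h

lemma base_eq {B : Set α} {b b' : α} (hb : b ∈ B) (hb' : b' ∈ B) :
    B = (B \ {b, b'}) ∪ {b, b'} := by
  ext x
  simp only [Set.mem_sdiff, Set.mem_union, Set.mem_insert_iff, Set.mem_singleton_iff]
  constructor
  · intro h
    by_cases hx : x = b ∨ x = b'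
    · exact Or.inr hx
    · exact Or.inl ⟨h, hx⟩
  · rintro (⟨h, -⟩ | rfl | rfl)
    · exact h
    · exact hb
    · exact hb'

lemma piv_piv_eq {B : Set α} {b b' e e' : α} (hb : b ∈ B) (hb' : b' ∈ B) (hne : b ≠ b')
    (he : e ∉ B) : piv (piv B b e) b' e' = (B \ {b, b'}) ∪ {e, e'} := by
  ext x
  simp only [piv, Set.mem_insert_iff, Set.mem_sdiff, Set.mem_union, Set.mem_singleton_iff]
  constructor
  · rintro (h | ⟨h | ⟨h1, h2⟩, h3⟩)
    · exact Or.inr (Or.inr h)
    · exact Or.inr (Or.inl h)
    · exact Or.inl ⟨h1, by rintro (h | h); exacts [h2 h, h3 h]⟩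
  · rintro (⟨h1, h2⟩ | h | h)
    · exact Or.inr ⟨Or.inr ⟨h1, fun h => h2 (Or.inl h)⟩, fun h => h2 (Or.inr h)⟩
    · subst h
      exact Or.inr ⟨Or.inl rfl, by rintro rfl; exact he hb'⟩
    · exact Or.inl h

lemma sdiff_pair_comm (B : Set α) (b b' : α) : B \ {b, b'} = B \ {b', b} := by
  rw [Set.pair_comm]

/-- edges not seeing `e₁` survive the pivot `(b₁, e₁)` -/
lemma survive {N : Matroid α} {B : Set α} {b₁ e₁ b' e' : α} (hb₁ : b₁ ∈ B) (hb' : b' ∈ B)
    (hne : b₁ ≠ b') (he₁ : e₁ ∉ B) (h1 : N.IsBase (piv B b₁ e₁))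
    (h2 : N.IsBase (piv B b' e')) (h3 : ¬ N.IsBase (piv B b' e₁)) :
    N.IsBase (piv (piv B b₁ e₁) b' e') := by
  rw [piv_piv_eq hb₁ hb' hne he₁]
  rw [piv_eq hb₁ hb' hne] at h1
  rw [piv_eq hb' hb₁ hne.symm, sdiff_pair_comm] at h2 h3
  rw [Set.pair_comm b' e₁] at h1
  refine L2 h2 h1 h3 ?_ ?_
  · rintro ⟨-, h⟩
    exact h (Or.inr rfl)
  · rintro rfl
    exact he₁ hb'

/-- An obstruction of length `n`. -/
def Obs (M N : Matroid α) (n : ℕ) : Prop :=
  ∃ (B : Set α) (b e : α), N.IsBase B ∧ b ∈ B ∧ e ∉ B ∧ M.IsBase (piv B b e) ∧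
    ¬ N.IsBase (piv B b e) ∧ Wk N B e n b

/-- The local condition: no octahedral face of `M` is cut by `N`. -/
def Loc (M N : Matroid α) : Prop :=
  ∀ I a b c d, Oct M I a b c d → N.IsBase (I ∪ {a, b}) → N.IsBase (I ∪ {c, d}) →
    N.IsBase (I ∪ {a, c})

lemma no_obs {M N : Matroid α} (hNM : ∀ B, N.IsBase B → M.IsBase B) (hloc : Loc M N) :
    ∀ n, ¬ Obs M N n := by
  intro n
  induction n using Nat.strong_induction_on with
  | _ n ih =>
    rintro ⟨B, b, e, hB, hb, he, hM, hN, hw⟩
    -- it is enough to consider a shortest walk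
    by_cases hshort : ∃ j < n, Wk N B e j b
    · obtain ⟨j, hj, hjw⟩ := hshort
      exact ih j hj ⟨B, b, e, hB, hb, he, hM, hN, hjw⟩
    push Not at hshort
    -- first step
    match n, hw with
    | 0, hw => 
      have hw' : b = e := hw
      exact he (hw' ▸ hb)
    | 1, hw =>
      obtain ⟨e1, h1, h2⟩ := hw
      have h2' : e1 = e := h2
      subst h2'
      rcases h1 with ⟨-, -, h⟩ | ⟨h, -, -⟩
      · exact hN h
      · exact he h
    | 2, hw =>
      obtain ⟨e1, h1, b1, h2, h3⟩ := hw
      have h3' : b1 = e := h3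
      subst h3'
      rcases h1 with ⟨-, h1', -⟩ | ⟨-, h1', -⟩
      · rcases h2 with ⟨h2', -, -⟩ | ⟨h2', -, -⟩
        · exact h1' h2'
        · exact he h2'
      · exact h1' hb
    | n + 3, hw =>
      obtain ⟨e1, h1, b1, h2, e2, h3, h4⟩ := hw
      have h1' : e1 ∉ B ∧ N.IsBase (piv B b e1) := by
        rcases h1 with ⟨-, h, h'⟩ | ⟨-, h, -⟩
        · exact ⟨h, h'⟩
        · exact absurd hb h
      have h2' : b1 ∈ B ∧ N.IsBase (piv B b1 e1) := by
        rcases h2 with ⟨h, -, -⟩ | ⟨h, -, h'⟩
        · exact absurd h h1'.1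
        · exact ⟨h, h'⟩
      have h3' : e2 ∉ B ∧ N.IsBase (piv B b1 e2) := by
        rcases h3 with ⟨-, h, h'⟩ | ⟨-, h, -⟩
        · exact ⟨h, h'⟩
        · exact absurd h2'.1 h
      obtain ⟨he1, hbe1⟩ := h1'
      obtain ⟨hb1, hb1e1⟩ := h2'
      obtain ⟨he2, hb1e2⟩ := h3'
      -- `b` is not adjacent to `e2`
      have hbe2 : ¬ N.IsBase (piv B b e2) := by
        intro h
        refine hshort (n + 1) (by omega) ?_
        exact ⟨e2, Or.inl ⟨hb, he2, h⟩, h4⟩
      have hbb1 : b ≠ b1 := by
        rintro rfl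
        exact hbe2 hb1e2
      have hee1 : e1 ≠ e := by
        rintro rfl
        exact hN hbe1
      have he12 : e1 ≠ e2 := by
        rintro rfl
        exact hbe2 hbe1
      -- the common set
      set X : Set α := B \ {b, b1} with hX
      have eB : B = X ∪ {b, b1} := base_eq hb hb1
      have ebe : ∀ q, piv B b q = X ∪ {b1, q} := fun q => piv_eq hb hb1 hbb1
      have eb1 : ∀ q, piv B b1 q = X ∪ {b, q} := fun q => by
        rw [piv_eq hb1 hb hbb1.symm, sdiff_pair_comm]
      have hbX : b ∉ X := fun h => h.2 (Or.inl rfl)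
      have hb1X : b1 ∉ X := fun h => h.2 (Or.inr rfl)
      have hnX : ∀ q, q ∉ B → q ∉ X := fun q hq h => hq h.1
      -- `X ∪ {e1, e2}` is a base of `N`
      have hE : N.IsBase (X ∪ {e2, e1}) := by
        refine L2 (p := b1) (t := e1) (s := e2) (w := b) ?_ ?_ ?_ hbX ?_
        · rw [← ebe]; exact hbe1
        · rw [Set.pair_comm, ← eb1]; exact hb1e2
        · rw [← ebe]; exact hbe2
        · rintro rfl; exact he2 hb
      by_cases hn : n = 0
      · -- a cut octahedron
        subst hn
        have h4' : e2 = e := h4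
        subst h4'
        have O : Oct M X b b1 e1 e2 :=
          { ab := by rw [← eB]; exact hNM _ hB
            ac := by rw [← eb1]; exact hNM _ hb1e1
            ad := by rw [← eb1]; exact hNM _ hb1e2
            bc := by rw [← ebe]; exact hNM _ hbe1
            bd := by rw [← ebe]; exact hM
            cd := by rw [Set.pair_comm]; exact hNM _ hE
            nab := hbb1
            nac := by rintro rfl; exact he1 hb
            nad := by rintro rfl; exact he2 hb
            nbc := by rintro rfl; exact he1 hb1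
            nbd := by rintro rfl; exact he2 hb1
            ncd := he12
            aI := hbX
            bI := hb1X
            cI := hnX _ he1
            dI := hnX _ he2 }
        have O' : Oct M X b1 b e2 e1 := O.swap12.swap34
        have h5 := hloc X b1 b e2 e1 O' (by rw [Set.pair_comm, ← eB]; exact hB) hE
        rw [← ebe] at h5
        exact hN h5
      · -- shorten the walk
        by_cases hMb1 : M.IsBase (piv B b1 e)
        · refine ih (n + 1) (by omega) ⟨B, b1, e, hB, hb1, he, hMb1, ?_, e2, h3, h4⟩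
          intro h
          refine hshort 3 (by omega) ?_
          exact ⟨e1, h1, b1, h2, e, Or.inl ⟨hb1, he, h⟩, rfl⟩
        · have hXe1e : M.IsBase (X ∪ {e, e1}) := by
            refine L2 (p := b) (t := e1) (s := e) (w := b1) ?_ ?_ ?_ hb1X ?_
            · rw [← eb1]; exact hNM _ hb1e1
            · rw [Set.pair_comm, ← ebe]; exact hM
            · rw [← eb1]; exact hMb1
            · rintro rfl; exact he hb1
          have hXe1eN : ¬ N.IsBase (X ∪ {e, e1}) := by
            intro h
            apply hN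
            rw [ebe, Set.pair_comm]
            refine L2 (p := b) (t := b1) (s := e) (w := e1) ?_ h ?_ (hnX _ he1) hee1
            · rw [← eB]; exact hB
            · intro h'
              apply hMb1
              rw [eb1]
              exact hNM _ h'
          have epp : ∀ q, piv (piv B b1 e1) b q = X ∪ {q, e1} := fun q => by
            rw [piv_piv_eq hb1 hb hbb1.symm he1, sdiff_pair_comm, Set.pair_comm q e1]
          refine ih (n + 1) (by omega) ⟨piv B b1 e1, b, e, hb1e1, ?_, ?_, ?_, ?_, e2, ?_, ?_⟩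
          · exact Or.inr ⟨hb, hbb1⟩
          · rintro (h | ⟨h, -⟩)
            · exact hee1 h.symm
            · exact he h
          · rw [epp]; exact hXe1e
          · rw [epp]; exact hXe1eN
          · refine Or.inl ⟨Or.inr ⟨hb, hbb1⟩, ?_, ?_⟩
            · rintro (h | ⟨h, -⟩)
              · exact he12 h.symm
              · exact he2 h
            · rw [epp]; exact hE
          · -- the rest of the walk persists
            have persist : ∀ m, m ≤ n → ∀ x, Wk N B e m x → Wk N (piv B b1 e1) e m x := by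
              intro m
              induction m with
              | zero => intro _ x hx; exact hx
              | succ m ihm =>
                rintro hm x ⟨y, hxy, hy⟩
                refine ⟨y, ?_, ihm (by omega) y hy⟩
                have hx : Wk N B e (m + 1) x := ⟨y, hxy, hy⟩
                -- general statement for an edge `(b', e')`
                have key : ∀ b' e' j j', b' ∈ B → e' ∉ B → N.IsBase (piv B b' e') →
                    Wk N B e j b' → Wk N B e j' e' → j ≤ m + 1 → j' ≤ m + 1 →
                    b' ∈ piv B b1 e1 ∧ e' ∉ piv B b1 e1 ∧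
                      N.IsBase (piv (piv B b1 e1) b' e') := by
                  intro b' e' j j' hb' he' hbase hj hj' hjm hjm'
                  have n1 : b1 ≠ b' := by
                    rintro rfl
                    exact hshort (j + 2) (by omega) ⟨e1, h1, b1, h2, hj⟩
                  have n2 : e' ≠ e1 := by
                    rintro rfl
                    exact hshort (j' + 1) (by omega) ⟨e', h1, hj'⟩
                  have n3 : ¬ N.IsBase (piv B b' e1) := by
                    intro h
                    exact hshort (j + 2) (by omega)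
                      ⟨e1, h1, b', Or.inr ⟨hb', he1, h⟩, hj⟩
                  refine ⟨Or.inr ⟨hb', Ne.symm n1⟩, ?_, survive hb1 hb' n1 he1 hb1e1 hbase n3⟩
                  rintro (h | ⟨h, -⟩)
                  · exact n2 h
                  · exact he' h
                rcases hxy with ⟨p1, p2, p3⟩ | ⟨p1, p2, p3⟩
                · exact Or.inl (key x y (m + 1) m p1 p2 p3 hx hy le_rfl (by omega))
                · exact Or.inr (key y x m (m + 1) p1 p2 p3 hy hx (by omega) le_rfl)
            exact persist n le_rfl e2 h4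

section generic

variable [Fintype α] {M : Matroid α} {S : Set (Set (α → ℝ))}

/-- A generic point of `P_M`: if it lies on a hyperplane `x(T) = k` then all of `P_M` does. -/
lemma exists_generic (M : Matroid α) : ∃ z ∈ basePolytope M, ∀ (T : Finset α) (k : ℕ),
    ∑ i ∈ T, z i = k → ∀ B, M.IsBase B → ∑ i ∈ T, vec B i = k := by
  classical
  obtain ⟨t, ht0, htr⟩ : ∃ t : ℝ, 0 < t ∧ Transcendental ℤ t := by
    have h1 : Transcendental ℤ (liouvilleNumber 2) := by
      have := transcendental_liouvilleNumber (m := 2) le_rfl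
      simpa using this
    refine ⟨|liouvilleNumber 2|, ?_, ?_⟩
    · rw [abs_pos]
      intro h
      rw [h] at h1
      exact h1 isAlgebraic_zero
    · rcases abs_choice (liouvilleNumber 2) with h | h
      · rw [h]; exact h1
      · rw [h]
        intro h2
        apply h1
        have := h2.neg
        rwa [neg_neg] at this
  haveI : Finite (Set α) := inferInstance
  obtain ⟨n, ⟨σ⟩⟩ := Finite.exists_equiv_fin (Set α)
  have hfin : {B | M.IsBase B}.Finite := Set.toFinite _
  set F : Finset (Set α) := hfin.toFinset with hF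
  have hmem : ∀ B, B ∈ F ↔ M.IsBase B := fun B => by rw [hF, Set.Finite.mem_toFinset]; rfl
  obtain ⟨B0, hB0⟩ := M.exists_isBase
  let wt : Set α → ℝ := fun B => t ^ (σ B : ℕ)
  have hwt : ∀ B, 0 < wt B := fun B => pow_pos ht0 _
  set W : ℝ := ∑ B ∈ F, wt B with hW
  have hWpos : 0 < W := Finset.sum_pos (fun B _ => hwt B) ⟨B0, (hmem B0).mpr hB0⟩
  refine ⟨∑ B ∈ F, (wt B / W) • vec B, ?_, ?_⟩
  · apply (convex_convexHull ℝ _).sum_mem
    · intro B _
      exact (div_pos (hwt B) hWpos).le
    · rw [← Finset.sum_div, ← hW, div_self hWpos.ne']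
    · intro B hB
      exact vec_mem ((hmem B).mp hB)
  · intro T k hk B1 hB1
    -- number of elements of `B ∩ T`
    let nB : Set α → ℕ := fun B => (T.filter (fun i => i ∈ B)).card
    have hnB : ∀ B, ∑ i ∈ T, vec B i = nB B := by
      intro B
      simp only [nB, vec, Set.indicator_apply, Pi.one_apply]
      rw [Finset.sum_ite, Finset.sum_const_zero, add_zero, Finset.sum_const, nsmul_eq_mul, mul_one]
    have e1 : ∑ i ∈ T, (∑ B ∈ F, (wt B / W) • vec B) i = ∑ B ∈ F, (wt B / W) * nB B := by
      simp only [Finset.sum_apply, Pi.smul_apply, smul_eq_mul]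
      rw [Finset.sum_comm]
      apply Finset.sum_congr rfl
      intro B _
      rw [← Finset.mul_sum, hnB]
    rw [e1] at hk
    have e2 : ∑ B ∈ F, ((nB B : ℝ) - k) * wt B = 0 := by
      have h1 : ∑ B ∈ F, ((nB B : ℝ) - k) * wt B =
          W * (∑ B ∈ F, (wt B / W) * nB B) - k * W := by
        rw [Finset.mul_sum, hW, Finset.mul_sum, ← Finset.sum_sub_distrib]
        apply Finset.sum_congr rfl
        intro B _
        rw [← hW]
        field_simp
      rw [h1, hk]; ring
    let p : Polynomial ℤ := ∑ B ∈ F, Polynomial.C ((nB B : ℤ) - k) * Polynomial.X ^ (σ B : ℕ)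
    have hp : Polynomial.aeval t p = 0 := by
      simp only [p, map_sum, map_mul, map_pow, Polynomial.aeval_X, Polynomial.aeval_C]
      rw [← e2]
      apply Finset.sum_congr rfl
      intro B _
      simp [wt]
    have hp0 : p = 0 := (transcendental_iff.mp htr) p hp
    have hcoeff := congrArg (fun q => Polynomial.coeff q (σ B1 : ℕ)) hp0
    simp only [p, Polynomial.finset_sum_coeff, Polynomial.coeff_C_mul, Polynomial.coeff_X_pow,
      Polynomial.coeff_zero] at hcoeff
    rw [Finset.sum_eq_single B1] at hcoeff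
    · simp only [if_true, mul_one] at hcoeff
      rw [hnB]
      have : (nB B1 : ℤ) = k := by linarith
      exact_mod_cast this
    · intro B _ hne
      rw [if_neg, mul_zero]
      intro h
      apply hne
      exact (σ.injective (Fin.ext h)).symm
    · intro h
      exact absurd ((hmem B1).mpr hB1) h

/-- **No cut octahedra implies trivial.** -/
theorem full_cell (hS : IsMatroidSubdivision M S)
    (hno : ∀ I a b c d, Oct M I a b c d → ¬ Split S I a b c d) : basePolytope M ∈ S := by
  classical
  obtain ⟨z, hzM, hz⟩ := exists_generic M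
  obtain ⟨N, hNS, hzN⟩ := exists_cell hS hzM
  have hNM : ∀ B, N.IsBase B → M.IsBase B := fun B hB => cell_isBase hS hNS hB
  have hloc : Loc M N := by
    intro I a b c d O hab hcd
    obtain ⟨N0, hN0⟩ := exists_isMin hS (xo_mem_M O)
    refine hN0.le hS hNS (xo_mem_of_pair O hab hcd) ?_
    by_contra hac
    exact hno I a c b d O.swap23 ⟨N0, by rw [xo_swap23]; exact hN0, hac⟩
  -- all bases of `M` are bases of `N`
  have hall : ∀ B, M.IsBase B → N.IsBase B := by
    intro B0 hB0
    by_contra hB0N
    -- a base of `N` closest to `B0`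
    obtain ⟨B, hB, hmin⟩ := Set.exists_min_image {B | N.IsBase B} (fun B => (B0 \ B).ncard)
      (Set.toFinite _) N.exists_isBase
    have hB : N.IsBase B := hB
    have hne : ¬ B ⊆ B0 := by
      intro hsub
      have := (hNM B hB).eq_of_subset_isBase hB0 hsub
      exact hB0N (this ▸ hB)
    obtain ⟨b, hb, hbB0⟩ := Set.not_subset.mp hne
    obtain ⟨e, ⟨heB0, he⟩, hM⟩ := (hNM B hB).exchange hB0 ⟨hb, hbB0⟩
    have hNn : ¬ N.IsBase (piv B b e) := by
      intro hcon
      have h1 := hmin _ hcon
      have h2 : (B0 \ piv B b e).ncard < (B0 \ B).ncard := by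
        apply Set.ncard_lt_ncard _ (Set.toFinite _)
        constructor
        · rintro x ⟨hx, hx'⟩
          refine ⟨hx, fun hxB => hx' ?_⟩
          by_cases hxb : x = b
          · subst hxb; exact absurd hx hbB0
          · exact Or.inr ⟨hxB, hxb⟩
        · intro hss
          exact (hss ⟨heB0, he⟩).2 (Or.inl rfl)
      omega
    -- the walk
    have hclo := clo_walk N B e
    set T : Set α := {x | ∃ n, Wk N B e n x} with hT
    have heT : e ∈ T := ⟨0, rfl⟩
    have hTf : (T.toFinite.toFinset : Set α) = T := Set.Finite.coe_toFinset _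
    set Tf := T.toFinite.toFinset with hTfdef
    have hsumvec : ∀ B' : Set α, ∑ i ∈ Tf, vec B' i = ((B' ∩ T).ncard : ℝ) := by
      intro B'
      simp only [vec, Set.indicator_apply, Pi.one_apply]
      rw [Finset.sum_ite, Finset.sum_const_zero, add_zero, Finset.sum_const, nsmul_eq_mul, mul_one]
      congr 1
      rw [← Set.ncard_coe_finset]
      congr 1
      ext x
      simp only [Finset.coe_filter, Set.mem_inter_iff]
      rw [hTfdef]
      simp only [Set.Finite.mem_toFinset]
      constructor
      · rintro ⟨h1, h2⟩; exact ⟨h2, h1⟩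
      · rintro ⟨h1, h2⟩; exact ⟨h2, h1⟩
    have hconst : ∀ B', N.IsBase B' → ∑ i ∈ Tf, vec B' i = ((B ∩ T).ncard : ℝ) := by
      intro B' hB'
      rw [hsumvec, count_eq hB hclo hB']
    have hzT : ∑ i ∈ Tf, z i = ((B ∩ T).ncard : ℝ) := by
      have hdot : ∀ y : α → ℝ, (fun i => if i ∈ Tf then (1 : ℝ) else 0) ⬝ᵥ y = ∑ i ∈ Tf, y i := by
        intro y
        simp [dotProduct, Finset.sum_ite_mem]
      have hdot' : ∀ y : α → ℝ, (-(fun i => if i ∈ Tf then (1 : ℝ) else 0)) ⬝ᵥ y =
          - ∑ i ∈ Tf, y i := by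
        intro y
        rw [neg_dotProduct, hdot]
      apply le_antisymm
      · rw [← hdot]
        apply dot_le _ hzN
        intro B' hB'
        rw [hdot, hconst B' hB']
      · have := dot_le (w := -(fun i => if i ∈ Tf then (1 : ℝ) else 0))
          (c := -((B ∩ T).ncard : ℝ)) (by
            intro B' hB'
            rw [hdot', hconst B' hB']) hzN
        rw [hdot'] at this
        linarith
    have hMT := hz Tf (B ∩ T).ncard hzT _ hM
    rw [hsumvec] at hMT
    have hMT' : (piv B b e ∩ T).ncard = (B ∩ T).ncard := by exact_mod_cast hMT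
    have hbT : b ∈ T := by
      by_contra hbT
      have h1 : piv B b e ∩ T = insert e (B ∩ T) := by
        ext x
        simp only [piv, Set.mem_inter_iff, Set.mem_insert_iff, Set.mem_sdiff,
          Set.mem_singleton_iff]
        constructor
        · rintro ⟨h | ⟨h1, -⟩, h2⟩
          · exact Or.inl h
          · exact Or.inr ⟨h1, h2⟩
        · rintro (h | ⟨h1, h2⟩)
          · subst h; exact ⟨Or.inl rfl, heT⟩
          · refine ⟨Or.inr ⟨h1, ?_⟩, h2⟩
            rintro rfl; exact hbT h2
      rw [h1, Set.ncard_insert_of_notMem (fun h => he h.1) (Set.toFinite _)] at hMT'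
      omega
    obtain ⟨n, hn⟩ := hbT
    exact no_obs hNM hloc n ⟨B, b, e, hB, hb, he, hM, hNn, hn⟩
  have heq : basePolytope M = basePolytope N := by
    unfold basePolytope
    congr 1
    ext x
    constructor
    · rintro ⟨B, hB, rfl⟩; exact ⟨B, hall B hB, rfl⟩
    · rintro ⟨B, hB, rfl⟩; exact ⟨B, hNM B hB, rfl⟩
  rw [heq]
  exact hNS

/-- If `P_M` is a cell then the subdivision is trivial. -/
lemma eq_trivial (hS : IsMatroidSubdivision M S) (h : basePolytope M ∈ S) :
    S = trivialSubdivision M := by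
  ext F
  constructor
  · intro hF
    have h1 := (hS.inter_face _ h _ hF).1
    have hsub : F ⊆ basePolytope M := by
      rw [← hS.sUnion_eq]
      exact Set.subset_sUnion_of_mem hF
    rw [Set.inter_eq_right.mpr hsub] at h1
    refine ⟨h1, ?_⟩
    obtain ⟨N, -, -, rfl⟩ := hS.cell F hF
    obtain ⟨B, hB⟩ := N.exists_isBase
    exact ⟨_, vec_mem hB⟩
  · rintro ⟨h1, h2⟩
    exact hS.face_mem _ h F h1 h2

end generic

end Pool.Agent.MP_da28a5_co
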