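import Mathlib

/-!
# Quartet relations on the lines of a finite projective plane

A system of quartets on the lines of a projective plane which is invariant under perspectivities
and which comes from trees is empty: the group of projectivities of a line is doubly transitive,
hence primitive, so it preserves no nontrivial split.
-/

namespace Pool.Agent.MP_da28a5_co

open Configuration

variable {P Ln : Type} [Membership P Ln]

/-- `x, a, b` are not on a common line -/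
def NC (Ln : Type) [Membership P Ln] (x a b : P) : Prop := ∀ l : Ln, x ∈ l → a ∈ l → b ∈ l → False

/-- the four points `a, b, c, d` are on different lines through `x` -/
structure GP (Ln : Type) [Membership P Ln] (x a b c d : P) : Prop where
  ab : NC Ln x a b
  ac : NC Ln x a c
  ad : NC Ln x a d
  bc : NC Ln x b c
  bd : NC Ln x b d
  cd : NC Ln x c d

lemma NC.symm {x a b : P} (h : NC Ln x a b) : NC Ln x b a := fun l h1 h2 h3 => h l h1 h3 h2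

lemma GP.swap12 {x a b c d : P} (h : GP Ln x a b c d) : GP Ln x b a c d :=
  ⟨h.ab.symm, h.bc, h.bd, h.ac, h.ad, h.cd⟩

lemma GP.swapPairs {x a b c d : P} (h : GP Ln x a b c d) : GP Ln x c d a b :=
  ⟨h.cd, h.ac.symm, h.bc.symm, h.ad.symm, h.bd.symm, h.ab⟩

/-- A quartet relation with the properties coming from a matroid subdivision. -/
structure Quart (Ln : Type) [Membership P Ln] (Sp : P → P → P → P → P → Prop) : Prop where
  swap12 : ∀ x a b c d, GP Ln x a b c d → Sp x a b c d → Sp x b a c d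
  swapPairs : ∀ x a b c d, GP Ln x a b c d → Sp x a b c d → Sp x c d a b
  excl : ∀ x a b c d, GP Ln x a b c d → Sp x a b c d → ¬ Sp x a c b d
  par : ∀ x a a' b c d, GP Ln x a b c d → GP Ln x a' b c d → ¬ NC Ln x a a' → Sp x a b c d →
    Sp x a' b c d
  mov : ∀ (l : Ln) (x y a b c d : P), a ∈ l → b ∈ l → c ∈ l → d ∈ l → a ≠ b → a ≠ c → a ≠ d →
    b ≠ c → b ≠ d → c ≠ d → x ∉ l → y ∉ l → Sp x a b c d → Sp y a b c d
  cls : ∀ (l : Ln) (x a b c d : P), a ∈ l → b ∈ l → c ∈ l → d ∈ l → a ≠ b → a ≠ c → a ≠ d →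
    b ≠ c → b ≠ d → c ≠ d → x ∉ l → Sp x a b c d →
    ∃ A : Set P, (∀ p ∈ A, p ∈ l) ∧
      ((a ∈ A ∧ b ∈ A ∧ c ∉ A ∧ d ∉ A) ∨ (c ∈ A ∧ d ∈ A ∧ a ∉ A ∧ b ∉ A)) ∧
      ∀ p p' s s', p ∈ A → p' ∈ A → s ∈ l → s ∉ A → s' ∈ l → s' ∉ A → p ≠ p' → s ≠ s' →
        Sp x p p' s s'

variable [ProjectivePlane P Ln]

lemma pl_join (p q : P) (h : p ≠ q) : ∃ l : Ln, p ∈ l ∧ q ∈ l :=
  ⟨HasLines.mkLine h, HasLines.mkLine_ax h⟩

lemma pl_meet (l m : Ln) (h : l ≠ m) : ∃ p : P, p ∈ l ∧ p ∈ m :=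
  ⟨HasPoints.mkPoint h, HasPoints.mkPoint_ax h⟩

lemma pl_line {p q : P} {l m : Ln} (h : p ≠ q) (h1 : p ∈ l) (h2 : q ∈ l) (h3 : p ∈ m)
    (h4 : q ∈ m) : l = m :=
  (Nondegenerate.eq_or_eq h1 h2 h3 h4).resolve_left h

lemma pl_point {p q : P} {l m : Ln} (h : l ≠ m) (h1 : p ∈ l) (h2 : q ∈ l) (h3 : p ∈ m)
    (h4 : q ∈ m) : p = q :=
  (Nondegenerate.eq_or_eq h1 h2 h3 h4).resolve_right h

lemma nc_of_line {l : Ln} {x a b : P} (hx : x ∉ l) (ha : a ∈ l) (hb : b ∈ l) (h : a ≠ b) :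
    NC Ln x a b := by
  intro m h1 h2 h3
  have : m = l := pl_line h h2 h3 ha hb
  exact hx (this ▸ h1)

lemma gp_of_line {l : Ln} {x a b c d : P} (hx : x ∉ l) (ha : a ∈ l) (hb : b ∈ l) (hc : c ∈ l)
    (hd : d ∈ l) (nab : a ≠ b) (nac : a ≠ c) (nad : a ≠ d) (nbc : b ≠ c) (nbd : b ≠ d)
    (ncd : c ≠ d) : GP Ln x a b c d :=
  ⟨nc_of_line hx ha hb nab, nc_of_line hx ha hc nac, nc_of_line hx ha hd nad,
    nc_of_line hx hb hc nbc, nc_of_line hx hb hd nbd, nc_of_line hx hc hd ncd⟩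

omit [ProjectivePlane P Ln] in
lemma NC.ne_right [ProjectivePlane P Ln] {x a b : P} (h : NC Ln x a b) : a ≠ b := by
  rintro rfl
  by_cases hxa : x = a
  · subst hxa
    obtain ⟨l, hl⟩ := Nondegenerate.exists_line (P := P) (L := Ln) x
    obtain ⟨p₁, p₂, p₃, l₁, l₂, l₃, h₁₂, h₁₃, h₂₁, h₂₂, h₂₃, h₃₁, h₃₂, h₃₃⟩ :=
      @ProjectivePlane.exists_config P Ln _ _
    by_cases hx2 : x = p₂
    · subst hx2; exact h l₂ h₂₂ h₂₂ h₂₂
    · obtain ⟨m, hm, -⟩ := pl_join (Ln := Ln) x p₂ hx2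
      exact h m hm hm hm
  · obtain ⟨m, hm, hm'⟩ := pl_join (Ln := Ln) x a hxa
    exact h m hm hm' hm'

lemma NC.replace {x a a' b : P} (h : NC Ln x a b) (ha' : a' ≠ x) {m : Ln} (h1 : x ∈ m)
    (h2 : a ∈ m) (h3 : a' ∈ m) : NC Ln x a' b := by
  intro k h4 h5 h6
  have : k = m := pl_line (Ne.symm ha') h4 h5 h1 h3
  subst this
  exact h k h1 h2 h6

variable {Sp : P → P → P → P → P → Prop}

lemma rep1 (hq : Quart Ln Sp) {x a a' b c d : P} (g : GP Ln x a b c d) (ha' : a' ≠ x) {m : Ln}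
    (h1 : x ∈ m) (h2 : a ∈ m) (h3 : a' ∈ m) (h : Sp x a b c d) :
    GP Ln x a' b c d ∧ Sp x a' b c d := by
  have g' : GP Ln x a' b c d :=
    ⟨g.ab.replace ha' h1 h2 h3, g.ac.replace ha' h1 h2 h3, g.ad.replace ha' h1 h2 h3,
      g.bc, g.bd, g.cd⟩
  refine ⟨g', hq.par x a a' b c d g g' ?_ h⟩
  intro hn
  exact hn m h1 h2 h3

lemma rep2 (hq : Quart Ln Sp) {x a b b' c d : P} (g : GP Ln x a b c d) (hb' : b' ≠ x) {m : Ln}
    (h1 : x ∈ m) (h2 : b ∈ m) (h3 : b' ∈ m) (h : Sp x a b c d) :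
    GP Ln x a b' c d ∧ Sp x a b' c d := by
  obtain ⟨g1, s1⟩ := rep1 hq g.swap12 hb' h1 h2 h3 (hq.swap12 _ _ _ _ _ g h)
  exact ⟨g1.swap12, hq.swap12 _ _ _ _ _ g1 s1⟩

lemma rep3 (hq : Quart Ln Sp) {x a b c c' d : P} (g : GP Ln x a b c d) (hc' : c' ≠ x) {m : Ln}
    (h1 : x ∈ m) (h2 : c ∈ m) (h3 : c' ∈ m) (h : Sp x a b c d) :
    GP Ln x a b c' d ∧ Sp x a b c' d := by
  obtain ⟨g1, s1⟩ := rep1 hq g.swapPairs hc' h1 h2 h3 (hq.swapPairs _ _ _ _ _ g h)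
  exact ⟨g1.swapPairs, hq.swapPairs _ _ _ _ _ g1 s1⟩

lemma rep4 (hq : Quart Ln Sp) {x a b c d d' : P} (g : GP Ln x a b c d) (hd' : d' ≠ x) {m : Ln}
    (h1 : x ∈ m) (h2 : d ∈ m) (h3 : d' ∈ m) (h : Sp x a b c d) :
    GP Ln x a b c d' ∧ Sp x a b c d' := by
  obtain ⟨g1, s1⟩ := rep2 hq g.swapPairs hd' h1 h2 h3 (hq.swapPairs _ _ _ _ _ g h)
  exact ⟨g1.swapPairs, hq.swapPairs _ _ _ _ _ g1 s1⟩

/-- existence of the projection -/
lemma exists_prj (x : P) (l : Ln) (p : P) : ∃ r : P, r ∈ l ∧ (p ≠ x → ∃ m : Ln, x ∈ m ∧ p ∈ m ∧ r ∈ m) := by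
  by_cases hpx : p = x
  · obtain ⟨p₁, p₂, p₃, l₁, l₂, l₃, h₁₂, h₁₃, h₂₁, h₂₂, h₂₃, h₃₁, h₃₂, h₃₃⟩ :=
      @ProjectivePlane.exists_config P Ln _ _
    by_cases hl : l = l₂
    · exact ⟨p₂, hl ▸ h₂₂, fun h => absurd hpx h⟩
    · obtain ⟨r, hr, -⟩ := pl_meet (P := P) l l₂ hl
      exact ⟨r, hr, fun h => absurd hpx h⟩
  · obtain ⟨m, h1, h2⟩ := pl_join (Ln := Ln) x p (Ne.symm hpx)
    by_cases hml : m = l
    · exact ⟨p, hml ▸ h2, fun _ => ⟨m, h1, h2, h2⟩⟩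
    · obtain ⟨r, hr1, hr2⟩ := pl_meet (P := P) m l hml
      exact ⟨r, hr2, fun _ => ⟨m, h1, h2, hr1⟩⟩

/-- projection from `x` to the line `l` -/
noncomputable def prj (x : P) (l : Ln) (p : P) : P := (exists_prj x l p).choose

lemma prj_mem (x : P) (l : Ln) (p : P) : prj x l p ∈ l := (exists_prj x l p).choose_spec.1

lemma prj_line {x p : P} (l : Ln) (h : p ≠ x) : ∃ m : Ln, x ∈ m ∧ p ∈ m ∧ prj x l p ∈ m :=
  (exists_prj x l p).choose_spec.2 h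

lemma ne_of_mem_notMem {l : Ln} {x p : P} (hx : x ∉ l) (hp : p ∈ l) : p ≠ x := by
  rintro rfl; exact hx hp

lemma prj_eq {x p r : P} {l : Ln} {m : Ln} (hx : x ∉ l) (hpx : p ≠ x) (h1 : x ∈ m) (h2 : p ∈ m)
    (h3 : r ∈ m) (h4 : r ∈ l) : prj x l p = r := by
  obtain ⟨k, h5, h6, h7⟩ := prj_line l hpx
  have : k = m := pl_line hpx h6 h5 h2 h1
  subst this
  exact pl_point (l := k) (m := l) (by rintro rfl; exact hx h1) h7 h3 (prj_mem x l p) h4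

lemma prj_inj {x p q : P} {l l' : Ln} (hx : x ∉ l) (hx' : x ∉ l') (hp : p ∈ l) (hq : q ∈ l)
    (h : prj x l' p = prj x l' q) : p = q := by
  obtain ⟨m, h1, h2, h3⟩ := prj_line l' (ne_of_mem_notMem hx hp)
  obtain ⟨m', h1', h2', h3'⟩ := prj_line l' (ne_of_mem_notMem hx hq)
  have hr : prj x l' p ≠ x := ne_of_mem_notMem hx' (prj_mem x l' p)
  rw [← h] at h3'
  have : m' = m := pl_line hr h3' h1' h3 h1
  subst this
  exact pl_point (l := m') (m := l) (by rintro rfl; exact hx h1) h2 h2' hp hq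

/-- quartets are preserved by perspectivities -/
lemma persp (hq : Quart Ln Sp) {x a b c d : P} (l' : Ln) (hx' : x ∉ l')
    (g : GP Ln x a b c d) (ha : a ≠ x) (hb : b ≠ x) (hc : c ≠ x) (hd : d ≠ x)
    (h : Sp x a b c d) :
    GP Ln x (prj x l' a) (prj x l' b) (prj x l' c) (prj x l' d) ∧
      Sp x (prj x l' a) (prj x l' b) (prj x l' c) (prj x l' d) := by
  have hne : ∀ p, prj x l' p ≠ x := fun p => ne_of_mem_notMem hx' (prj_mem x l' p)
  obtain ⟨m1, a1, a2, a3⟩ := prj_line l' ha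
  obtain ⟨m2, b1, b2, b3⟩ := prj_line l' hb
  obtain ⟨m3, c1, c2, c3⟩ := prj_line l' hc
  obtain ⟨m4, d1, d2, d3⟩ := prj_line l' hd
  obtain ⟨g1, s1⟩ := rep1 hq g (hne a) a1 a2 a3 h
  obtain ⟨g2, s2⟩ := rep2 hq g1 (hne b) b1 b2 b3 s1
  obtain ⟨g3, s3⟩ := rep3 hq g2 (hne c) c1 c2 c3 s2
  exact rep4 hq g3 (hne d) d1 d2 d3 s3

/-- quartets on a line are preserved by a product of two perspectivities -/
lemma two_persp (hq : Quart Ln Sp) {l l' : Ln} {x x1 y1 : P} (hx : x ∉ l) (hx1 : x1 ∉ l)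
    (hx1' : x1 ∉ l') (hy1 : y1 ∉ l) (hy1' : y1 ∉ l') {a b c d : P} (ha : a ∈ l) (hb : b ∈ l)
    (hc : c ∈ l) (hd : d ∈ l) (nab : a ≠ b) (nac : a ≠ c) (nad : a ≠ d) (nbc : b ≠ c)
    (nbd : b ≠ d) (ncd : c ≠ d) (h : Sp x a b c d) :
    Sp x (prj y1 l (prj x1 l' a)) (prj y1 l (prj x1 l' b)) (prj y1 l (prj x1 l' c))
      (prj y1 l (prj x1 l' d)) := by
  have h1 := hq.mov l x x1 a b c d ha hb hc hd nab nac nad nbc nbd ncd hx hx1 h
  have g1 := gp_of_line hx1 ha hb hc hd nab nac nad nbc nbd ncd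
  obtain ⟨g2, h2⟩ := persp hq l' hx1' g1 (ne_of_mem_notMem hx1 ha) (ne_of_mem_notMem hx1 hb)
    (ne_of_mem_notMem hx1 hc) (ne_of_mem_notMem hx1 hd) h1
  have m := prj_mem x1 l'
  have h3 := hq.mov l' x1 y1 _ _ _ _ (m a) (m b) (m c) (m d) g2.ab.ne_right g2.ac.ne_right
    g2.ad.ne_right g2.bc.ne_right g2.bd.ne_right g2.cd.ne_right hx1' hy1' h2
  have g3 := gp_of_line hy1' (m a) (m b) (m c) (m d) g2.ab.ne_right g2.ac.ne_right
    g2.ad.ne_right g2.bc.ne_right g2.bd.ne_right g2.cd.ne_right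
  obtain ⟨g4, h4⟩ := persp hq l hy1 g3 (ne_of_mem_notMem hy1' (m a))
    (ne_of_mem_notMem hy1' (m b)) (ne_of_mem_notMem hy1' (m c)) (ne_of_mem_notMem hy1' (m d)) h3
  have m' := prj_mem y1 l
  exact hq.mov l y1 x _ _ _ _ (m' _) (m' _) (m' _) (m' _) g4.ab.ne_right g4.ac.ne_right
    g4.ad.ne_right g4.bc.ne_right g4.bd.ne_right g4.cd.ne_right hy1 hx h4

/-- a projectivity of the line `l` fixing `a` and mapping `b` to `c` -/
lemma exists_centres [Finite P] [Finite Ln] {l : Ln} {a b c p0 : P} (ha : a ∈ l) (hb : b ∈ l)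
    (hc : c ∈ l) (hp0 : p0 ∈ l) (nab : a ≠ b) (nac : a ≠ c) (nap : a ≠ p0)
    (nbp : b ≠ p0) (ncp : c ≠ p0) :
    ∃ (l' : Ln) (x1 y1 : P), x1 ∉ l ∧ x1 ∉ l' ∧ y1 ∉ l ∧ y1 ∉ l' ∧
      prj y1 l (prj x1 l' a) = a ∧ prj y1 l (prj x1 l' b) = c := by
  obtain ⟨r, hr⟩ := Nondegenerate.exists_point (P := P) l
  have hrp : p0 ≠ r := by rintro rfl; exact hr hp0
  obtain ⟨l', hp0', hr'⟩ := pl_join (Ln := Ln) p0 r hrp
  have hll : l ≠ l' := by rintro rfl; exact hr hr'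
  have honly : ∀ t, t ∈ l → t ∈ l' → t = p0 := fun t h1 h2 => pl_point hll h1 hp0 h2 hp0'
  obtain ⟨r2, hr2l', hr2p, hr2r⟩ : ∃ r2 : P, r2 ∈ l' ∧ r2 ≠ p0 ∧ r2 ≠ r := by
    have h2 := ProjectivePlane.two_lt_pointCount P l'
    have h3 : ({p0, r} : Set P).ncard < {p : P | p ∈ l'}.ncard := by
      have h4 : ({p0, r} : Set P).ncard ≤ 2 := by
        have := Set.ncard_insert_le p0 ({r} : Set P)
        rw [Set.ncard_singleton] at this
        exact this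
      have h5 : {p : P | p ∈ l'}.ncard = pointCount P l' := rfl
      omega
    obtain ⟨r2, h4, h5⟩ := Set.exists_mem_notMem_of_ncard_lt_ncard h3
    refine ⟨r2, h4, ?_, ?_⟩
    · rintro rfl; exact h5 (Or.inl rfl)
    · rintro rfl; exact h5 (Or.inr rfl)
  have hr2 : r2 ∉ l := fun h => hr2p (honly r2 h hr2l')
  have hal' : a ∉ l' := fun h => nap (honly a ha h)
  have hbl' : b ∉ l' := fun h => nbp (honly b hb h)
  have hcl' : c ∉ l' := fun h => ncp (honly c hc h)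
  have har : a ≠ r := by rintro rfl; exact hr ha
  have hbr : b ≠ r2 := by rintro rfl; exact hr2 hb
  have hcr : c ≠ r2 := by rintro rfl; exact hr2 hc
  obtain ⟨m1, a1, a2⟩ := pl_join (Ln := Ln) a r har
  obtain ⟨m2, b1, b2⟩ := pl_join (Ln := Ln) b r2 hbr
  obtain ⟨m3, c1, c2⟩ := pl_join (Ln := Ln) c r2 hcr
  have hm1l : m1 ≠ l := by rintro rfl; exact hr a2
  have hm2l : m2 ≠ l := by rintro rfl; exact hr2 b2
  have hm3l : m3 ≠ l := by rintro rfl; exact hr2 c2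
  have hm1l' : m1 ≠ l' := by rintro rfl; exact hal' a1
  have hm2l' : m2 ≠ l' := by rintro rfl; exact hbl' b1
  have hm3l' : m3 ≠ l' := by rintro rfl; exact hcl' c1
  have hm12 : m1 ≠ m2 := by
    rintro rfl
    exact hm1l (pl_line nab a1 b1 ha hb)
  have hm13 : m1 ≠ m3 := by
    rintro rfl
    exact hm1l (pl_line nac a1 c1 ha hc)
  obtain ⟨x1, hx1, hx2⟩ := pl_meet (P := P) m1 m2 hm12
  obtain ⟨y1, hy1, hy3⟩ := pl_meet (P := P) m1 m3 hm13
  have hx1l : x1 ∉ l := by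
    intro h
    have e1 : x1 = a := pl_point hm1l hx1 a1 h ha
    have e2 : x1 = b := pl_point hm2l hx2 b1 h hb
    exact nab (e1.symm.trans e2)
  have hx1l' : x1 ∉ l' := by
    intro h
    have e1 : x1 = r := pl_point hm1l' hx1 a2 h hr'
    have e2 : x1 = r2 := pl_point hm2l' hx2 b2 h hr2l'
    exact hr2r (e2.symm.trans e1)
  have hy1l : y1 ∉ l := by
    intro h
    have e1 : y1 = a := pl_point hm1l hy1 a1 h ha
    have e2 : y1 = c := pl_point hm3l hy3 c1 h hc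
    exact nac (e1.symm.trans e2)
  have hy1l' : y1 ∉ l' := by
    intro h
    have e1 : y1 = r := pl_point hm1l' hy1 a2 h hr'
    have e2 : y1 = r2 := pl_point hm3l' hy3 c2 h hr2l'
    exact hr2r (e2.symm.trans e1)
  refine ⟨l', x1, y1, hx1l, hx1l', hy1l, hy1l', ?_, ?_⟩
  · rw [prj_eq hx1l' (ne_of_mem_notMem hx1l ha) hx1 a1 a2 hr',
      prj_eq hy1l (ne_of_mem_notMem hy1l' hr') hy1 a2 a1 ha]
  · rw [prj_eq hx1l' (ne_of_mem_notMem hx1l hb) hx2 b1 b2 hr2l',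
      prj_eq hy1l (ne_of_mem_notMem hy1l' hr2l') hy3 c2 c1 hc]

/-- The splits of a line. -/
structure IsSplit (Sp : P → P → P → P → P → Prop) (l : Ln) (x : P) (A : Set P) : Prop where
  sub : ∀ p ∈ A, p ∈ l
  two : ∃ p p', p ∈ A ∧ p' ∈ A ∧ p ≠ p'
  two' : ∃ s s', s ∈ l ∧ s ∉ A ∧ s' ∈ l ∧ s' ∉ A ∧ s ≠ s'
  sp : ∀ p p' s s', p ∈ A → p' ∈ A → s ∈ l → s ∉ A → s' ∈ l → s' ∉ A → p ≠ p' → s ≠ s' →
    Sp x p p' s s'

lemma IsSplit.compl (hq : Quart Ln Sp) {l : Ln} {x : P} (hx : x ∉ l) {A : Set P}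
    (h : IsSplit Sp l x A) : IsSplit Sp l x {p | p ∈ l ∧ p ∉ A} where
  sub := fun p hp => hp.1
  two := by
    obtain ⟨s, s', h1, h2, h3, h4, h5⟩ := h.two'
    exact ⟨s, s', ⟨h1, h2⟩, ⟨h3, h4⟩, h5⟩
  two' := by
    obtain ⟨p, p', h1, h2, h3⟩ := h.two
    exact ⟨p, p', h.sub p h1, fun h' => h'.2 h1, h.sub p' h2, fun h' => h'.2 h2, h3⟩
  sp := by
    intro p p' s s' hp hp' hs hsA hs' hsA' hpp hss
    have hsA2 : s ∈ A := by
      by_contra h'; exact hsA ⟨hs, h'⟩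
    have hsA2' : s' ∈ A := by
      by_contra h'; exact hsA' ⟨hs', h'⟩
    have n1 : s ≠ p := by rintro rfl; exact hp.2 hsA2
    have n2 : s ≠ p' := by rintro rfl; exact hp'.2 hsA2
    have n3 : s' ≠ p := by rintro rfl; exact hp.2 hsA2'
    have n4 : s' ≠ p' := by rintro rfl; exact hp'.2 hsA2'
    exact hq.swapPairs _ _ _ _ _ (gp_of_line hx hs hs' hp.1 hp'.1 hss n1 n2 n3 n4 hpp)
      (h.sp s s' p p' hsA2 hsA2' hp.1 hp.2 hp'.1 hp'.2 hss hpp)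

lemma no_isSplit [Finite P] [Finite Ln] (hq : Quart Ln Sp) {l : Ln} {x : P} (hx : x ∉ l) :
    ¬ ∃ A, IsSplit Sp l x A := by
  classical
  rintro hex
  obtain ⟨A, hA, hmin⟩ := Set.exists_min_image {A | IsSplit Sp l x A} Set.ncard (Set.toFinite _) hex
  have hA : IsSplit Sp l x A := hA
  have hcompl : A.ncard ≤ {p | p ∈ l ∧ p ∉ A}.ncard := hmin _ (hA.compl hq hx)
  have hcard : {p : P | p ∈ l}.ncard = A.ncard + {p | p ∈ l ∧ p ∉ A}.ncard := by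
    have h1 : {p : P | p ∈ l} = A ∪ {p | p ∈ l ∧ p ∉ A} := by
      ext p
      constructor
      · intro hp
        by_cases hpA : p ∈ A
        · exact Or.inl hpA
        · exact Or.inr ⟨hp, hpA⟩
      · rintro (hp | hp)
        · exact hA.sub p hp
        · exact hp.1
    rw [h1, Set.ncard_union_eq ?_ (Set.toFinite _) (Set.toFinite _)]
    rw [Set.disjoint_left]
    intro p hp hp'
    exact hp'.2 hp
  obtain ⟨a0, b0, ha0, hb0, nab⟩ := hA.two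
  obtain ⟨c0, p0, hc0l, hc0, hp0l, hp0, ncp⟩ := hA.two'
  have ha0l := hA.sub _ ha0
  have hb0l := hA.sub _ hb0
  have nac : a0 ≠ c0 := by rintro rfl; exact hc0 ha0
  have nap : a0 ≠ p0 := by rintro rfl; exact hp0 ha0
  have nbp : b0 ≠ p0 := by rintro rfl; exact hp0 hb0
  obtain ⟨l', x1, y1, hx1, hx1', hy1, hy1', hga, hgb⟩ :=
    exists_centres ha0l hb0l hc0l hp0l nab nac nap nbp ncp
  set g : P → P := fun p => prj y1 l (prj x1 l' p) with hg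
  have hgl : ∀ p, g p ∈ l := fun p => prj_mem _ _ _
  have hginj : ∀ p q, p ∈ l → q ∈ l → g p = g q → p = q := by
    intro p q hp hq' h
    exact prj_inj hx1 hx1' hp hq' (prj_inj hy1' hy1 (prj_mem _ _ _) (prj_mem _ _ _) h)
  have hgsurj : ∀ t, t ∈ l → ∃ s, s ∈ l ∧ g s = t := by
    have hinjOn : Set.InjOn g {p : P | p ∈ l} := fun p hp q hq' h => hginj p q hp hq' h
    have himg : g '' {p : P | p ∈ l} = {p : P | p ∈ l} := by
      apply Set.eq_of_subset_of_ncard_le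
      · rintro _ ⟨p, -, rfl⟩; exact hgl p
      · rw [Set.ncard_image_of_injOn hinjOn]
      · exact Set.toFinite _
    intro t ht
    have : t ∈ g '' {p : P | p ∈ l} := by rw [himg]; exact ht
    obtain ⟨s, hs, hst⟩ := this
    exact ⟨s, hs, hst⟩
  set A' : Set P := g '' A with hA'
  have hA'card : A'.ncard = A.ncard :=
    Set.ncard_image_of_injOn (fun p hp q hq' h => hginj p q (hA.sub p hp) (hA.sub q hq') h)
  have ha0' : a0 ∈ A' := ⟨a0, ha0, hga⟩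
  have hc0' : c0 ∈ A' := ⟨b0, hb0, hgb⟩
  have hsp' : ∀ q q' t t', q ∈ A' → q' ∈ A' → t ∈ l → t ∉ A' → t' ∈ l → t' ∉ A' → q ≠ q' →
      t ≠ t' → Sp x q q' t t' := by
    rintro _ _ t t' ⟨p, hp, rfl⟩ ⟨p', hp', rfl⟩ ht htA ht' htA' hqq htt
    obtain ⟨s, hs, rfl⟩ := hgsurj t ht
    obtain ⟨s', hs', rfl⟩ := hgsurj t' ht'
    have hsA : s ∉ A := fun h => htA ⟨s, h, rfl⟩
    have hsA' : s' ∉ A := fun h => htA' ⟨s', h, rfl⟩
    have n0 : p ≠ p' := by rintro rfl; exact hqq rfl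
    have n1 : s ≠ s' := by rintro rfl; exact htt rfl
    have n2 : p ≠ s := by rintro rfl; exact hsA hp
    have n3 : p ≠ s' := by rintro rfl; exact hsA' hp
    have n4 : p' ≠ s := by rintro rfl; exact hsA hp'
    have n5 : p' ≠ s' := by rintro rfl; exact hsA' hp'
    exact two_persp hq hx hx1 hx1' hy1 hy1' (hA.sub p hp) (hA.sub p' hp') hs hs' n0 n2 n3 n4 n5 n1
      (hA.sp p p' s s' hp hp' hs hsA hs' hsA' n0 n1)
  -- an element of `A` not in `A'`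
  obtain ⟨e0, he0, he0'⟩ : ∃ e0 ∈ A, e0 ∉ A' := by
    by_contra hcon
    push Not at hcon
    have : A = A' := Set.eq_of_subset_of_ncard_le hcon hA'card.le (Set.toFinite _)
    exact hc0 (this ▸ hc0')
  -- an element outside of both
  obtain ⟨f0, hf0l, hf0, hf0'⟩ : ∃ f0, f0 ∈ l ∧ f0 ∉ A ∧ f0 ∉ A' := by
    have h1 := Set.ncard_union_add_ncard_inter A A' (Set.toFinite _) (Set.toFinite _)
    have h2 : 0 < (A ∩ A').ncard := (Set.ncard_pos (Set.toFinite _)).mpr ⟨a0, ha0, ha0'⟩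
    have h3 : (A ∪ A').ncard < {p : P | p ∈ l}.ncard := by omega
    obtain ⟨f0, h4, h5⟩ := Set.exists_mem_notMem_of_ncard_lt_ncard h3
    exact ⟨f0, h4, fun h => h5 (Or.inl h), fun h => h5 (Or.inr h)⟩
  have nae : a0 ≠ e0 := by rintro rfl; exact he0' ha0'
  have ncf : c0 ≠ f0 := by rintro rfl; exact hf0' hc0'
  have nef : e0 ≠ f0 := by rintro rfl; exact hf0 he0
  have nec : e0 ≠ c0 := by rintro rfl; exact hc0 he0
  have naf : a0 ≠ f0 := by rintro rfl; exact hf0 ha0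
  have hQ1 : Sp x a0 e0 c0 f0 := hA.sp a0 e0 c0 f0 ha0 he0 hc0l hc0 hf0l hf0 nae ncf
  have hQ2 : Sp x a0 c0 e0 f0 := hsp' a0 c0 e0 f0 ha0' hc0' (hA.sub _ he0) he0' hf0l hf0' nac nef
  exact hq.excl x a0 e0 c0 f0
    (gp_of_line hx ha0l (hA.sub _ he0) hc0l hf0l nae nac naf nec nef ncf) hQ1 hQ2

/-- **There are no quartets.** -/
theorem no_quartet [Finite P] [Finite Ln] (hq : Quart Ln Sp) {x a b c d : P}
    (g : GP Ln x a b c d) : ¬ Sp x a b c d := by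
  intro h
  obtain ⟨l, hl⟩ := Nondegenerate.exists_line (P := P) (L := Ln) x
  have hne : ∀ p q, NC Ln x p q → p ≠ x := by
    intro p q hpq hpx
    by_cases hxq : x = q
    · subst hpx
      exact hpq.ne_right hxq
    · obtain ⟨m, h1, h2⟩ := pl_join (Ln := Ln) x q hxq
      exact hpq m h1 (hpx ▸ h1) h2
  obtain ⟨g', h'⟩ := persp hq l hl g (hne a b g.ab) (hne b c g.bc) (hne c d g.cd)
    (hne d c g.cd.symm) h
  have m := prj_mem (Ln := Ln) x l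
  obtain ⟨A, hA1, hA2, hA3⟩ := hq.cls l x _ _ _ _ (m a) (m b) (m c) (m d) g'.ab.ne_right
    g'.ac.ne_right g'.ad.ne_right g'.bc.ne_right g'.bd.ne_right g'.cd.ne_right hl h'
  refine no_isSplit hq hl ⟨A, hA1, ?_, ?_, hA3⟩
  · rcases hA2 with ⟨h1, h2, h3, h4⟩ | ⟨h1, h2, h3, h4⟩
    · exact ⟨_, _, h1, h2, g'.ab.ne_right⟩
    · exact ⟨_, _, h1, h2, g'.cd.ne_right⟩
  · rcases hA2 with ⟨h1, h2, h3, h4⟩ | ⟨h1, h2, h3, h4⟩
    · exact ⟨_, _, m c, h3, m d, h4, g'.cd.ne_right⟩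
    · exact ⟨_, _, m a, h3, m b, h4, g'.ab.ne_right⟩

end Pool.Agent.MP_da28a5_co
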