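import Mathlib
import Pool.Agent.Lib.MP_da28a5_co.Cls
import Pool.Agent.Lib.MP_da28a5_co.PlaneLemma

/-!
# Octahedra in an embedded projective plane are not split
-/

namespace Pool.Agent.MP_da28a5_co

open Configuration

variable {α : Type} {M : Matroid α} {P Ln : Type} [Membership P Ln]

/-- `ι` embeds a projective plane in `M / J`. -/
structure Emb (M : Matroid α) (J : Set α) (Ln : Type) [Membership P Ln] (ι : P → α) : Prop where
  inj : Function.Injective ι
  notJ : ∀ p, ι p ∉ J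
  base : ∀ p q s, M.IsBase (insert (ι p) J ∪ {ι q, ι s}) ↔ NC Ln p q s
  dep : ∀ B, M.IsBase B → J ⊆ B → ∀ p q s, p ≠ q → p ≠ s → q ≠ s → ι p ∈ B → ι q ∈ B →
    ι s ∈ B → NC Ln p q s

variable {J : Set α} {ι : P → α} [ProjectivePlane P Ln]

lemma NC.ne_left {x a b : P} (h : NC Ln x a b) : a ≠ x := by
  rintro rfl
  by_cases hxb : a = b
  · exact h.ne_right hxb
  · obtain ⟨m, h1, h2⟩ := pl_join (Ln := Ln) a b hxb
    exact h m h1 h1 h2

lemma Emb.oct (E : Emb M J Ln ι) {x a b c d : P} (g : GP Ln x a b c d) :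
    Oct M (insert (ι x) J) (ι a) (ι b) (ι c) (ι d) where
  ab := (E.base _ _ _).mpr g.ab
  ac := (E.base _ _ _).mpr g.ac
  ad := (E.base _ _ _).mpr g.ad
  bc := (E.base _ _ _).mpr g.bc
  bd := (E.base _ _ _).mpr g.bd
  cd := (E.base _ _ _).mpr g.cd
  nab := fun h => g.ab.ne_right (E.inj h)
  nac := fun h => g.ac.ne_right (E.inj h)
  nad := fun h => g.ad.ne_right (E.inj h)
  nbc := fun h => g.bc.ne_right (E.inj h)
  nbd := fun h => g.bd.ne_right (E.inj h)
  ncd := fun h => g.cd.ne_right (E.inj h)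
  aI := by
    rintro (h | h)
    · exact g.ab.ne_left (E.inj h)
    · exact E.notJ _ h
  bI := by
    rintro (h | h)
    · exact g.bc.ne_left (E.inj h)
    · exact E.notJ _ h
  cI := by
    rintro (h | h)
    · exact g.cd.ne_left (E.inj h)
    · exact E.notJ _ h
  dI := by
    rintro (h | h)
    · exact g.cd.symm.ne_left (E.inj h)
    · exact E.notJ _ h

variable [Fintype α] {S : Set (Set (α → ℝ))}

lemma Emb.quart (hS : IsMatroidSubdivision M S) (E : Emb M J Ln ι) :
    Quart Ln (fun x a b c d => Split S (insert (ι x) J) (ι a) (ι b) (ι c) (ι d)) where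
  swap12 := fun x a b c d _ h => h.swap12
  swapPairs := fun x a b c d g h => h.swapPairs hS (E.oct g)
  excl := fun x a b c d g h => h.excl hS (E.oct g)
  par := by
    intro x a a' b c d g g' hn h
    by_cases haa : a = a'
    · subst haa; exact h
    · refine h.par hS ⟨E.oct g, E.oct g', fun h' => haa (E.inj h'), ?_⟩
      rw [E.base]
      exact hn
  mov := by
    intro l x y a b c d ha hb hc hd nab nac nad nbc nbd ncd hx hy h
    by_cases hxy : x = y
    · subst hxy; exact h
    · have g := gp_of_line hx ha hb hc hd nab nac nad nbc nbd ncd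
      have g' := gp_of_line hy ha hb hc hd nab nac nad nbc nbd ncd
      refine h.mov hS ⟨E.oct g, E.oct g', fun h' => hxy (E.inj h'), E.notJ x, E.notJ y, ?_⟩
      have hmem : ∀ p, p ∈ ({ι a, ι b, ι c, ι d} : Set α) → ∃ t : P, t ∈ l ∧ ι t = p := by
        rintro p (rfl | rfl | rfl | rfl)
        · exact ⟨a, ha, rfl⟩
        · exact ⟨b, hb, rfl⟩
        · exact ⟨c, hc, rfl⟩
        · exact ⟨d, hd, rfl⟩
      intro B hB hJ p q s hp hq hs npq nps nqs hpB hqB hsB
      obtain ⟨p', hp'l, rfl⟩ := hmem p hp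
      obtain ⟨q', hq'l, rfl⟩ := hmem q hq
      obtain ⟨s', hs'l, rfl⟩ := hmem s hs
      exact E.dep B hB hJ p' q' s' (fun h' => npq (by rw [h'])) (fun h' => nps (by rw [h']))
        (fun h' => nqs (by rw [h'])) hpB hqB hsB l hp'l hq'l hs'l
  cls := by
    intro l x a b c d ha hb hc hd nab nac nad nbc nbd ncd hx h
    have hL : LineSet M (insert (ι x) J) (ι '' {p : P | p ∈ l}) := by
      constructor
      · rintro _ _ ⟨p, hp, rfl⟩ ⟨q, hq, rfl⟩ hne
        rw [E.base]
        exact nc_of_line hx hp hq (fun h' => hne (by rw [h']))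
      · rintro _ ⟨p, hp, rfl⟩ (h' | h')
        · have := E.inj h'
          subst this
          exact hx hp
        · exact E.notJ _ h'
    have g := gp_of_line hx ha hb hc hd nab nac nad nbc nbd ncd
    obtain ⟨A, hA1, hA2, hA3⟩ := h.cls hS hL ⟨a, ha, rfl⟩ ⟨b, hb, rfl⟩ ⟨c, hc, rfl⟩ ⟨d, hd, rfl⟩
      (E.oct g)
    refine ⟨{p | ι p ∈ A}, ?_, hA2, ?_⟩
    · intro p hp
      obtain ⟨q, hq, hqp⟩ := hA1 hp
      rw [← E.inj hqp]
      exact hq
    · intro p p' s s' hp hp' hs hsA hs' hsA' hpp hss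
      exact hA3 _ _ _ _ hp hp' ⟨s, hs, rfl⟩ hsA ⟨s', hs', rfl⟩ hsA'
        (fun h' => hpp (E.inj h')) (fun h' => hss (E.inj h'))

/-- **No octahedron of an embedded projective plane is split.** -/
theorem Emb.no_split [Finite P] [Finite Ln] (hS : IsMatroidSubdivision M S) (E : Emb M J Ln ι)
    {x a b c d : P} (g : GP Ln x a b c d) :
    ¬ Split S (insert (ι x) J) (ι a) (ι b) (ι c) (ι d) :=
  no_quartet (E.quart hS) g

end Pool.Agent.MP_da28a5_co
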