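import Mathlib
import Pool.Agent.Lib.MP_da28a5_co.Defs
import Pool.Agent.Lib.MP_da28a5_co.Link

/-!
# Projective geometries: bases, and planes in contractions
-/

namespace Pool.Agent.MP_da28a5_co

open scoped LinearAlgebra.Projectivization
open Configuration Projectivization

section bases

variable {K V : Type} [Field K] [AddCommGroup V] [Module K V] [Finite (ℙ K V)]

lemma pg_indep_of_base {B : Set (ℙ K V)} (h : (PG K V).IsBase B) :
    LinearIndepOn K Projectivization.rep B := h.indep

lemma pg_span_of_base {B : Set (ℙ K V)} (h : (PG K V).IsBase B) :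
    Submodule.span K (Projectivization.rep '' B) = ⊤ := by
  rw [eq_top_iff]
  intro v _
  by_contra hv
  have hv0 : v ≠ 0 := by
    rintro rfl
    exact hv (Submodule.zero_mem _)
  have hrep : (Projectivization.mk K v hv0).rep ∉
      Submodule.span K (Projectivization.rep '' B) := by
    obtain ⟨a, ha⟩ := Projectivization.exists_smul_eq_mk_rep K v hv0
    rw [← ha]
    intro h'
    apply hv
    have := Submodule.smul_mem (Submodule.span K (Projectivization.rep '' B))
      ((a⁻¹ : Kˣ) : K) h'
    rwa [← Units.smul_def, inv_smul_smul] at this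
  have hind : (PG K V).Indep (insert (Projectivization.mk K v hv0) B) :=
    (pg_indep_of_base h).insert hrep
  have := h.eq_of_subset_indep hind (Set.subset_insert _ _)
  apply hrep
  apply Submodule.subset_span
  refine ⟨_, ?_, rfl⟩
  rw [this]
  exact Set.mem_insert _ _

lemma finrank_span_of_indep {B : Set (ℙ K V)} (h : LinearIndepOn K Projectivization.rep B) :
    Module.finrank K (Submodule.span K (Projectivization.rep '' B : Set V)) = B.ncard := by
  have hf : B.Finite := B.toFinite
  have := hf.fintype
  have h2 : LinearIndependent K (fun x : B => Projectivization.rep (x : ℙ K V)) := h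
  have h3 := finrank_span_eq_card h2
  rw [← Set.image_eq_range] at h3
  rw [h3, Set.ncard_eq_toFinset_card', Set.toFinset_card]

lemma pg_ncard_of_base {B : Set (ℙ K V)} (h : (PG K V).IsBase B) :
    B.ncard = Module.finrank K V := by
  rw [← finrank_span_of_indep (pg_indep_of_base h), pg_span_of_base h, finrank_top]

lemma pg_base_of_span [Module.Finite K V] {T : Set (ℙ K V)}
    (hs : Submodule.span K (Projectivization.rep '' T) = ⊤)
    (hc : T.ncard ≤ Module.finrank K V) : (PG K V).IsBase T := by
  have hf : T.Finite := T.toFinite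
  have := hf.fintype
  have hc' : Fintype.card T ≤ Module.finrank K V := by
    rwa [Set.ncard_eq_toFinset_card', Set.toFinset_card] at hc
  have hs' : ⊤ ≤ Submodule.span K (Set.range (fun x : T => Projectivization.rep (x : ℙ K V))) := by
    rw [← Set.image_eq_range, hs]
  have hge : Module.finrank K V ≤ Fintype.card T := by
    have := finrank_range_le_card (R := K) (fun x : T => Projectivization.rep (x : ℙ K V))
    rw [Set.finrank, ← Set.image_eq_range, hs, finrank_top] at this
    exact this
  have hind : LinearIndepOn K Projectivization.rep T :=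
    linearIndependent_of_top_le_span_of_card_eq_finrank hs' (le_antisymm hc' hge)
  rw [Matroid.isBase_iff_maximal_indep]
  refine ⟨hind, ?_⟩
  intro I hI hTI e he
  by_contra heT
  have h1 : LinearIndepOn K Projectivization.rep (insert e T) :=
    (show LinearIndepOn K Projectivization.rep I from hI).mono
      (Set.insert_subset he hTI)
  have h2 := h1.notMem_span_of_insert heT
  rw [hs] at h2
  exact h2 trivial

end bases

section plane

variable {K : Type} [Field K]

lemma nc_iff_span {u v w : Fin 3 → K} (hu : u ≠ 0) (hv : v ≠ 0) (hw : w ≠ 0) :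
    NC (ℙ K (Fin 3 → K)) (Projectivization.mk K u hu) (Projectivization.mk K v hv)
      (Projectivization.mk K w hw) ↔ Submodule.span K {u, v, w} = ⊤ := by
  constructor
  · intro h
    by_contra hne
    obtain ⟨f, hf0, hf⟩ := Submodule.exists_le_ker_of_lt_top _ (lt_top_iff_ne_top.mpr hne)
    let z : Fin 3 → K := fun i => f (Pi.single i 1)
    have hz : ∀ x, x ⬝ᵥ z = f x := by
      intro x
      rw [LinearMap.pi_apply_eq_sum_univ f x]
      simp only [dotProduct, z, smul_eq_mul]
      refine Finset.sum_congr rfl fun i _ => ?_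
      congr 2
      ext j
      simp [Pi.single_apply, eq_comm]
    have hz0 : z ≠ 0 := by
      intro h0
      apply hf0
      ext x
      simp only [LinearMap.coe_comp, Function.comp_apply, LinearMap.zero_apply]
      exact congrFun h0 x
    have hmem : ∀ x ∈ ({u, v, w} : Set (Fin 3 → K)), x ⬝ᵥ z = 0 := by
      intro x hx
      rw [hz]
      exact hf (Submodule.subset_span hx)
    refine h (Projectivization.mk K z hz0) ?_ ?_ ?_
    · rw [ofField.mem_iff, Projectivization.orthogonal_mk]
      exact hmem u (by simp)
    · rw [ofField.mem_iff, Projectivization.orthogonal_mk]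
      exact hmem v (by simp)
    · rw [ofField.mem_iff, Projectivization.orthogonal_mk]
      exact hmem w (by simp)
  · intro h l h1 h2 h3
    induction l with | h z hz =>
    rw [ofField.mem_iff, Projectivization.orthogonal_mk] at h1 h2 h3
    apply hz
    have key : ∀ x ∈ Submodule.span K ({u, v, w} : Set (Fin 3 → K)), x ⬝ᵥ z = 0 := by
      intro x hx
      induction hx using Submodule.span_induction with
      | mem x hx =>
        rcases hx with rfl | rfl | rfl
        · exact h1
        · exact h2
        · exact h3
      | zero => exact zero_dotProduct z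
      | add x y _ _ hx hy => rw [add_dotProduct, hx, hy, add_zero]
      | smul a x _ hx => rw [smul_dotProduct, hx, smul_zero]
    rw [h] at key
    ext i
    have := key (Pi.single i 1) trivial
    simpa using this

end plane

section link

variable {K V : Type} [Field K] [AddCommGroup V] [Module K V]

/-- the span of `J ∪ T` is everything iff the image of `T` spans the quotient -/
lemma span_union_eq_top_iff {g : V →ₗ[K] (Fin 3 → K)} (hg : Function.Surjective g)
    {J : Set V} (hk : LinearMap.ker g = Submodule.span K J) (T : Set V) :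
    Submodule.span K (J ∪ T) = ⊤ ↔ Submodule.span K (g '' T) = ⊤ := by
  have h1 : Submodule.span K (J ∪ T) = Submodule.comap g (Submodule.span K (g '' T)) := by
    rw [← Submodule.map_span, Submodule.comap_map_eq, hk, Submodule.span_union, sup_comm]
  rw [h1]
  constructor
  · intro h
    apply Submodule.comap_injective_of_surjective hg
    rw [h, Submodule.comap_top]
  · intro h
    rw [h, Submodule.comap_top]

variable [Finite (ℙ K V)] [Module.Finite K V]

/-- **No octahedron of a projective geometry of rank at least three is split.** -/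
theorem pg_no_split [Finite K] [Fintype (ℙ K V)] (h3 : 3 ≤ Module.finrank K V)
    {S : Set (Set (ℙ K V → ℝ))} (hS : IsMatroidSubdivision (PG K V) S)
    {I : Set (ℙ K V)} {a b c d : ℙ K V} (o : Oct (PG K V) I a b c d) :
    ¬ Split S I a b c d := by
  classical
  have hcI : I.ncard + 2 = Module.finrank K V := by
    rw [← pg_ncard_of_base o.ab]
    have e1 : I ∪ {a, b} = insert a (insert b I) := by
      ext y; simp only [Set.mem_union, Set.mem_insert_iff, Set.mem_singleton_iff]; tauto
    rw [e1, Set.ncard_insert_of_notMem, Set.ncard_insert_of_notMem o.bI]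
    rintro (h | h)
    · exact o.nab h
    · exact o.aI h
  have hIne : I.Nonempty := by
    rw [← Set.ncard_pos]
    omega
  obtain ⟨x, hxI⟩ := hIne
  set J : Set (ℙ K V) := I \ {x} with hJ
  have hIJ : insert x J = I := by
    rw [hJ, Set.insert_sdiff_singleton, Set.insert_eq_of_mem hxI]
  have hxJ : x ∉ J := fun h => h.2 rfl
  have hcJ : J.ncard + 3 = Module.finrank K V := by
    have : (insert x J).ncard = J.ncard + 1 := Set.ncard_insert_of_notMem hxJ
    rw [hIJ] at this
    omega
  have hindI : LinearIndepOn K Projectivization.rep (I ∪ {a, b}) := pg_indep_of_base o.ab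
  have hindJ : LinearIndepOn K Projectivization.rep J := by
    apply hindI.mono
    intro y hy
    exact Or.inl hy.1
  set W := Submodule.span K (Projectivization.rep '' J : Set V) with hW
  have hWr : Module.finrank K W = J.ncard := finrank_span_of_indep hindJ
  have hQ : Module.finrank K (V ⧸ W) = Module.finrank K (Fin 3 → K) := by
    have := Submodule.finrank_quotient_add_finrank W
    rw [Module.finrank_fin_fun]
    omega
  let e : (V ⧸ W) ≃ₗ[K] (Fin 3 → K) := LinearEquiv.ofFinrankEq _ _ hQ
  let g : V →ₗ[K] (Fin 3 → K) := e.toLinearMap ∘ₗ W.mkQ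
  have hgs : Function.Surjective g := by
    intro y
    obtain ⟨z, hz⟩ := e.surjective y
    obtain ⟨v, hv⟩ := W.mkQ_surjective z
    exact ⟨v, by simp only [g, LinearMap.comp_apply, hv]; exact hz⟩
  have hgk : LinearMap.ker g = W := by
    ext v
    simp [g]
  -- the points outside of the span of `J`
  have hgJ : ∀ y ∈ J, g y.rep = 0 := by
    intro y hy
    rw [← LinearMap.mem_ker, hgk]
    exact Submodule.subset_span ⟨y, hy, rfl⟩
  have hbase : ∀ y₁ y₂ y₃ : ℙ K V, ∀ (h₁ : g y₁.rep ≠ 0) (h₂ : g y₂.rep ≠ 0)
      (h₃ : g y₃.rep ≠ 0), ((PG K V).IsBase (insert y₁ J ∪ {y₂, y₃}) ↔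
      NC (ℙ K (Fin 3 → K)) (Projectivization.mk K _ h₁) (Projectivization.mk K _ h₂)
        (Projectivization.mk K _ h₃)) := by
    intro y₁ y₂ y₃ h₁ h₂ h₃
    rw [nc_iff_span]
    have e1 : (Projectivization.rep '' (insert y₁ J ∪ {y₂, y₃}) : Set V) =
        Projectivization.rep '' J ∪ {y₁.rep, y₂.rep, y₃.rep} := by
      rw [Set.image_union, Set.image_insert_eq, Set.image_pair]
      ext v
      simp only [Set.mem_union, Set.mem_insert_iff, Set.mem_singleton_iff]
      tauto
    have e2 : g '' {y₁.rep, y₂.rep, y₃.rep} = {g y₁.rep, g y₂.rep, g y₃.rep} := by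
      rw [Set.image_insert_eq, Set.image_pair]
    rw [← e2, ← span_union_eq_top_iff hgs hgk, ← e1]
    constructor
    · exact pg_span_of_base
    · intro h
      refine pg_base_of_span h ?_
      calc (insert y₁ J ∪ {y₂, y₃}).ncard ≤ (insert y₁ J).ncard + ({y₂, y₃} : Set _).ncard :=
            Set.ncard_union_le _ _
        _ ≤ (J.ncard + 1) + 2 := by
            have := Set.ncard_insert_le y₁ J
            have := Set.ncard_insert_le y₂ {y₃}
            rw [Set.ncard_singleton] at this
            omega
        _ = Module.finrank K V := by omega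
  -- the five points lie outside of the span of `J`
  have hgood : ∀ y : ℙ K V, y ∉ J → (∃ B, (PG K V).IsBase B ∧ J ⊆ B ∧ y ∈ B) → g y.rep ≠ 0 := by
    rintro y hy ⟨B, hB, hJB, hyB⟩ h0
    rw [← LinearMap.mem_ker, hgk] at h0
    have h1 : LinearIndepOn K Projectivization.rep (insert y J) :=
      (pg_indep_of_base hB).mono (Set.insert_subset hyB hJB)
    exact h1.notMem_span_of_insert hy h0
  have hJI : J ⊆ I := fun y hy => hy.1
  have gx : g x.rep ≠ 0 := hgood x hxJ ⟨_, o.ab, fun y hy => Or.inl (hJI hy), Or.inl hxI⟩
  have ga : g a.rep ≠ 0 := hgood a (fun h => o.aI (hJI h))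
    ⟨_, o.ab, fun y hy => Or.inl (hJI hy), Or.inr (by simp)⟩
  have gb : g b.rep ≠ 0 := hgood b (fun h => o.bI (hJI h))
    ⟨_, o.ab, fun y hy => Or.inl (hJI hy), Or.inr (by simp)⟩
  have gc : g c.rep ≠ 0 := hgood c (fun h => o.cI (hJI h))
    ⟨_, o.cd, fun y hy => Or.inl (hJI hy), Or.inr (by simp)⟩
  have gd : g d.rep ≠ 0 := hgood d (fun h => o.dI (hJI h))
    ⟨_, o.cd, fun y hy => Or.inl (hJI hy), Or.inr (by simp)⟩
  let x' := Projectivization.mk K _ gx
  let a' := Projectivization.mk K _ ga
  let b' := Projectivization.mk K _ gb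
  let c' := Projectivization.mk K _ gc
  let d' := Projectivization.mk K _ gd
  have G : GP (ℙ K (Fin 3 → K)) x' a' b' c' d' :=
    { ab := (hbase x a b gx ga gb).mp (by rw [hIJ]; exact o.ab)
      ac := (hbase x a c gx ga gc).mp (by rw [hIJ]; exact o.ac)
      ad := (hbase x a d gx ga gd).mp (by rw [hIJ]; exact o.ad)
      bc := (hbase x b c gx gb gc).mp (by rw [hIJ]; exact o.bc)
      bd := (hbase x b d gx gb gd).mp (by rw [hIJ]; exact o.bd)
      cd := (hbase x c d gx gc gd).mp (by rw [hIJ]; exact o.cd) }
  have hex : ∀ p : ℙ K (Fin 3 → K), ∃ y : ℙ K V, (∃ h : g y.rep ≠ 0,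
      Projectivization.mk K _ h = p) ∧ (p = x' → y = x) ∧ (p = a' → y = a) ∧
      (p = b' → y = b) ∧ (p = c' → y = c) ∧ (p = d' → y = d) := by
    intro p
    have nax := G.ab.ne_left
    have nbx := G.bc.ne_left
    have ncx := G.cd.ne_left
    have ndx := G.cd.symm.ne_left
    have nab := G.ab.ne_right
    have nac := G.ac.ne_right
    have nad := G.ad.ne_right
    have nbc := G.bc.ne_right
    have nbd := G.bd.ne_right
    have ncd := G.cd.ne_right
    by_cases h1 : p = x'
    · exact ⟨x, ⟨gx, h1.symm⟩, fun _ => rfl, fun h => absurd (h.symm.trans h1) nax,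
        fun h => absurd (h.symm.trans h1) nbx, fun h => absurd (h.symm.trans h1) ncx,
        fun h => absurd (h.symm.trans h1) ndx⟩
    by_cases h2 : p = a'
    · exact ⟨a, ⟨ga, h2.symm⟩, fun h => absurd h h1, fun _ => rfl,
        fun h => absurd (h2.symm.trans h) nab, fun h => absurd (h2.symm.trans h) nac,
        fun h => absurd (h2.symm.trans h) nad⟩
    by_cases h3 : p = b'
    · exact ⟨b, ⟨gb, h3.symm⟩, fun h => absurd h h1, fun h => absurd h h2, fun _ => rfl,
        fun h => absurd (h3.symm.trans h) nbc, fun h => absurd (h3.symm.trans h) nbd⟩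
    by_cases h4 : p = c'
    · exact ⟨c, ⟨gc, h4.symm⟩, fun h => absurd h h1, fun h => absurd h h2,
        fun h => absurd h h3, fun _ => rfl, fun h => absurd (h4.symm.trans h) ncd⟩
    by_cases h5 : p = d'
    · exact ⟨d, ⟨gd, h5.symm⟩, fun h => absurd h h1, fun h => absurd h h2,
        fun h => absurd h h3, fun h => absurd h h4, fun _ => rfl⟩
    induction p with | h z hz =>
    obtain ⟨v, hv⟩ := hgs z
    have hv0 : v ≠ 0 := by
      rintro rfl
      apply hz
      rw [← hv, map_zero]
    obtain ⟨t, ht⟩ := Projectivization.exists_smul_eq_mk_rep K v hv0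
    have hgv : g (Projectivization.mk K v hv0).rep = t • z := by
      rw [← ht, ← hv]
      exact map_smul g (t : K) v
    refine ⟨Projectivization.mk K v hv0, ⟨?_, ?_⟩, fun h => absurd h h1, fun h => absurd h h2,
        fun h => absurd h h3, fun h => absurd h h4, fun h => absurd h h5⟩
    · rw [hgv]
      exact smul_ne_zero_iff_ne t |>.mpr hz
    · rw [Projectivization.mk_eq_mk_iff]
      exact ⟨t, hgv.symm⟩
  choose ι hι hιx hιa hιb hιc hιd using hex
  have hbase' : ∀ p q s, (PG K V).IsBase (insert (ι p) J ∪ {ι q, ι s}) ↔
      NC (ℙ K (Fin 3 → K)) p q s := by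
    intro p q s
    obtain ⟨h1, e1⟩ := hι p
    obtain ⟨h2, e2⟩ := hι q
    obtain ⟨h3, e3⟩ := hι s
    rw [hbase _ _ _ h1 h2 h3, e1, e2, e3]
  have hinj : Function.Injective ι := by
    intro p q hpq
    obtain ⟨h1, e1⟩ := hι p
    obtain ⟨h2, e2⟩ := hι q
    rw [← e1, ← e2]
    congr 2
    rw [hpq]
  have hnotJ : ∀ p, ι p ∉ J := by
    intro p hp
    obtain ⟨h1, e1⟩ := hι p
    exact h1 (hgJ _ hp)
  have E : Emb (PG K V) J (ℙ K (Fin 3 → K)) ι :=
    { inj := hinj
      notJ := hnotJ
      base := hbase'
      dep := by
        intro B hB hJB p q s hpq hps hqs hp hq hs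
        rw [← hbase']
        have hsub : insert (ι p) J ∪ {ι q, ι s} ⊆ B := by
          rintro y ((rfl | hy) | (rfl | rfl))
          · exact hp
          · exact hJB hy
          · exact hq
          · exact hs
        have hcard : (insert (ι p) J ∪ {ι q, ι s}).ncard = J.ncard + 3 := by
          have e1 : insert (ι p) J ∪ {ι q, ι s} = insert (ι p) (insert (ι q) (insert (ι s) J)) := by
            ext y
            simp only [Set.mem_union, Set.mem_insert_iff, Set.mem_singleton_iff]
            tauto
          rw [e1, Set.ncard_insert_of_notMem, Set.ncard_insert_of_notMem,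
            Set.ncard_insert_of_notMem (hnotJ s)]
          · rintro (h | h)
            · exact hqs (hinj h)
            · exact hnotJ q h
          · rintro (h | h | h)
            · exact hpq (hinj h)
            · exact hps (hinj h)
            · exact hnotJ p h
        have : insert (ι p) J ∪ {ι q, ι s} = B := by
          apply Set.eq_of_subset_of_ncard_le hsub
          rw [hcard, pg_ncard_of_base hB]
          omega
        rw [this]
        exact hB }
  have := E.no_split hS G
  rw [hιx x' rfl, hιa a' rfl, hιb b' rfl, hιc c' rfl, hιd d' rfl, hIJ] at this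
  exact this

end link

end Pool.Agent.MP_da28a5_co
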